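import Mathlib

/-!
# MENGER toolkit: basic definitions

Spaces are sets in metric spaces, maps are functions that are continuous on a set (`IsMap f A B`).

* `Cu j`, `dCu j`: the unit cube `I^j` and its boundary.
* `UV k g A K t t'`: `g : A → K` ANY function; spheres of dimension `< k` in `A` which `g` sends into
  a `t`-ball around `y ∈ K` bound balls which `g` sends into the `t'`-ball around `y`; the case
  `j = 0` says that `g(A)` is `t'`-dense in `K`.
* `ULC k K := ∀ ε > 0, ∃ δ > 0, UV k id K K δ ε` (this is `ULC^(k-1)` of the notes).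
* `Conn k K`: maps `dCu j → K` extend to `Cu j → K` for all `j ≤ k` (`(k-1)`-connected, and `K` is
  non-empty by the case `j = 0`).
* `L k g A K e`: the function `g : A → K` has the `e`-lifting property for the pairs
  `(Cu j, dCu j)`, `j ≤ k`, exact on the boundary. `LP k g A K a b`: the same with boundary data
  `a`-close to a lift, and a `b`-close conclusion.
* `DISC A K`: functions `A → K` with small jumps are close to continuous maps.
* `Fam B A K V χ`: `V` is `K` with finitely many copies of the compact model pair `(B, A)` attached.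
  `Layer d K V`: the model is `(Cu d, dCu d)`.
* `TP k P0 P`: test pair; `P` is obtained from the compact set `P0` by attaching one layer of
  `d`-cells for each `d = 0, 1, ..., k` (a finite relative CW complex of dimension `≤ k`).
-/

open Set Metric Topology

namespace MG

/-! ## Maps between sets -/

/-- a map of the set `A` into the set `B`: continuous on `A`, with values in `B` -/
structure IsMap {α β : Type*} [TopologicalSpace α] [TopologicalSpace β]
    (f : α → β) (A : Set α) (B : Set β) : Prop where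
  cont : ContinuousOn f A
  maps : MapsTo f A B

namespace IsMap

variable {α β γ : Type*} [TopologicalSpace α] [TopologicalSpace β] [TopologicalSpace γ]

theorem comp {g : β → γ} {f : α → β} {A : Set α} {B : Set β} {C : Set γ}
    (hg : IsMap g B C) (hf : IsMap f A B) : IsMap (fun x => g (f x)) A C :=
  ⟨hg.cont.comp hf.cont hf.maps, fun _ hx => hg.maps (hf.maps hx)⟩

theorem mono {f : α → β} {A A' : Set α} {B B' : Set β} (hf : IsMap f A B) (h : A' ⊆ A)
    (h' : B ⊆ B') : IsMap f A' B' :=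
  ⟨hf.cont.mono h, fun _ hx => h' (hf.maps (h hx))⟩

theorem left {f : α → β} {A A' : Set α} {B : Set β} (hf : IsMap f A B) (h : A' ⊆ A) :
    IsMap f A' B := hf.mono h le_rfl

theorem right {f : α → β} {A : Set α} {B B' : Set β} (hf : IsMap f A B) (h : B ⊆ B') :
    IsMap f A B' := hf.mono le_rfl h

theorem congr {f g : α → β} {A : Set α} {B : Set β} (hf : IsMap f A B) (h : EqOn g f A) :
    IsMap g A B :=
  ⟨hf.cont.congr h, fun x hx => by rw [h hx]; exact hf.maps hx⟩

theorem id (A : Set α) : IsMap (fun x => x) A A := ⟨continuousOn_id, fun _ hx => hx⟩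

theorem const {A : Set α} {B : Set β} {b : β} (hb : b ∈ B) : IsMap (fun _ : α => b) A B :=
  ⟨continuousOn_const, fun _ _ => hb⟩

theorem empty {f : α → β} {B : Set β} : IsMap f (∅ : Set α) B :=
  ⟨continuousOn_empty f, fun _ hx => hx.elim⟩

/-- gluing of two maps on closed sets -/
theorem glue {A A' : Set α} (hA : IsClosed A) (hA' : IsClosed A') {B : Set β} {f g : α → β}
    (hf : IsMap f A B) (hg : IsMap g A' B) (h : ∀ x ∈ A, x ∈ A' → f x = g x) :
    ∃ F : α → β, IsMap F (A ∪ A') B ∧ EqOn F f A ∧ EqOn F g A' := by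
  classical
  have h1 : EqOn (fun x => if x ∈ A then f x else g x) f A := fun x hx => by simp [hx]
  have h2 : EqOn (fun x => if x ∈ A then f x else g x) g A' := fun x hx => by
    by_cases hxA : x ∈ A
    · simp only [hxA, if_true]; exact h x hxA hx
    · simp [hxA]
  refine ⟨fun x => if x ∈ A then f x else g x, ⟨?_, ?_⟩, h1, h2⟩
  · exact (hf.cont.congr h1).union_of_isClosed (hg.cont.congr h2) hA hA'
  · rintro x (hx | hx)
    · rw [h1 hx]; exact hf.maps hx
    · rw [h2 hx]; exact hg.maps hx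

end IsMap

/-! ## Cubes -/

/-- the unit cube `I^j` -/
def Cu (j : ℕ) : Set (Fin j → ℝ) := Icc 0 1

/-- the boundary of the unit cube `I^j` -/
def dCu (j : ℕ) : Set (Fin j → ℝ) := {x | x ∈ Cu j ∧ ∃ i, x i = 0 ∨ x i = 1}

lemma mem_Cu {j : ℕ} {x : Fin j → ℝ} : x ∈ Cu j ↔ ∀ i, 0 ≤ x i ∧ x i ≤ 1 := by
  simp only [Cu, mem_Icc, Pi.le_def, Pi.zero_apply, Pi.one_apply]
  exact ⟨fun h i => ⟨h.1 i, h.2 i⟩, fun h => ⟨fun i => (h i).1, fun i => (h i).2⟩⟩

lemma dCu_subset (j : ℕ) : dCu j ⊆ Cu j := fun _ hx => hx.1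

lemma isCompact_Cu (j : ℕ) : IsCompact (Cu j) := isCompact_Icc

lemma isClosed_Cu (j : ℕ) : IsClosed (Cu j) := isClosed_Icc

lemma isClosed_dCu (j : ℕ) : IsClosed (dCu j) := by
  have : dCu j = Cu j ∩ ⋃ i : Fin j, ({x : Fin j → ℝ | x i = 0} ∪ {x : Fin j → ℝ | x i = 1}) := by
    ext x
    simp only [dCu, mem_ofPred_eq, mem_inter_iff, mem_iUnion, mem_union]
  rw [this]
  refine (isClosed_Cu j).inter (isClosed_iUnion_of_finite fun i => IsClosed.union ?_ ?_)
  · exact isClosed_eq (continuous_apply i) continuous_const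
  · exact isClosed_eq (continuous_apply i) continuous_const

lemma isCompact_dCu (j : ℕ) : IsCompact (dCu j) :=
  (isCompact_Cu j).of_isClosed_subset (isClosed_dCu j) (dCu_subset j)

lemma dCu_zero : dCu 0 = ∅ := by
  ext x
  simp only [dCu, mem_ofPred_eq, mem_empty_iff_false, iff_false, not_and, not_exists]
  intro _ i
  exact i.elim0

lemma Cu_nonempty (j : ℕ) : (Cu j).Nonempty := ⟨0, by rw [mem_Cu]; intro i; simp⟩

lemma convex_Cu (j : ℕ) : Convex ℝ (Cu j) := convex_Icc 0 1

/-! ## Local connectivity, connectivity, lifting properties -/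

section Props

variable {α β : Type*} [MetricSpace α] [MetricSpace β]

/-- `UV`-property of an arbitrary function `g : A → K` for cells of dimension `≤ k`, from scale `t`
to scale `t'` (for `j = 0` it says that `g(A)` is `t'`-dense in `K`) -/
def UV (k : ℕ) (g : α → β) (A : Set α) (K : Set β) (t t' : ℝ) : Prop :=
  ∀ j ≤ k, ∀ y ∈ K, ∀ a : (Fin j → ℝ) → α, IsMap a (dCu j) A →
    (∀ x ∈ dCu j, dist (g (a x)) y < t) →
    ∃ F : (Fin j → ℝ) → α, IsMap F (Cu j) A ∧ EqOn F a (dCu j) ∧
      ∀ x ∈ Cu j, dist (g (F x)) y < t'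

/-- uniform local connectivity `ULC^(k-1)`: small spheres of dimension `< k` bound small balls -/
def ULC (k : ℕ) (K : Set α) : Prop :=
  ∀ ε > 0, ∃ δ > 0, UV k (fun x => x) K K δ ε

/-- `K` is `(k-1)`-connected (and non-empty, by the case `j = 0`) -/
def Conn (k : ℕ) (K : Set α) : Prop :=
  ∀ j ≤ k, ∀ f : (Fin j → ℝ) → α, IsMap f (dCu j) K →
    ∃ F : (Fin j → ℝ) → α, IsMap F (Cu j) K ∧ EqOn F f (dCu j)

/-- `g : A → K` (any function) has the `e`-lifting property for cells of dimension `≤ k`,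
with exact boundary data -/
def L (k : ℕ) (g : α → β) (A : Set α) (K : Set β) (e : ℝ) : Prop :=
  ∀ j ≤ k, ∀ (f : (Fin j → ℝ) → β) (f0 : (Fin j → ℝ) → α), IsMap f (Cu j) K →
    IsMap f0 (dCu j) A → (∀ x ∈ dCu j, g (f0 x) = f x) →
    ∃ F : (Fin j → ℝ) → α, IsMap F (Cu j) A ∧ EqOn F f0 (dCu j) ∧
      ∀ x ∈ Cu j, dist (g (F x)) (f x) < e

/-- `g : A → K` (any function) has the lifting property for cells of dimension `≤ k`:
boundary data `a`-close to a lift, conclusion `b`-close -/
def LP (k : ℕ) (g : α → β) (A : Set α) (K : Set β) (a b : ℝ) : Prop :=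
  ∀ j ≤ k, ∀ (f : (Fin j → ℝ) → β) (f0 : (Fin j → ℝ) → α), IsMap f (Cu j) K →
    IsMap f0 (dCu j) A → (∀ x ∈ dCu j, dist (g (f0 x)) (f x) < a) →
    ∃ F : (Fin j → ℝ) → α, IsMap F (Cu j) A ∧ EqOn F f0 (dCu j) ∧
      ∀ x ∈ Cu j, dist (g (F x)) (f x) < b

/-- functions `A → K` with small jumps are close to maps -/
def DISC (A : Set α) (K : Set β) : Prop :=
  ∀ ε > 0, ∃ δ > 0, ∀ h : α → β, MapsTo h A K →
    (∃ r > 0, ∀ x ∈ A, ∀ y ∈ A, dist x y < r → dist (h x) (h y) < δ) →
    ∃ h' : α → β, IsMap h' A K ∧ ∀ x ∈ A, dist (h' x) (h x) < ε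

end Props

/-! ## Attaching cells -/

section Attach

variable {ε α ι : Type*} [TopologicalSpace ε] [TopologicalSpace α]

/-- `V` is obtained from `K` by attaching the cells `χ i`, copies of the model pair `(B, A)` -/
structure Fam (B A : Set ε) (K V : Set α) (χ : ι → ε → α) : Prop where
  cont : ∀ i, ContinuousOn (χ i) B
  bdry : ∀ i, MapsTo (χ i) A K
  off : ∀ i, ∀ x ∈ B, x ∉ A → χ i x ∉ K
  inj : ∀ i i' x x', x ∈ B → x ∉ A → x' ∈ B → x' ∉ A → χ i x = χ i' x' → i = i' ∧ x = x'
  union : V = K ∪ ⋃ i, χ i '' B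

/-- `V` is obtained from `K` by attaching finitely many `d`-cells -/
def Layer (d : ℕ) (K V : Set α) : Prop :=
  ∃ (m : ℕ) (χ : Fin m → (Fin d → ℝ) → α), Fam (Cu d) (dCu d) K V χ

/-- test pair: `P` is obtained from the compact set `P0` by attaching a layer of `d`-cells for
`d = 0, 1, ..., k` -/
def TP (k : ℕ) (P0 P : Set α) : Prop :=
  IsCompact P0 ∧ ∃ S : ℕ → Set α, S 0 = P0 ∧ S (k + 1) = P ∧ ∀ d ≤ k, Layer d (S d) (S (d + 1))

end Attach

end MG
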