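import Pool.Agent.Work.MP_017613_gt.DigB
import Pool.Agent.Work.MP_017613_gt.Cub

/-!
# Pushing maps into the `k`-skeleton of the grid of mesh `1/m`

`grid_push`: a map `f` of a compact set `P` with `PushOff k P` to `R^N` can be moved, inside the
smallest cubes containing the points `f x`, to a map into the `k`-skeleton of the grid; points that
are already in the `k`-skeleton are not moved.
-/

open Set Topology Metric
open Pool.Agent.Work.MP_017613_gt

namespace MG.GPush

section Grid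

variable {N : ℕ}

lemma even_car_iff {m : ℕ} {y : Fin N → ℝ} {i : Fin N} :
    Even (car m y i) ↔ (⌊(m:ℝ) * y i⌋ : ℝ) = m * y i := by
  have h1 : ⌊(m:ℝ) * y i⌋ ≤ ⌈(m:ℝ) * y i⌉ := Int.floor_le_ceil _
  have h2 : ⌈(m:ℝ) * y i⌉ ≤ ⌊(m:ℝ) * y i⌋ + 1 := Int.ceil_le_floor_add_one _
  constructor
  · rintro ⟨r, hr⟩
    have h3 : ⌊(m:ℝ) * y i⌋ + ⌈(m:ℝ) * y i⌉ = r + r := hr
    have h4 : ⌈(m:ℝ) * y i⌉ = ⌊(m:ℝ) * y i⌋ := by omega
    have h5 := Int.floor_le ((m:ℝ) * y i)
    have h6 := Int.le_ceil ((m:ℝ) * y i)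
    rw [h4] at h6
    exact le_antisymm h5 h6
  · intro h
    have h3 : ⌈(m:ℝ) * y i⌉ = ⌊(m:ℝ) * y i⌋ := by
      conv_lhs => rw [← h]
      exact Int.ceil_intCast _
    show Even (⌊(m:ℝ) * y i⌋ + ⌈(m:ℝ) * y i⌉)
    rw [h3]
    exact ⟨_, rfl⟩

lemma tw_le_half (t : ℝ) : tw t ≤ 1 / 2 := by
  unfold tw
  rw [abs_le]
  have h1 := Int.fract_nonneg t
  have h2 := Int.fract_lt_one t
  constructor <;> linarith

lemma tw_nonneg (t : ℝ) : 0 ≤ tw t := abs_nonneg _

lemma tw_eq_half_of {t : ℝ} (h : (⌊t⌋ : ℝ) = t) : tw t = 1 / 2 := by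
  unfold tw
  have : Int.fract t = 0 := by rw [Int.fract]; linarith
  rw [this]
  norm_num

lemma floor_eq_of_tw {t : ℝ} (h : tw t = 1 / 2) : (⌊t⌋ : ℝ) = t := by
  unfold tw at h
  have h1 := Int.fract_nonneg t
  have h2 := Int.fract_lt_one t
  have h3 : Int.fract t = 0 := by
    rcases abs_cases (Int.fract t - 1 / 2) with h4 | h4 <;> linarith [h4.1]
  rw [Int.fract] at h3
  linarith

/-- the maximal distance of the coordinates in `S` from the centres -/
noncomputable def nrm (m : ℕ) (S : Finset (Fin N)) (y : Fin N → ℝ) : ℝ :=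
  ‖fun i : S => tw (m * y i)‖

lemma continuous_nrm (m : ℕ) (S : Finset (Fin N)) : Continuous (nrm m S) := by
  unfold nrm
  refine Continuous.norm (continuous_pi fun i => ?_)
  exact continuous_tw.comp (continuous_const.mul (continuous_apply _))

lemma nrm_nonneg (m : ℕ) (S : Finset (Fin N)) (y : Fin N → ℝ) : 0 ≤ nrm m S y := norm_nonneg _

lemma nrm_le_half (m : ℕ) (S : Finset (Fin N)) (y : Fin N → ℝ) : nrm m S y ≤ 1 / 2 := by
  unfold nrm
  rw [pi_norm_le_iff_of_nonneg (by norm_num)]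
  intro i
  rw [Real.norm_eq_abs, abs_of_nonneg (tw_nonneg _)]
  exact tw_le_half _

lemma tw_le_nrm {m : ℕ} {S : Finset (Fin N)} {y : Fin N → ℝ} {i : Fin N} (hi : i ∈ S) :
    tw (m * y i) ≤ nrm m S y := by
  have := norm_le_pi_norm (fun i : S => tw (m * y i)) ⟨i, hi⟩
  rw [Real.norm_eq_abs, abs_of_nonneg (tw_nonneg _)] at this
  exact this

lemma exists_tw_eq_nrm {m : ℕ} {S : Finset (Fin N)} {y : Fin N → ℝ} (h : 0 < nrm m S y) :
    ∃ i ∈ S, tw (m * y i) = nrm m S y := by
  by_contra hcon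
  push Not at hcon
  have h1 : ∀ i : S, ‖tw (m * y i)‖ < nrm m S y := fun i => by
    rw [Real.norm_eq_abs, abs_of_nonneg (tw_nonneg _)]
    exact lt_of_le_of_ne (tw_le_nrm i.2) (hcon i i.2)
  have h2 : ‖fun i : S => tw (m * y i)‖ < nrm m S y := (pi_norm_lt_iff h).2 h1
  exact lt_irrefl _ h2

open Classical in
/-- the radial projection -/
noncomputable def rad (m : ℕ) (S : Finset (Fin N)) (y : Fin N → ℝ) : Fin N → ℝ := fun i =>
  y i + if i ∈ S then (1 / (2 * nrm m S y) - 1) * (Int.fract (m * y i) - 1 / 2) / m else 0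

lemma continuousAt_rad {m : ℕ} {S : Finset (Fin N)} {y : Fin N → ℝ} (h : 0 < nrm m S y) :
    ContinuousAt (rad m S) y := by
  classical
  rw [continuousAt_pi]
  intro i
  unfold rad
  refine (continuous_apply i).continuousAt.add ?_
  by_cases hi : i ∈ S
  · simp only [hi, if_true]
    refine ContinuousAt.div_const ?_ _
    have hc : ContinuousAt (fun y : Fin N → ℝ => 1 / (2 * nrm m S y) - 1) y := by
      refine ContinuousAt.sub ?_ continuousAt_const
      refine continuousAt_const.div (continuousAt_const.mul (continuous_nrm m S).continuousAt) ?_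
      positivity
    by_cases hz : (⌊(m:ℝ) * y i⌋ : ℝ) = m * y i
    · have h1 : nrm m S y = 1 / 2 := by
        refine le_antisymm (nrm_le_half _ _ _) ?_
        rw [← tw_eq_half_of hz]
        exact tw_le_nrm hi
      have h0 : 1 / (2 * nrm m S y) - 1 = 0 := by rw [h1]; norm_num
      have h2 : Filter.Tendsto (fun y : Fin N → ℝ => |1 / (2 * nrm m S y) - 1|) (𝓝 y) (𝓝 0) := by
        have h3 : Filter.Tendsto (fun y : Fin N → ℝ => |1 / (2 * nrm m S y) - 1|) (𝓝 y)
            (𝓝 |1 / (2 * nrm m S y) - 1|) := hc.abs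
        rw [h0, abs_zero] at h3
        exact h3
      show Filter.Tendsto _ _ (𝓝 ((1 / (2 * nrm m S y) - 1) * (Int.fract ((m:ℝ) * y i) - 1 / 2)))
      rw [h0, zero_mul]
      refine squeeze_zero_norm (fun z => ?_) h2
      rw [norm_mul, Real.norm_eq_abs, Real.norm_eq_abs]
      have h3 : |Int.fract ((m:ℝ) * z i) - 1 / 2| ≤ 1 := (tw_le_half ((m:ℝ) * z i)).trans (by norm_num)
      exact mul_le_of_le_one_right (abs_nonneg _) h3
    · refine hc.mul ?_
      refine ContinuousAt.sub ?_ continuousAt_const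
      exact ContinuousAt.comp (f := fun y : Fin N → ℝ => (m:ℝ) * y i) (continuousAt_fract (Ne.symm hz))
        (continuousAt_const.mul (continuous_apply i).continuousAt)
  · simp only [hi, if_false]
    exact continuousAt_const

/-- if one of the coordinates in `S` is on the grid nothing moves -/
lemma rad_eq_self {m : ℕ} {S : Finset (Fin N)} {y : Fin N → ℝ}
    (h : ∃ i ∈ S, Even (car m y i)) : rad m S y = y := by
  classical
  obtain ⟨i, hi, he⟩ := h
  have h1 : nrm m S y = 1 / 2 := by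
    refine le_antisymm (nrm_le_half _ _ _) ?_
    rw [← tw_eq_half_of (even_car_iff.1 he)]
    exact tw_le_nrm hi
  funext j
  unfold rad
  rw [h1]
  norm_num

lemma rad_mem {m : ℕ} (hm : 0 < m) {S : Finset (Fin N)} {y : Fin N → ℝ} (h : 0 < nrm m S y) :
    rad m S y ∈ cube m (car m y) := by
  classical
  have hm' : (0:ℝ) < m := by exact_mod_cast hm
  by_cases he : ∃ i ∈ S, Even (car m y i)
  · rw [rad_eq_self he]; exact mem_cube_car m y
  · push Not at he
    intro i
    have e1 : car m y i / 2 = ⌊(m:ℝ) * y i⌋ := (floor_ceil _).1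
    have e2 : (car m y i + 1) / 2 = ⌈(m:ℝ) * y i⌉ := (floor_ceil _).2
    rw [e1, e2]
    by_cases hi : i ∈ S
    · have h1 := he i hi
      rw [even_car_iff] at h1
      have h2 := Int.floor_le ((m:ℝ) * y i)
      have h3 : (⌊(m:ℝ) * y i⌋ : ℝ) < m * y i := lt_of_le_of_ne h2 h1
      have h4 : ⌊(m:ℝ) * y i⌋ < ⌈(m:ℝ) * y i⌉ := by
        rw [Int.lt_ceil]; exact h3
      have h5 : (⌊(m:ℝ) * y i⌋ : ℝ) + 1 ≤ (⌈(m:ℝ) * y i⌉ : ℝ) := by exact_mod_cast h4
      have h6 := Int.floor_add_fract ((m:ℝ) * y i)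
      have e : (m:ℝ) * rad m S y i = ⌊(m:ℝ) * y i⌋ + 1 / 2 +
          (Int.fract (m * y i) - 1 / 2) / (2 * nrm m S y) := by
        unfold rad
        simp only [hi, if_true]
        rw [mul_add, mul_div_cancel₀ _ hm'.ne']
        have h7 : (1 / (2 * nrm m S y) - 1) * (Int.fract ((m:ℝ) * y i) - 1 / 2) =
          (Int.fract (m * y i) - 1 / 2) / (2 * nrm m S y) - (Int.fract (m * y i) - 1 / 2) := by
          ring
        rw [h7]
        linarith
      have h8 : |(Int.fract ((m:ℝ) * y i) - 1 / 2) / (2 * nrm m S y)| ≤ 1 / 2 := by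
        rw [abs_div, abs_of_pos (show (0:ℝ) < 2 * nrm m S y by positivity),
          div_le_iff₀ (by positivity)]
        have : |Int.fract ((m:ℝ) * y i) - 1 / 2| ≤ nrm m S y := tw_le_nrm hi
        linarith
      rw [abs_le] at h8
      rw [e]
      constructor
      · linarith [h8.1]
      · linarith [h8.2]
    · have e : rad m S y i = y i := by
        unfold rad
        simp [hi]
      rw [e]
      exact ⟨Int.floor_le _, Int.le_ceil _⟩

lemma rad_even {m : ℕ} (hm : 0 < m) {S : Finset (Fin N)} {y : Fin N → ℝ} (h : 0 < nrm m S y) :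
    ∃ i ∈ S, Even (car m (rad m S y) i) := by
  classical
  have hm' : (0:ℝ) < m := by exact_mod_cast hm
  by_cases he : ∃ i ∈ S, Even (car m y i)
  · rw [rad_eq_self he]; exact he
  · push Not at he
    obtain ⟨i, hi, hn⟩ := exists_tw_eq_nrm h
    refine ⟨i, hi, ?_⟩
    rw [even_car_iff]
    have e : (m:ℝ) * rad m S y i = ⌊(m:ℝ) * y i⌋ + 1 / 2 +
        (Int.fract (m * y i) - 1 / 2) / (2 * nrm m S y) := by
      unfold rad
      simp only [hi, if_true]
      rw [mul_add, mul_div_cancel₀ _ hm'.ne']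
      have h6 := Int.floor_add_fract ((m:ℝ) * y i)
      have h7 : (1 / (2 * nrm m S y) - 1) * (Int.fract ((m:ℝ) * y i) - 1 / 2) =
        (Int.fract (m * y i) - 1 / 2) / (2 * nrm m S y) - (Int.fract (m * y i) - 1 / 2) := by
        ring
      rw [h7]
      linarith
    rw [← hn] at e h
    have h8 : (m:ℝ) * rad m S y i = (⌊(m:ℝ) * y i⌋ : ℤ) ∨
        (m:ℝ) * rad m S y i = ((⌊(m:ℝ) * y i⌋ + 1 : ℤ) : ℝ) := by
      rw [e]
      unfold tw at h ⊢
      rcases abs_cases (Int.fract ((m:ℝ) * y i) - 1 / 2) with h4 | h4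
      · right
        rw [h4.1] at h ⊢
        have : (Int.fract ((m:ℝ) * y i) - 1 / 2) / (2 * (Int.fract ((m:ℝ) * y i) - 1 / 2)) =
            1 / 2 := by
          rw [div_eq_iff (by linarith)]
          ring
        rw [this]
        push_cast
        ring
      · left
        rw [h4.1] at h ⊢
        have : (Int.fract ((m:ℝ) * y i) - 1 / 2) / (2 * -(Int.fract ((m:ℝ) * y i) - 1 / 2)) =
            - (1 / 2) := by
          rw [div_eq_iff (by linarith)]
          ring
        rw [this]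
        ring
    rcases h8 with h8 | h8 <;> rw [h8, Int.floor_intCast]

end Grid

variable {α : Type*} [MetricSpace α]

/-- the pushing step for one set `S` of `k + 1` coordinates -/
lemma gpush_one {k N m : ℕ} (hm : 0 < m) {P : Set α} (cP : IsCompact P) (hP : PushOff k P)
    (S : Finset (Fin N)) (hS : S.card = k + 1) {g : α → Fin N → ℝ} (hg : ContinuousOn g P) :
    ∃ g' : α → Fin N → ℝ, ContinuousOn g' P ∧ (∀ x ∈ P, g' x ∈ cube m (car m (g x))) ∧
      (∀ x ∈ P, ∃ i ∈ S, Even (car m (g' x) i)) ∧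
      (∀ x ∈ P, (∃ i ∈ S, Even (car m (g x) i)) → g' x = g x) := by
  classical
  have hp : (0:ℝ) < m := by exact_mod_cast hm
  -- enumeration of `S`
  obtain ⟨e⟩ : Nonempty (S ≃ Fin (k + 1)) := by
    refine ⟨Fintype.equivOfCardEq ?_⟩
    simp [hS]
  have hgi : ∀ i, ContinuousOn (fun x => g x i) P := fun i =>
    (continuous_apply i).comp_continuousOn hg
  have htw : ContinuousOn (fun x => fun i => tw (m * g x i)) P := by
    rw [continuousOn_pi]
    intro i
    exact continuous_tw.comp_continuousOn (continuousOn_const.mul (hgi i))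
  obtain ⟨A, hA⟩ : ∃ A : Set α, A = {x ∈ P | ∀ i ∈ S, tw (m * g x i) ≤ 1 / 6} := ⟨_, rfl⟩
  obtain ⟨B, hB⟩ : ∃ B : Set α, B = {x ∈ P | ∃ i ∈ S, 1 / 6 ≤ tw (m * g x i)} := ⟨_, rfl⟩
  have hA' : ∀ x, x ∈ A ↔ x ∈ P ∧ ∀ i ∈ S, tw (m * g x i) ≤ 1 / 6 := by
    intro x; rw [hA]; rfl
  have hB' : ∀ x, x ∈ B ↔ x ∈ P ∧ ∃ i ∈ S, 1 / 6 ≤ tw (m * g x i) := by
    intro x; rw [hB]; rfl
  have hAP : A ⊆ P := fun x hx => ((hA' x).1 hx).1
  have clA : IsClosed A := by
    have : IsClosed {y : Fin N → ℝ | ∀ i ∈ S, y i ≤ 1 / 6} := by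
      simp only [ofPred_forall]
      exact isClosed_iInter fun i => isClosed_iInter fun _ =>
        isClosed_le (continuous_apply i) continuous_const
    rw [hA]; exact htw.preimage_isClosed_of_isClosed cP.isClosed this
  have clB : IsClosed B := by
    have : IsClosed {y : Fin N → ℝ | ∃ i ∈ S, 1 / 6 ≤ y i} := by
      have e : {y : Fin N → ℝ | ∃ i ∈ S, 1 / 6 ≤ y i} = ⋃ i ∈ S, {y : Fin N → ℝ | 1 / 6 ≤ y i} := by
        ext y; simp
      rw [e]
      refine Set.Finite.isClosed_biUnion (Finset.finite_toSet S) fun i _ => ?_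
      exact isClosed_le continuous_const (continuous_apply i)
    rw [hB]; exact htw.preimage_isClosed_of_isClosed cP.isClosed this
  have cA : IsCompact A := cP.of_isClosed_subset clA hAP
  have hAB : P = A ∪ B := by
    ext x
    rw [mem_union, hA', hB']
    constructor
    · intro hx
      by_cases h : ∀ i ∈ S, tw (m * g x i) ≤ 1 / 6
      · exact Or.inl ⟨hx, h⟩
      · push Not at h
        obtain ⟨i, hi, h⟩ := h
        exact Or.inr ⟨hx, i, hi, h.le⟩
    · rintro (h | h) <;> exact h.1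
  -- block coordinates
  set u : α → Fin (k + 1) → ℝ :=
    fun x j => Int.fract (m * g x (e.symm j)) - 1 / 2 with hu
  have cu : ContinuousOn u A := by
    rw [continuousOn_pi]
    intro j x hx
    have h1 : ContinuousWithinAt (fun x => m * g x (e.symm j)) A x :=
      ((continuousOn_const.mul (hgi _)).mono hAP) x hx
    have h2 : ContinuousAt (Int.fract : ℝ → ℝ) (m * g x (e.symm j)) :=
      continuousAt_fract_of_tw (((hA' x).1 hx).2 _ (e.symm j).2)
    exact (ContinuousAt.comp_continuousWithinAt (f := fun x => m * g x (e.symm j)) h2 h1).sub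
      continuousWithinAt_const
  have hule : ∀ x ∈ A, ‖u x‖ ≤ 1 / 6 := by
    intro x hx
    rw [pi_norm_le_iff_of_nonneg (by norm_num)]
    intro j
    exact ((hA' x).1 hx).2 _ (e.symm j).2
  obtain ⟨v, hv, hvd, h0⟩ := (hP.mono cA hAP) u cu (1 / 24) (by norm_num)
  set v' : α → Fin (k + 1) → ℝ := fun x => u x + cut ‖u x‖ • (v x - u x) with hv'
  have cv' : ContinuousOn v' A :=
    cu.add ((continuous_cut.comp_continuousOn cu.norm).smul (hv.sub cu))
  have hvu : ∀ x ∈ A, ‖v' x - u x‖ ≤ 1 / 24 := by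
    intro x hx
    have h1 : v' x - u x = cut ‖u x‖ • (v x - u x) := by simp [hv']
    have h3 := hvd x hx
    rw [dist_eq_norm] at h3
    rw [h1, norm_smul, Real.norm_eq_abs, abs_of_nonneg (cut_nonneg _)]
    have h4 := cut_le_one ‖u x‖
    have h5 := cut_nonneg ‖u x‖
    nlinarith [norm_nonneg (v x - u x)]
  have hne : ∀ x ∈ A, v' x ≠ 0 := by
    intro x hx
    by_cases ht : ‖u x‖ ≤ 1 / 24
    · simp only [hv', cut_of_le ht, one_smul, add_sub_cancel]
      exact h0 x hx
    · push Not at ht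
      intro hz
      have h1 := hvu x hx
      rw [hz, zero_sub, norm_neg] at h1
      linarith
  set d : α → Fin N → ℝ := fun x i => if h : i ∈ S then
    (v' x (e ⟨i, h⟩) - u x (e ⟨i, h⟩)) / m else 0 with hd
  have cd : ContinuousOn d A := by
    rw [continuousOn_pi]
    intro i
    by_cases h : i ∈ S
    · simp only [hd, h, dif_pos]
      have h1 := (continuous_apply (e ⟨i, h⟩)).comp_continuousOn cv'
      have h2 := (continuous_apply (e ⟨i, h⟩)).comp_continuousOn cu
      exact (h1.sub h2).div_const _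
    · simp only [hd, h, dif_neg, not_false_iff]
      exact continuousOn_const
  -- on `A ∩ B` the correction vanishes
  have hAB0 : ∀ x ∈ A, (∃ i ∈ S, 1 / 6 ≤ tw (m * g x i)) → d x = 0 := by
    rintro x hx ⟨i, hi, h6⟩
    have h1 : 1 / 12 ≤ ‖u x‖ := by
      refine le_trans (le_trans (by norm_num) h6) ?_
      have := norm_le_pi_norm (u x) (e ⟨i, hi⟩)
      simpa [hu, tw, Real.norm_eq_abs] using this
    have h2 : v' x = u x := by
      simp only [hv', cut_of_ge h1, zero_smul, add_zero]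
    funext j
    simp only [hd, h2, sub_self, zero_div, Pi.zero_apply]
    split_ifs <;> rfl
  -- the new value of the coordinates in `S`
  have hval : ∀ x ∈ A, ∀ i (hi : i ∈ S),
      (m:ℝ) * (g x + d x) i = ⌊(m:ℝ) * g x i⌋ + 1 / 2 + v' x (e ⟨i, hi⟩) ∧
      |v' x (e ⟨i, hi⟩)| ≤ 1 / 4 ∧ (⌊(m:ℝ) * g x i⌋ : ℝ) + 1 ≤ (⌈(m:ℝ) * g x i⌉ : ℝ) := by
    intro x hx i hi
    have h1 := ((hA' x).1 hx).2 i hi
    unfold tw at h1
    rw [abs_le] at h1
    have h2 := Int.floor_add_fract ((m:ℝ) * g x i)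
    have h3 : u x (e ⟨i, hi⟩) = Int.fract (m * g x i) - 1 / 2 := by
      simp only [hu, Equiv.symm_apply_apply]
    have h4 : d x i = (v' x (e ⟨i, hi⟩) - u x (e ⟨i, hi⟩)) / m := by
      simp only [hd, hi, dif_pos]
    have h5 : |v' x (e ⟨i, hi⟩) - u x (e ⟨i, hi⟩)| ≤ 1 / 24 := by
      rw [← Real.norm_eq_abs]
      exact (norm_le_pi_norm (v' x - u x) _).trans (hvu x hx)
    rw [abs_le] at h5
    refine ⟨?_, ?_, ?_⟩
    · rw [Pi.add_apply, h4, h3, mul_add, mul_div_cancel₀ _ hp.ne']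
      linarith
    · rw [abs_le]
      constructor <;> linarith [h5.1, h5.2, h1.1, h1.2]
    · have h3 := Int.le_ceil ((m:ℝ) * g x i)
      have h4 : (⌊(m:ℝ) * g x i⌋ : ℝ) < (⌈(m:ℝ) * g x i⌉ : ℝ) := by linarith [h1.1]
      have h5 : ⌊(m:ℝ) * g x i⌋ < ⌈(m:ℝ) * g x i⌉ := by exact_mod_cast h4
      have h6 : ⌊(m:ℝ) * g x i⌋ + 1 ≤ ⌈(m:ℝ) * g x i⌉ := h5
      exact_mod_cast h6
  obtain ⟨g₁, hg₁⟩ : ∃ g₁ : α → Fin N → ℝ, g₁ = fun x => if x ∈ A then g x + d x else g x :=
    ⟨_, rfl⟩
  have hg₁A : ∀ x ∈ A, g₁ x = g x + d x := fun x hx => by rw [hg₁]; simp [hx]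
  have hg₁n : ∀ x, x ∉ A → g₁ x = g x := fun x hx => by rw [hg₁]; simp [hx]
  have cg₁ : ContinuousOn g₁ P := by
    have h1 : ContinuousOn g₁ A := ((hg.mono hAP).add cd).congr fun x hx => hg₁A x hx
    have h2 : ContinuousOn g₁ B := by
      refine (hg.mono (fun x hx => ((hB' x).1 hx).1)).congr fun x hx => ?_
      by_cases hxA : x ∈ A
      · rw [hg₁A x hxA, hAB0 x hxA ((hB' x).1 hx).2, add_zero]
      · exact hg₁n x hxA
    rw [hAB]
    exact h1.union_of_isClosed h2 clA clB
  have hmem : ∀ x ∈ P, g₁ x ∈ cube m (car m (g x)) := by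
    intro x hx
    by_cases hxA : x ∈ A
    · intro i
      have e1 : car m (g x) i / 2 = ⌊(m:ℝ) * g x i⌋ := (floor_ceil _).1
      have e2 : (car m (g x) i + 1) / 2 = ⌈(m:ℝ) * g x i⌉ := (floor_ceil _).2
      rw [e1, e2, hg₁A x hxA]
      by_cases hi : i ∈ S
      · obtain ⟨h1, h2, h3⟩ := hval x hxA i hi
        rw [abs_le] at h2
        rw [h1]
        constructor <;> linarith [h2.1, h2.2]
      · have : (g x + d x) i = g x i := by simp [hd, hi]
        rw [this]
        exact ⟨Int.floor_le _, Int.le_ceil _⟩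
    · rw [hg₁n x hxA]
      exact mem_cube_car m _
  have hpos : ∀ x ∈ P, 0 < nrm m S (g₁ x) := by
    intro x hx
    by_cases hxA : x ∈ A
    · rw [hg₁A x hxA]
      obtain ⟨j, hj⟩ : ∃ j, v' x j ≠ 0 := by
        by_contra hcon
        push Not at hcon
        exact hne x hxA (funext hcon)
      have hi := (e.symm j).2
      obtain ⟨h1, h2, _⟩ := hval x hxA (e.symm j) hi
      have h4 : v' x (e ⟨(e.symm j : Fin N), hi⟩) = v' x j := by
        congr 1
        exact e.apply_symm_apply j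
      rw [h4] at h1 h2
      have h2' := abs_le.1 h2
      have h5 : ⌊(m:ℝ) * (g x + d x) (e.symm j)⌋ = ⌊(m:ℝ) * g x (e.symm j)⌋ := by
        rw [Int.floor_eq_iff, h1]
        constructor <;> linarith [h2'.1, h2'.2]
      refine lt_of_lt_of_le ?_ (tw_le_nrm hi)
      unfold tw
      rw [Int.fract, h5, h1, abs_pos]
      intro hc
      apply hj
      linarith
    · rw [hg₁n x hxA]
      have : x ∈ B := by
        have := hx
        rw [hAB] at this
        exact this.resolve_left hxA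
      obtain ⟨i, hi, h6⟩ := ((hB' x).1 this).2
      exact lt_of_lt_of_le (by linarith) (tw_le_nrm hi)
  refine ⟨fun x => rad m S (g₁ x), ?_, ?_, ?_, ?_⟩
  · intro x hx
    exact ContinuousAt.comp_continuousWithinAt (f := g₁) (continuousAt_rad (hpos x hx)) (cg₁ x hx)
  · intro x hx
    exact cube_subset (mem_cube_iff.1 (hmem x hx)) (rad_mem hm (hpos x hx))
  · intro x hx
    exact rad_even hm (hpos x hx)
  · rintro x hx ⟨i, hi, hev⟩
    have hxA : x ∉ A := by
      intro hxA
      have h1 := ((hA' x).1 hxA).2 i hi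
      rw [tw_eq_half_of (even_car_iff.1 hev)] at h1
      norm_num at h1
    show rad m S (g₁ x) = g x
    rw [hg₁n x hxA]
    exact rad_eq_self ⟨i, hi, hev⟩

end MG.GPush

namespace MG

open GPush

variable {α : Type*} [MetricSpace α]

lemma dm_le_iff {N k : ℕ} {w : Fin N → ℤ} :
    dm w ≤ k ↔ ∀ S : Finset (Fin N), S.card = k + 1 → ∃ i ∈ S, Even (w i) := by
  classical
  constructor
  · intro h S hS
    by_contra hcon
    push Not at hcon
    have hsub : S ⊆ Finset.univ.filter fun i => Odd (w i) := by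
      intro i hi
      have := hcon i hi
      rw [Int.not_even_iff_odd] at this
      simp [this]
    have := Finset.card_le_card hsub
    unfold dm at h
    omega
  · intro h
    by_contra hcon
    push Not at hcon
    have h' : k + 1 ≤ (Finset.univ.filter fun i => Odd (w i)).card := hcon
    obtain ⟨S, hS, hc⟩ := Finset.exists_subset_card_eq h'
    obtain ⟨i, hi, hb⟩ := h S hc
    have := hS hi
    simp only [Finset.mem_filter, Finset.mem_univ, true_and] at this
    rw [← Int.not_even_iff_odd] at this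
    exact this hb

/-- **Pushing into the `k`-skeleton of a grid**, inside the cubes; the points that are already in the
`k`-skeleton do not move. -/
theorem grid_push {k N m : ℕ} (hm : 0 < m) {P : Set α} (cP : IsCompact P) (hP : PushOff k P)
    {g : α → Fin N → ℝ} (hg : ContinuousOn g P) :
    ∃ g' : α → Fin N → ℝ, ContinuousOn g' P ∧ (∀ x ∈ P, g' x ∈ cube m (car m (g x))) ∧
      (∀ x ∈ P, dm (car m (g' x)) ≤ k) ∧ (∀ x ∈ P, dm (car m (g x)) ≤ k → g' x = g x) := by
  classical
  have key : ∀ F : Finset (Finset (Fin N)), (∀ S ∈ F, S.card = k + 1) →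
      ∃ g' : α → Fin N → ℝ, ContinuousOn g' P ∧ (∀ x ∈ P, g' x ∈ cube m (car m (g x))) ∧
      (∀ x ∈ P, ∀ S ∈ F, ∃ i ∈ S, Even (car m (g' x) i)) ∧
      (∀ x ∈ P, dm (car m (g x)) ≤ k → g' x = g x) := by
    intro F
    induction F using Finset.induction_on with
    | empty =>
      intro _
      exact ⟨g, hg, fun x _ => mem_cube_car m _, by simp, fun x _ _ => rfl⟩
    | insert S F hSF ih =>
      intro hc
      obtain ⟨g₁, c₁, s₁, n₁, e₁⟩ := ih fun S' hS' => hc S' (Finset.mem_insert_of_mem hS')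
      obtain ⟨g₂, c₂, s₂, n₂, e₂⟩ :=
        gpush_one hm cP hP S (hc S (Finset.mem_insert_self _ _)) c₁
      refine ⟨g₂, c₂, fun x hx => cube_subset (mem_cube_iff.1 (s₁ x hx)) (s₂ x hx), ?_, ?_⟩
      · intro x hx S' hS'
        rcases Finset.mem_insert.mp hS' with rfl | hS'
        · exact n₂ x hx
        · obtain ⟨i, hi, h⟩ := n₁ x hx S' hS'
          refine ⟨i, hi, ?_⟩
          rw [← Int.not_odd_iff_even] at h ⊢
          exact fun hb => h ((mem_cube_iff.1 (s₂ x hx)).odd hb)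
      · intro x hx hn
        have h1 := e₁ x hx hn
        rw [e₂ x hx ?_, h1]
        rw [h1]
        exact dm_le_iff.1 hn S (hc S (Finset.mem_insert_self _ _))
  obtain ⟨g', c, s, n, e⟩ := key (Finset.powersetCard (k + 1) Finset.univ) (by
    intro S hS
    exact (Finset.mem_powersetCard.mp hS).2)
  refine ⟨g', c, s, ?_, e⟩
  intro x hx
  rw [dm_le_iff]
  intro S hS
  exact n x hx S (Finset.mem_powersetCard.mpr ⟨Finset.subset_univ _, hS⟩)

end MG
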