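import Pool.Agent.Work.MP_017613_gt.Kit.Radial

/-!
# MENGER toolkit: products with the interval, homotopy extension with control

* `Fam.prodI`: `V × I` is obtained from `K × I` by attaching copies of `(B × I, A × I)`.
* `Fam.hep`, `Layer.hep`, `TP.hep`: controlled homotopy extension.
* `Fam.push_layer`: a layer of the model pair gives a layer of the attached space.
* `Layer.prod`, `TP.prod`: the test pair `(P × I, P × {0,1} ∪ P0 × I)`.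
-/

open Set Metric Topology

namespace MG

section

variable {ε α ι Y γ : Type*} [TopologicalSpace ε] [TopologicalSpace α] [TopologicalSpace Y]
  [MetricSpace γ] {B A : Set ε} {K V : Set α} {χ : ι → ε → α}

/-- product of an attached space with any set `J` -/
theorem Fam.prodSet {η : Type*} [TopologicalSpace η] (h : Fam B A K V χ) (J : Set η) :
    Fam (B ×ˢ J) (A ×ˢ J) (K ×ˢ J) (V ×ˢ J) (fun i (p : ε × η) => (χ i p.1, p.2)) where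
  cont := fun i => ((h.cont i).comp continuousOn_fst fun p hp => hp.1).prodMk continuousOn_snd
  bdry := fun i p hp => ⟨h.bdry i hp.1, hp.2⟩
  off := fun i p hp hpA hK => h.off i p.1 hp.1 (fun hA => hpA ⟨hA, hp.2⟩) hK.1
  inj := by
    intro i i' p p' hp hpA hp' hpA' heq
    obtain ⟨h1, h2⟩ := Prod.mk.inj heq
    obtain ⟨h3, h4⟩ := h.inj _ _ _ _ hp.1 (fun hA => hpA ⟨hA, hp.2⟩) hp'.1
      (fun hA => hpA' ⟨hA, hp'.2⟩) h1
    exact ⟨h3, Prod.ext h4 h2⟩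
  union := by
    rw [h.union]
    ext ⟨y, t⟩
    simp only [mem_prod, mem_union, mem_iUnion, mem_image, Prod.mk.injEq, Prod.exists]
    constructor
    · rintro ⟨hy | ⟨i, x, hx, rfl⟩, ht⟩
      · exact Or.inl ⟨hy, ht⟩
      · exact Or.inr ⟨i, x, t, ⟨hx, ht⟩, rfl, rfl⟩
    · rintro (⟨hy, ht⟩ | ⟨i, x, s, ⟨hx, hs⟩, rfl, rfl⟩)
      · exact ⟨Or.inl hy, ht⟩
      · exact ⟨Or.inr ⟨i, x, hx, rfl⟩, hs⟩

/-- controlled homotopy extension over a layer -/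
theorem Layer.hep [T2Space α] {d : ℕ} (hl : Layer d K V) (hK : IsClosed K) {T : Set Y}
    {f : α → Y} {H : α × ℝ → Y} (hf : IsMap f V T) (hH : IsMap H (K ×ˢ Icc (0:ℝ) 1) T)
    (h0 : ∀ x ∈ K, H (x, 0) = f x) {c : Y → γ} (hc : ContinuousOn c T) {ρ : ℝ} (hρ : 0 < ρ)
    (htr : ∀ x ∈ K, ∀ t ∈ Icc (0:ℝ) 1, dist (c (H (x, t))) (c (f x)) < ρ) :
    ∃ H' : α × ℝ → Y, IsMap H' (V ×ˢ Icc (0:ℝ) 1) T ∧
      (∀ x ∈ K, ∀ t ∈ Icc (0:ℝ) 1, H' (x, t) = H (x, t)) ∧ (∀ x ∈ V, H' (x, 0) = f x) ∧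
      ∀ x ∈ V, ∀ t ∈ Icc (0:ℝ) 1, dist (c (H' (x, t))) (c (f x)) < ρ := by
  obtain ⟨m, χ, h⟩ := hl
  have step : ∀ i, ∃ G : (Fin d → ℝ) × ℝ → Y, IsMap G (Cu d ×ˢ Icc (0:ℝ) 1) T ∧
      (∀ x ∈ dCu d, ∀ t ∈ Icc (0:ℝ) 1, G (x, t) = H (χ i x, t)) ∧
      (∀ x ∈ Cu d, G (x, 0) = f (χ i x)) ∧
      ∀ x ∈ Cu d, ∀ t ∈ Icc (0:ℝ) 1, dist (c (G (x, t))) (c (f (χ i x))) < ρ := by
    intro i
    have h1 : IsMap (fun p : (Fin d → ℝ) × ℝ => H (χ i p.1, p.2)) (dCu d ×ˢ Icc (0:ℝ) 1) T := by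
      refine ⟨hH.cont.comp ?_ fun p hp => ⟨h.bdry i hp.1, hp.2⟩,
        fun p hp => hH.maps ⟨h.bdry i hp.1, hp.2⟩⟩
      exact ((h.cont i).comp continuousOn_fst fun p hp => dCu_subset d hp.1).prodMk
        continuousOn_snd
    exact cell_hep (hf.comp (h.isMap i)) h1 (fun x hx => h0 _ (h.bdry i hx)) hc hρ
      (fun x hx t ht => htr _ (h.bdry i hx) t ht)
  choose G hG1 hG2 hG3 hG4 using step
  obtain ⟨F, hF1, hF2, hF3⟩ := (h.prodSet (Icc (0:ℝ) 1)).glueMap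
    ((isCompact_Cu d).prod isCompact_Icc) (hK.prod isClosed_Icc) hH hG1
    (fun i p hp => hG2 i p.1 hp.1 p.2 hp.2)
  refine ⟨F, hF1, fun x hx t ht => hF2 ⟨hx, ht⟩, ?_, ?_⟩
  · intro x hx
    by_cases hxK : x ∈ K
    · rw [hF2 (⟨hxK, le_rfl, zero_le_one⟩ : (x, (0:ℝ)) ∈ K ×ˢ Icc (0:ℝ) 1), h0 x hxK]
    · obtain ⟨i, z, hz, -, rfl⟩ := h.exists_rep hx hxK
      have := hF3 i (z, 0) ⟨hz, le_rfl, zero_le_one⟩
      simp only at this
      rw [this, hG3 i z hz]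
  · intro x hx t ht
    by_cases hxK : x ∈ K
    · rw [hF2 (⟨hxK, ht⟩ : (x, t) ∈ K ×ˢ Icc (0:ℝ) 1)]
      exact htr x hxK t ht
    · obtain ⟨i, z, hz, -, rfl⟩ := h.exists_rep hx hxK
      have := hF3 i (z, t) ⟨hz, ht⟩
      simp only at this
      rw [this]
      exact hG4 i z hz t ht

/-- controlled homotopy extension over a test pair -/
theorem TP.hep [T2Space α] {k : ℕ} {P0 P : Set α} (h : TP k P0 P) {T : Set Y}
    {f : α → Y} {H : α × ℝ → Y} (hf : IsMap f P T) (hH : IsMap H (P0 ×ˢ Icc (0:ℝ) 1) T)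
    (h0 : ∀ x ∈ P0, H (x, 0) = f x) {c : Y → γ} (hc : ContinuousOn c T) {ρ : ℝ} (hρ : 0 < ρ)
    (htr : ∀ x ∈ P0, ∀ t ∈ Icc (0:ℝ) 1, dist (c (H (x, t))) (c (f x)) < ρ) :
    ∃ H' : α × ℝ → Y, IsMap H' (P ×ˢ Icc (0:ℝ) 1) T ∧
      (∀ x ∈ P0, ∀ t ∈ Icc (0:ℝ) 1, H' (x, t) = H (x, t)) ∧ (∀ x ∈ P, H' (x, 0) = f x) ∧
      ∀ x ∈ P, ∀ t ∈ Icc (0:ℝ) 1, dist (c (H' (x, t))) (c (f x)) < ρ := by
  obtain ⟨hcp, S, hS0, hS1, hS⟩ := h
  have hsm := TP.skel_mono hS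
  have hcomp := TP.skel_compact (by rw [hS0]; exact hcp) hS
  have key : ∀ d ≤ k + 1, ∃ H' : α × ℝ → Y, IsMap H' (S d ×ˢ Icc (0:ℝ) 1) T ∧
      (∀ x ∈ P0, ∀ t ∈ Icc (0:ℝ) 1, H' (x, t) = H (x, t)) ∧ (∀ x ∈ S d, H' (x, 0) = f x) ∧
      ∀ x ∈ S d, ∀ t ∈ Icc (0:ℝ) 1, dist (c (H' (x, t))) (c (f x)) < ρ := by
    intro d
    induction d with
    | zero =>
      intro _
      rw [hS0]
      exact ⟨H, hH, fun _ _ _ _ => rfl, h0, htr⟩
    | succ d ih =>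
      intro hd
      obtain ⟨H1, h1, h2, h3, h4⟩ := ih (by omega)
      have hsub : S (d + 1) ⊆ P := by rw [← hS1]; exact hsm (k + 1) le_rfl _ hd
      obtain ⟨H2, g1, g2, g3, g4⟩ := (hS d (by omega)).hep (hcomp d (by omega)).isClosed
        (hf.left hsub) h1 h3 hc hρ h4
      refine ⟨H2, g1, fun x hx t ht => ?_, g3, g4⟩
      rw [g2 x (hsm d (by omega) 0 (Nat.zero_le _) (by rw [hS0]; exact hx)) t ht, h2 x hx t ht]
  obtain ⟨H', h1, h2, h3, h4⟩ := key (k + 1) le_rfl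
  rw [hS1] at h1 h3 h4
  exact ⟨H', h1, h2, h3, h4⟩

/-- a layer of the model pair gives a layer of the attached space -/
theorem Fam.push_layer [Finite ι] {A' B' : Set ε}
    (h : Fam B A K V χ) {d : ℕ} (hl : Layer d A' B') (hA : A ⊆ A') (hB : B' ⊆ B) :
    Layer d (K ∪ ⋃ i, χ i '' A') (K ∪ ⋃ i, χ i '' B') := by
  obtain ⟨m, θ, hθ⟩ := hl
  have hoff : ∀ i, ∀ x ∈ B', x ∉ A' → χ i x ∉ K ∪ ⋃ i, χ i '' A' := by
    rintro i x hx hxA (hK | hU)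
    · exact h.off i x (hB hx) (fun hA' => hxA (hA hA')) hK
    · obtain ⟨i', z, hz, heq⟩ := mem_iUnion.1 hU
      by_cases hzA : z ∈ A
      · exact h.off i x (hB hx) (fun hA' => hxA (hA hA')) (heq ▸ h.bdry i' hzA)
      · obtain ⟨h1, h2⟩ := h.inj i' i z x (hB (hθ.subset hz)) hzA (hB hx)
          (fun hA' => hxA (hA hA')) heq
        exact hxA (h2 ▸ hz)
  refine Layer.of_fam (ι := ι × Fin m) (χ := fun p z => χ p.1 (θ p.2 z)) ⟨?_, ?_, ?_, ?_, ?_⟩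
  · intro p
    exact (h.cont p.1).comp (hθ.cont p.2) fun z hz => hB (hθ.maps p.2 hz)
  · intro p z hz
    exact Or.inr (mem_iUnion.2 ⟨p.1, _, hθ.bdry p.2 hz, rfl⟩)
  · intro p z hz hzA
    exact hoff p.1 _ (hθ.maps p.2 hz) (hθ.off p.2 z hz hzA)
  · intro p p' z z' hz hzA hz' hzA' heq
    have h1 := hθ.off p.2 z hz hzA
    have h2 := hθ.off p'.2 z' hz' hzA'
    obtain ⟨h3, h4⟩ := h.inj _ _ _ _ (hB (hθ.maps p.2 hz)) (fun hA' => h1 (hA hA'))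
      (hB (hθ.maps p'.2 hz')) (fun hA' => h2 (hA hA')) heq
    obtain ⟨h5, h6⟩ := hθ.inj _ _ _ _ hz hzA hz' hzA' h4
    exact ⟨Prod.ext h3 h5, h6⟩
  · ext y
    constructor
    · rintro (hK | hU)
      · exact Or.inl (Or.inl hK)
      · obtain ⟨i, x, hx, rfl⟩ := mem_iUnion.1 hU
        rw [hθ.union] at hx
        rcases hx with hx | hx
        · exact Or.inl (Or.inr (mem_iUnion.2 ⟨i, x, hx, rfl⟩))
        · obtain ⟨l, z, hz, rfl⟩ := mem_iUnion.1 hx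
          exact Or.inr (mem_iUnion.2 ⟨(i, l), z, hz, rfl⟩)
    · rintro ((hK | hU) | hU)
      · exact Or.inl hK
      · obtain ⟨i, x, hx, rfl⟩ := mem_iUnion.1 hU
        exact Or.inr (mem_iUnion.2 ⟨i, x, hθ.subset hx, rfl⟩)
      · obtain ⟨p, z, hz, rfl⟩ := mem_iUnion.1 hU
        exact Or.inr (mem_iUnion.2 ⟨p.1, _, hθ.maps p.2 hz, rfl⟩)

end

/-! ## The cube as a product with the interval -/

/-- `I^(d+1) → I^d × I` -/
def cuSplit {d : ℕ} (x : Fin (d + 1) → ℝ) : (Fin d → ℝ) × ℝ := (fun i => x i.succ, x 0)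

lemma continuous_cuSplit {d : ℕ} : Continuous (cuSplit (d := d)) := by
  unfold cuSplit; fun_prop

lemma cuSplit_cons {d : ℕ} (x : Fin d → ℝ) (t : ℝ) :
    cuSplit (Fin.cons t x : Fin (d + 1) → ℝ) = (x, t) := rfl

lemma cuSplit_inj {d : ℕ} {x y : Fin (d + 1) → ℝ} (h : cuSplit x = cuSplit y) : x = y := by
  have h1 : (fun i : Fin d => x i.succ) = fun i => y i.succ := congrArg Prod.fst h
  have h2 : x 0 = y 0 := congrArg Prod.snd h
  funext i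
  refine Fin.cases h2 (fun i => congrFun h1 i) i

lemma mem_Cu_succ {d : ℕ} {x : Fin (d + 1) → ℝ} :
    x ∈ Cu (d + 1) ↔ cuSplit x ∈ Cu d ×ˢ Icc (0:ℝ) 1 := by
  rw [mem_Cu, mem_prod, mem_Cu]
  constructor
  · intro h
    exact ⟨fun i => h i.succ, h 0⟩
  · rintro ⟨h1, h2⟩ i
    refine Fin.cases h2 (fun i => h1 i) i

lemma mem_dCu_succ {d : ℕ} {x : Fin (d + 1) → ℝ} :
    x ∈ dCu (d + 1) ↔ cuSplit x ∈ Cu d ×ˢ ({0, 1} : Set ℝ) ∪ dCu d ×ˢ Icc (0:ℝ) 1 := by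
  constructor
  · rintro ⟨hx, i, hi⟩
    have hx' := mem_Cu_succ.1 hx
    revert hi
    refine Fin.cases ?_ (fun i => ?_) i
    · intro hi
      left
      refine ⟨hx'.1, ?_⟩
      simpa [cuSplit] using hi
    · intro hi
      right
      exact ⟨⟨hx'.1, i, hi⟩, hx'.2⟩
  · rintro (h | h)
    · have h2 : x 0 = 0 ∨ x 0 = 1 := by simpa [cuSplit] using h.2
      refine ⟨mem_Cu_succ.2 ⟨h.1, ?_⟩, 0, h2⟩
      rcases h2 with h2 | h2
      · exact ⟨h2.ge, by rw [show (cuSplit x).2 = x 0 from rfl, h2]; exact zero_le_one⟩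
      · exact ⟨by rw [show (cuSplit x).2 = x 0 from rfl, h2]; exact zero_le_one, h2.le⟩
    · obtain ⟨⟨h1, i, hi⟩, h2⟩ := h
      exact ⟨mem_Cu_succ.2 ⟨h1, h2⟩, i.succ, hi⟩

section

variable {α : Type*} [TopologicalSpace α] {K V P : Set α}

/-- product of a layer with the interval, inside `P × I` -/
theorem Layer.prod {d : ℕ} (h : Layer d K V) (hVP : V ⊆ P) :
    Layer (d + 1) (P ×ˢ ({0, 1} : Set ℝ) ∪ K ×ˢ Icc (0:ℝ) 1)
      (P ×ˢ ({0, 1} : Set ℝ) ∪ V ×ˢ Icc (0:ℝ) 1) := by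
  obtain ⟨m, χ, h⟩ := h
  refine ⟨m, fun i x => (χ i (cuSplit x).1, (cuSplit x).2), ⟨?_, ?_, ?_, ?_, ?_⟩⟩
  · intro i
    refine ContinuousOn.prodMk ?_ (continuous_snd.comp continuous_cuSplit).continuousOn
    exact (h.cont i).comp (continuous_fst.comp continuous_cuSplit).continuousOn
      fun x hx => (mem_Cu_succ.1 hx).1
  · intro i x hx
    rcases mem_dCu_succ.1 hx with hx | hx
    · exact Or.inl ⟨hVP (h.maps i hx.1), hx.2⟩
    · exact Or.inr ⟨h.bdry i hx.1, hx.2⟩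
  · intro i x hx hxd hmem
    have hx' := mem_Cu_succ.1 hx
    rcases hmem with hm | hm
    · exact hxd (mem_dCu_succ.2 (Or.inl ⟨hx'.1, hm.2⟩))
    · refine h.off i _ hx'.1 (fun hd => hxd (mem_dCu_succ.2 (Or.inr ⟨hd, hx'.2⟩))) hm.1
  · intro i i' x x' hx hxd hx' hxd' heq
    have h1 := mem_Cu_succ.1 hx
    have h2 := mem_Cu_succ.1 hx'
    obtain ⟨e1, e2⟩ := Prod.mk.inj heq
    obtain ⟨h3, h4⟩ := h.inj i i' _ _ h1.1
      (fun hd => hxd (mem_dCu_succ.2 (Or.inr ⟨hd, h1.2⟩))) h2.1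
      (fun hd => hxd' (mem_dCu_succ.2 (Or.inr ⟨hd, h2.2⟩))) e1
    exact ⟨h3, cuSplit_inj (Prod.ext h4 e2)⟩
  · ext ⟨y, t⟩
    constructor
    · rintro (hy | ⟨hy, ht⟩)
      · exact Or.inl (Or.inl hy)
      · by_cases hyK : y ∈ K
        · exact Or.inl (Or.inr ⟨hyK, ht⟩)
        · obtain ⟨i, x, hx, -, rfl⟩ := h.exists_rep hy hyK
          refine Or.inr (mem_iUnion.2 ⟨i, Fin.cons t x, ?_, rfl⟩)
          rw [mem_Cu_succ, cuSplit_cons]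
          exact ⟨hx, ht⟩
    · rintro ((hy | hy) | hy)
      · exact Or.inl hy
      · exact Or.inr ⟨h.subset hy.1, hy.2⟩
      · obtain ⟨i, x, hx, heq⟩ := mem_iUnion.1 hy
        have hx' := mem_Cu_succ.1 hx
        rw [← heq]
        exact Or.inr ⟨h.maps i hx'.1, hx'.2⟩

/-- product of a test pair with the interval -/
theorem TP.prod {k : ℕ} {P0 : Set α} (h : TP k P0 P) :
    TP (k + 1) (P ×ˢ ({0, 1} : Set ℝ) ∪ P0 ×ˢ Icc (0:ℝ) 1) (P ×ˢ Icc (0:ℝ) 1) := by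
  have hP := h.isCompact
  obtain ⟨hcp, S, hS0, hS1, hS⟩ := h
  have hsm := TP.skel_mono hS
  refine ⟨?_, fun d => P ×ˢ ({0, 1} : Set ℝ) ∪ S (d - 1) ×ˢ Icc (0:ℝ) 1, ?_, ?_, ?_⟩
  · exact (hP.prod (Set.toFinite _).isCompact).union (hcp.prod isCompact_Icc)
  · simp [hS0]
  · simp only [Nat.add_sub_cancel, hS1]
    refine union_eq_right.2 (prod_mono le_rfl ?_)
    rintro t (rfl | rfl)
    · exact ⟨le_rfl, zero_le_one⟩
    · exact ⟨zero_le_one, le_rfl⟩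
  · intro d hd
    rcases Nat.eq_zero_or_pos d with rfl | hd0
    · exact Layer.refl _ _
    · obtain ⟨e, rfl⟩ : ∃ e, d = e + 1 := ⟨d - 1, by omega⟩
      simp only [Nat.add_sub_cancel]
      refine (hS e (by omega)).prod ?_
      rw [← hS1]
      exact hsm (k + 1) le_rfl _ (by omega)

end

end MG
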