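import Pool.Agent.Work.MP_017613_gt.Kit.Defs

/-!
# MENGER toolkit: gluing over attached cells

* `Fam.glue`: a map on `K` and maps on the model pairs which agree on the attaching parts define a
  map on `V`.
* `Layer.extend`, `TP.extend`: extension over a layer, over a test pair, cell by cell, with a
  pointwise relation `R x (F x)`.
-/

open Set Metric Topology

namespace MG

section

variable {ε α ι Y : Type*} [TopologicalSpace ε] [TopologicalSpace α] [TopologicalSpace Y]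

/-- continuity on the image of a compact set can be checked upstairs -/
theorem continuousOn_image_of_compact [T2Space ε] [T2Space α] {B : Set ε} (hB : IsCompact B)
    {χ : ε → α} (hχ : ContinuousOn χ B) {F : α → Y} (hF : ContinuousOn (fun x => F (χ x)) B) :
    ContinuousOn F (χ '' B) := by
  rw [continuousOn_iff_isClosed]
  intro t ht
  refine ⟨χ '' (B ∩ (fun x => F (χ x)) ⁻¹' t), ?_, ?_⟩
  · have h1 : IsClosed (B ∩ (fun x => F (χ x)) ⁻¹' t) :=
      hF.preimage_isClosed_of_isClosed hB.isClosed ht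
    have h2 : IsCompact (B ∩ (fun x => F (χ x)) ⁻¹' t) :=
      hB.of_isClosed_subset h1 inter_subset_left
    exact (h2.image_of_continuousOn (hχ.mono inter_subset_left)).isClosed
  · ext y
    constructor
    · rintro ⟨hy, x, hx, rfl⟩
      exact ⟨⟨x, ⟨hx, hy⟩, rfl⟩, ⟨x, hx, rfl⟩⟩
    · rintro ⟨⟨x, ⟨hx, hx'⟩, rfl⟩, hy⟩
      exact ⟨hx', hy⟩

/-- continuity on a finite union of closed sets -/
theorem continuousOn_iUnion_of_isClosed [Finite ι] {s : ι → Set α} {F : α → Y}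
    (hs : ∀ i, IsClosed (s i)) (hF : ∀ i, ContinuousOn F (s i)) :
    ContinuousOn F (⋃ i, s i) :=
  (locallyFinite_of_finite s).continuousOn_iUnion hs hF

variable {B A : Set ε} {K V : Set α} {χ : ι → ε → α}

theorem Fam.subset (h : Fam B A K V χ) : K ⊆ V := by
  rw [h.union]; exact subset_union_left

theorem Fam.maps (h : Fam B A K V χ) (i : ι) : MapsTo (χ i) B V := by
  intro x hx
  rw [h.union]
  exact Or.inr (mem_iUnion.2 ⟨i, x, hx, rfl⟩)

theorem Fam.isMap (h : Fam B A K V χ) (i : ι) : IsMap (χ i) B V := ⟨h.cont i, h.maps i⟩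

theorem Fam.isClosed_image [T2Space α] (h : Fam B A K V χ) (hB : IsCompact B) (i : ι) :
    IsClosed (χ i '' B) := (hB.image_of_continuousOn (h.cont i)).isClosed

theorem Fam.isClosed [Finite ι] [T2Space α] (h : Fam B A K V χ) (hB : IsCompact B)
    (hK : IsClosed K) : IsClosed V := by
  rw [h.union]
  exact hK.union (isClosed_iUnion_of_finite fun i => h.isClosed_image hB i)

theorem Fam.isCompact [Finite ι] (h : Fam B A K V χ) (hB : IsCompact B)
    (hK : IsCompact K) : IsCompact V := by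
  rw [h.union]
  exact hK.union (isCompact_iUnion fun i => hB.image_of_continuousOn (h.cont i))

/-- a point of `V` outside `K` comes from a unique interior point of a model -/
theorem Fam.exists_rep (h : Fam B A K V χ) {y : α} (hy : y ∈ V) (hyK : y ∉ K) :
    ∃ i, ∃ x ∈ B, x ∉ A ∧ χ i x = y := by
  rw [h.union] at hy
  rcases hy with hy | hy
  · exact absurd hy hyK
  · obtain ⟨i, x, hx, rfl⟩ := mem_iUnion.1 hy
    exact ⟨i, x, hx, fun hxA => hyK (h.bdry i hxA), rfl⟩

/-- GLUING: a map on `K` and maps on the models, equal on the attaching parts, give a map on `V` -/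
theorem Fam.glue [Finite ι] [T2Space ε] [T2Space α] (h : Fam B A K V χ) (hB : IsCompact B)
    (hK : IsClosed K) {F0 : α → Y} (hF0 : ContinuousOn F0 K) {G : ι → ε → Y}
    (hG : ∀ i, ContinuousOn (G i) B) (hGF : ∀ i, ∀ x ∈ A, G i x = F0 (χ i x)) :
    ∃ F : α → Y, ContinuousOn F V ∧ EqOn F F0 K ∧ ∀ i, ∀ x ∈ B, F (χ i x) = G i x := by
  classical
  let F : α → Y := fun y => if hy : ∃ p : ι × ε, p.2 ∈ B ∧ p.2 ∉ A ∧ χ p.1 p.2 = y then
    G hy.choose.1 hy.choose.2 else F0 y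
  have hFK : EqOn F F0 K := by
    intro y hy
    have : ¬ ∃ p : ι × ε, p.2 ∈ B ∧ p.2 ∉ A ∧ χ p.1 p.2 = y := by
      rintro ⟨p, hp, hpA, rfl⟩
      exact h.off p.1 p.2 hp hpA hy
    simp only [F, dif_neg this]
  have hFG : ∀ i, ∀ x ∈ B, F (χ i x) = G i x := by
    intro i x hx
    by_cases hxA : x ∈ A
    · rw [hFK (h.bdry i hxA), hGF i x hxA]
    · have hy : ∃ p : ι × ε, p.2 ∈ B ∧ p.2 ∉ A ∧ χ p.1 p.2 = χ i x := ⟨(i, x), hx, hxA, rfl⟩
      have hc := hy.choose_spec
      obtain ⟨h1, h2⟩ := h.inj _ _ _ _ hc.1 hc.2.1 hx hxA hc.2.2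
      simp only [F, dif_pos hy]
      rw [h1, h2]
  refine ⟨F, ?_, hFK, hFG⟩
  rw [h.union]
  refine (hF0.congr hFK).union_of_isClosed ?_ hK
    (isClosed_iUnion_of_finite fun i => h.isClosed_image hB i)
  refine continuousOn_iUnion_of_isClosed (fun i => h.isClosed_image hB i) fun i => ?_
  exact continuousOn_image_of_compact hB (h.cont i) ((hG i).congr fun x hx => hFG i x hx)

/-- gluing, for maps into a set -/
theorem Fam.glueMap [Finite ι] [T2Space ε] [T2Space α] (h : Fam B A K V χ) (hB : IsCompact B)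
    (hK : IsClosed K) {T : Set Y} {F0 : α → Y} (hF0 : IsMap F0 K T) {G : ι → ε → Y}
    (hG : ∀ i, IsMap (G i) B T) (hGF : ∀ i, ∀ x ∈ A, G i x = F0 (χ i x)) :
    ∃ F : α → Y, IsMap F V T ∧ EqOn F F0 K ∧ ∀ i, ∀ x ∈ B, F (χ i x) = G i x := by
  obtain ⟨F, h1, h2, h3⟩ := h.glue hB hK hF0.cont (fun i => (hG i).cont) hGF
  refine ⟨F, ⟨h1, ?_⟩, h2, h3⟩
  intro y hy
  by_cases hyK : y ∈ K
  · rw [h2 hyK]; exact hF0.maps hyK
  · obtain ⟨i, x, hx, -, rfl⟩ := h.exists_rep hy hyK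
    rw [h3 i x hx]; exact (hG i).maps hx

/-- a family indexed by any finite type gives a layer -/
theorem Layer.of_fam [Finite ι] {d : ℕ} {χ : ι → (Fin d → ℝ) → α}
    (h : Fam (Cu d) (dCu d) K V χ) : Layer d K V := by
  obtain ⟨m, ⟨e⟩⟩ := Finite.exists_equiv_fin ι
  refine ⟨m, fun i => χ (e.symm i), fun i => h.cont _, fun i => h.bdry _, fun i => h.off _, ?_, ?_⟩
  · intro i i' x x' hx hxA hx' hx'A heq
    obtain ⟨h1, h2⟩ := h.inj _ _ _ _ hx hxA hx' hx'A heq
    exact ⟨e.symm.injective h1, h2⟩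
  · rw [h.union]
    congr 1
    exact (e.symm.surjective.iUnion_comp (fun i => χ i '' Cu d)).symm

theorem Layer.subset {d : ℕ} (h : Layer d K V) : K ⊆ V := by
  obtain ⟨m, χ, h⟩ := h
  exact h.subset

theorem Layer.isCompact {d : ℕ} (h : Layer d K V) (hK : IsCompact K) : IsCompact V := by
  obtain ⟨m, χ, h⟩ := h
  exact h.isCompact (isCompact_Cu d) hK

theorem Layer.isClosed [T2Space α] {d : ℕ} (h : Layer d K V) (hK : IsClosed K) : IsClosed V := by
  obtain ⟨m, χ, h⟩ := h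
  exact h.isClosed (isCompact_Cu d) hK

theorem Layer.refl (d : ℕ) (K : Set α) : Layer d K K :=
  ⟨0, fun i => i.elim0, fun i => i.elim0, fun i => i.elim0, fun i => i.elim0,
    fun i => i.elim0, by simp⟩

/-- extension over a layer, cell by cell -/
theorem Layer.extend [T2Space α] {d : ℕ} (h : Layer d K V) (hK : IsClosed K) {T : Set Y}
    {f0 : α → Y} (hf0 : IsMap f0 K T) (R : α → Y → Prop)
    (step : ∀ χ : (Fin d → ℝ) → α, IsMap χ (Cu d) V → MapsTo χ (dCu d) K →
      ∃ G : (Fin d → ℝ) → Y, IsMap G (Cu d) T ∧ (∀ x ∈ dCu d, G x = f0 (χ x)) ∧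
        ∀ x ∈ Cu d, R (χ x) (G x)) :
    ∃ F : α → Y, IsMap F V T ∧ EqOn F f0 K ∧ ∀ x ∈ V, x ∉ K → R x (F x) := by
  obtain ⟨m, χ, h⟩ := h
  choose! G hG1 hG2 hG3 using fun i => step (χ i) (h.isMap i) (h.bdry i)
  obtain ⟨F, h1, h2, h3⟩ := h.glueMap (isCompact_Cu d) hK hf0 hG1 hG2
  refine ⟨F, h1, h2, ?_⟩
  intro y hy hyK
  obtain ⟨i, x, hx, -, rfl⟩ := h.exists_rep hy hyK
  rw [h3 i x hx]
  exact hG3 i x hx

end

/-! ## Test pairs -/

section

variable {α Y : Type*} [TopologicalSpace α] [TopologicalSpace Y] {P0 P : Set α} {k : ℕ}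

theorem TP.isCompact0 (h : TP k P0 P) : IsCompact P0 := h.1

theorem TP.skel_compact {S : ℕ → Set α} (h0 : IsCompact (S 0))
    (hS : ∀ d ≤ k, Layer d (S d) (S (d + 1))) : ∀ d ≤ k + 1, IsCompact (S d) := by
  intro d
  induction d with
  | zero => intro _; exact h0
  | succ d ih => intro hd; exact (hS d (by omega)).isCompact (ih (by omega))

theorem TP.skel_mono {S : ℕ → Set α}
    (hS : ∀ d ≤ k, Layer d (S d) (S (d + 1))) : ∀ d ≤ k + 1, ∀ d' ≤ d, S d' ⊆ S d := by
  intro d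
  induction d with
  | zero => intro _ d' hd'; rw [Nat.le_zero.1 hd']
  | succ d ih =>
    intro hd d' hd'
    rcases Nat.lt_or_ge d' (d + 1) with h1 | h1
    · exact (ih (by omega) d' (by omega)).trans (hS d (by omega)).subset
    · rw [le_antisymm hd' h1]

theorem TP.isCompact (h : TP k P0 P) : IsCompact P := by
  obtain ⟨h0, S, rfl, rfl, hS⟩ := h
  exact TP.skel_compact h0 hS (k + 1) le_rfl

theorem TP.subset (h : TP k P0 P) : P0 ⊆ P := by
  obtain ⟨h0, S, rfl, rfl, hS⟩ := h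
  exact TP.skel_mono hS (k + 1) le_rfl 0 (Nat.zero_le _)

theorem TP.refl (k : ℕ) (h : IsCompact P) : TP k P P :=
  ⟨h, fun _ => P, rfl, rfl, fun d _ => Layer.refl d P⟩

theorem TP.succ (h : TP k P0 P) : TP (k + 1) P0 P := by
  obtain ⟨h0, S, hS0, hS1, hS⟩ := h
  refine ⟨h0, fun d => if d ≤ k + 1 then S d else P, by simp [hS0], by simp, fun d hd => ?_⟩
  rcases Nat.lt_or_ge k d with hdk | hdk
  · have : d = k + 1 := by omega
    subst this
    simp only [le_refl, if_true, hS1]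
    rw [if_neg (by omega)]
    exact Layer.refl _ _
  · simp only [show d ≤ k + 1 by omega, show d + 1 ≤ k + 1 by omega, if_true]
    exact hS d hdk

theorem TP.mono {k' : ℕ} (h : TP k P0 P) (hk : k ≤ k') : TP k' P0 P := by
  induction k', hk using Nat.le_induction with
  | base => exact h
  | succ n _ ih => exact ih.succ

/-- EXTENSION over a test pair, cell by cell: `R d x y` is the relation to be achieved on the
`(d-1)`-skeleton (`R 0` on `P0`) -/
theorem TP.extend [T2Space α] (h : TP k P0 P) {T : Set Y} {f0 : α → Y} (hf0 : IsMap f0 P0 T)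
    (R : ℕ → α → Y → Prop) (h0 : ∀ x ∈ P0, R 0 x (f0 x))
    (mono : ∀ d ≤ k, ∀ x y, R d x y → R (d + 1) x y)
    (step : ∀ d ≤ k, ∀ (χ : (Fin d → ℝ) → α) (φ : (Fin d → ℝ) → Y), IsMap χ (Cu d) P →
      IsMap φ (dCu d) T → (∀ x ∈ dCu d, R d (χ x) (φ x)) →
      ∃ G : (Fin d → ℝ) → Y, IsMap G (Cu d) T ∧ EqOn G φ (dCu d) ∧
        ∀ x ∈ Cu d, R (d + 1) (χ x) (G x)) :
    ∃ F : α → Y, IsMap F P T ∧ EqOn F f0 P0 ∧ ∀ x ∈ P, R (k + 1) x (F x) := by
  obtain ⟨hc, S, hS0, hS1, hS⟩ := h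
  have hsm := TP.skel_mono hS
  have hcomp := TP.skel_compact (by rw [hS0]; exact hc) hS
  have key : ∀ d ≤ k + 1, ∃ F : α → Y, IsMap F (S d) T ∧ EqOn F f0 P0 ∧
      ∀ x ∈ S d, R d x (F x) := by
    intro d
    induction d with
    | zero =>
      intro _
      exact ⟨f0, by rw [hS0]; exact hf0, fun _ _ => rfl, by rw [hS0]; exact h0⟩
    | succ d ih =>
      intro hd
      obtain ⟨F, hF1, hF2, hF3⟩ := ih (by omega)
      obtain ⟨F', h1, h2, h3⟩ := (hS d (by omega)).extend (hcomp d (by omega)).isClosed hF1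
        (R (d + 1)) (by
          intro χ hχ hχ'
          obtain ⟨G, hG1, hG2, hG3⟩ := step d (by omega) χ (fun x => F (χ x))
            (hχ.right (by rw [← hS1]; exact hsm (k + 1) le_rfl _ (by omega)))
            (hF1.comp ⟨hχ.cont.mono (dCu_subset d), hχ'⟩) (fun x hx => hF3 _ (hχ' hx))
          exact ⟨G, hG1, hG2, hG3⟩)
      refine ⟨F', h1, ?_, ?_⟩
      · intro x hx
        rw [h2 (hsm d (by omega) 0 (Nat.zero_le _) (by rw [hS0]; exact hx)), hF2 hx]
      · intro x hx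
        by_cases hxd : x ∈ S d
        · rw [h2 hxd]; exact mono d (by omega) _ _ (hF3 x hxd)
        · exact h3 x hx hxd
  obtain ⟨F, h1, h2, h3⟩ := key (k + 1) le_rfl
  rw [hS1] at h1 h3
  exact ⟨F, h1, h2, h3⟩

end

end MG
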