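import Pool.Agent.Work.MP_017613_gt.Kit.Glue

/-!
# MENGER toolkit: radial structure of the cube

`crad x = 2 ‖x - c‖` (sup norm, `c` the centre), `chom m x = c + m (x - c)`.
(Copied from helper19's `cN`, `cH`.)
-/

open Set Metric Topology

namespace MG

/-- the sup-norm distance to the centre of the cube, normalised -/
noncomputable def crad {j : ℕ} (x : Fin j → ℝ) : ℝ := 2 * ‖x - fun _ => (1 / 2 : ℝ)‖

/-- the homothety with centre the centre of the cube -/
noncomputable def chom {j : ℕ} (m : ℝ) (x : Fin j → ℝ) : Fin j → ℝ :=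
  (fun _ => (1 / 2 : ℝ)) + m • (x - fun _ => (1 / 2 : ℝ))

lemma continuous_crad {j : ℕ} : Continuous (crad (j := j)) := by
  unfold crad; fun_prop

lemma crad_nonneg {j : ℕ} (x : Fin j → ℝ) : 0 ≤ crad x := by
  unfold crad; positivity

lemma mem_Cu_crad {j : ℕ} {x : Fin j → ℝ} : x ∈ Cu j ↔ crad x ≤ 1 := by
  have h1 : crad x ≤ 1 ↔ ‖x - fun _ => (1 / 2 : ℝ)‖ ≤ 1 / 2 := by
    unfold crad; constructor <;> intro h <;> linarith
  rw [h1, pi_norm_le_iff_of_nonneg (by norm_num)]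
  simp only [Cu, mem_Icc, Pi.le_def, Pi.zero_apply, Pi.one_apply, Pi.sub_apply,
    Real.norm_eq_abs, abs_le]
  constructor
  · rintro ⟨h2, h3⟩ i
    have := h2 i; have := h3 i
    constructor <;> linarith
  · intro h
    exact ⟨fun i => by have := (h i).1; linarith, fun i => by have := (h i).2; linarith⟩

lemma mem_dCu_crad {j : ℕ} {x : Fin j → ℝ} : x ∈ dCu j ↔ crad x = 1 := by
  have hx : ∀ i, |x i - 1 / 2| ≤ ‖x - fun _ => (1 / 2 : ℝ)‖ := fun i => by
    have := norm_le_pi_norm (x - fun _ => (1 / 2 : ℝ)) i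
    simpa using this
  constructor
  · rintro ⟨h1, i, hi⟩
    refine le_antisymm (mem_Cu_crad.1 h1) ?_
    have h2 : |x i - 1 / 2| = 1 / 2 := by
      rcases hi with h | h <;> rw [h] <;> norm_num [abs_of_neg, abs_of_pos]
    have := hx i
    unfold crad
    linarith
  · intro h
    refine ⟨mem_Cu_crad.2 h.le, ?_⟩
    by_contra hcon
    push Not at hcon
    have h1 : x ∈ Cu j := mem_Cu_crad.2 h.le
    have h2 : ‖x - fun _ => (1 / 2 : ℝ)‖ < 1 / 2 := by
      rw [pi_norm_lt_iff (by norm_num)]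
      intro i
      have h3 := h1.1 i
      have h4 := h1.2 i
      have h5 := hcon i
      simp only [Pi.zero_apply, Pi.one_apply] at h3 h4
      rw [Pi.sub_apply, Real.norm_eq_abs, abs_lt]
      have h6 : 0 < x i := lt_of_le_of_ne h3 (Ne.symm h5.1)
      have h7 : x i < 1 := lt_of_le_of_ne h4 h5.2
      constructor <;> linarith
    unfold crad at h
    linarith

lemma crad_chom {j : ℕ} {m : ℝ} (hm : 0 ≤ m) (x : Fin j → ℝ) :
    crad (chom m x) = m * crad x := by
  unfold crad chom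
  rw [add_sub_cancel_left, norm_smul, Real.norm_eq_abs, abs_of_nonneg hm]
  ring

lemma dist_chom {j : ℕ} (m : ℝ) (x : Fin j → ℝ) :
    dist x (chom m x) = |1 - m| * (crad x / 2) := by
  have h : x - chom m x = (1 - m) • (x - fun _ => (1 / 2 : ℝ)) := by
    funext i
    simp only [chom, Pi.sub_apply, Pi.add_apply, Pi.smul_apply, smul_eq_mul]
    ring
  rw [dist_eq_norm, h, norm_smul, Real.norm_eq_abs]
  unfold crad
  ring

lemma chom_one {j : ℕ} (x : Fin j → ℝ) : chom 1 x = x := by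
  unfold chom; rw [one_smul]; abel

lemma chom_chom {j : ℕ} (m m' : ℝ) (x : Fin j → ℝ) : chom m (chom m' x) = chom (m * m') x := by
  unfold chom
  rw [add_sub_cancel_left, smul_smul]

lemma continuous_chom_uncurry {j : ℕ} : Continuous fun p : ℝ × (Fin j → ℝ) => chom p.1 p.2 := by
  unfold chom; fun_prop

/-- CONTROLLED HOMOTOPY EXTENSION on a cube: `a : Cu d → T`, a homotopy `h` of `a` on `dCu d`;
`h` extends to a homotopy of `a` on `Cu d` whose tracks, measured by `c`, are as small as those of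
`h`. -/
theorem cell_hep {Y γ : Type*} [TopologicalSpace Y] [MetricSpace γ] {d : ℕ} {T : Set Y}
    {a : (Fin d → ℝ) → Y} {h : (Fin d → ℝ) × ℝ → Y} (ha : IsMap a (Cu d) T)
    (hh : IsMap h (dCu d ×ˢ Icc (0:ℝ) 1) T) (h0 : ∀ x ∈ dCu d, h (x, 0) = a x)
    {c : Y → γ} (hc : ContinuousOn c T) {ρ : ℝ} (hρ : 0 < ρ)
    (htr : ∀ x ∈ dCu d, ∀ t ∈ Icc (0:ℝ) 1, dist (c (h (x, t))) (c (a x)) < ρ) :
    ∃ G : (Fin d → ℝ) × ℝ → Y, IsMap G (Cu d ×ˢ Icc (0:ℝ) 1) T ∧
      (∀ x ∈ dCu d, ∀ t ∈ Icc (0:ℝ) 1, G (x, t) = h (x, t)) ∧ (∀ x ∈ Cu d, G (x, 0) = a x) ∧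
      ∀ x ∈ Cu d, ∀ t ∈ Icc (0:ℝ) 1, dist (c (G (x, t))) (c (a x)) < ρ := by
  -- room in the control
  obtain ⟨ρ', hρ'0, hρ'ρ, hρ'⟩ : ∃ ρ', 0 ≤ ρ' ∧ ρ' < ρ ∧ ∀ x ∈ dCu d, ∀ t ∈ Icc (0:ℝ) 1,
      dist (c (h (x, t))) (c (a x)) ≤ ρ' := by
    rcases (dCu d ×ˢ Icc (0:ℝ) 1).eq_empty_or_nonempty with he | hne
    · refine ⟨0, le_rfl, hρ, fun x hx t ht => ?_⟩
      have : (x, t) ∈ dCu d ×ˢ Icc (0:ℝ) 1 := ⟨hx, ht⟩
      rw [he] at this
      exact this.elim
    · have hcomp : IsCompact (dCu d ×ˢ Icc (0:ℝ) 1) := (isCompact_dCu d).prod isCompact_Icc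
      have hcont : ContinuousOn (fun p : (Fin d → ℝ) × ℝ => dist (c (h p)) (c (a p.1)))
          (dCu d ×ˢ Icc (0:ℝ) 1) := by
        have h1 : ContinuousOn (fun p : (Fin d → ℝ) × ℝ => (c (h p), c (a p.1)))
            (dCu d ×ˢ Icc (0:ℝ) 1) := by
          refine (hc.comp hh.cont hh.maps).prodMk ?_
          refine (hc.comp ha.cont ha.maps).comp continuousOn_fst fun p hp => dCu_subset d hp.1
        exact continuous_dist.comp_continuousOn h1
      obtain ⟨p, hp, hmax⟩ := hcomp.exists_isMaxOn hne hcont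
      exact ⟨_, dist_nonneg, htr p.1 hp.1 p.2 hp.2, fun x hx t ht => hmax (⟨hx, ht⟩ :
        (x, t) ∈ dCu d ×ˢ Icc (0:ℝ) 1)⟩
  -- modulus of `c ∘ a`
  have huc : UniformContinuousOn (fun x => c (a x)) (Cu d) :=
    (isCompact_Cu d).uniformContinuousOn_of_continuous (hc.comp ha.cont ha.maps)
  obtain ⟨δ, hδ, hδ'⟩ := Metric.uniformContinuousOn_iff.1 huc (ρ - ρ') (by linarith)
  set w : ℝ := min (1 / 2) δ with hw
  have hw0 : 0 < w := lt_min (by norm_num) hδ
  have hw1 : w ≤ 1 / 2 := min_le_left _ _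
  have hwδ : w ≤ δ := min_le_right _ _
  -- the clipped radius, the parameter
  let r : (Fin d → ℝ) → ℝ := fun x => max (crad x) (1 - w)
  let τ : (Fin d → ℝ) × ℝ → ℝ := fun p => (r p.1 - (1 - w)) / w * (w + p.2)
  have hr : Continuous r := continuous_crad.max continuous_const
  have hτ : Continuous τ :=
    (((hr.comp continuous_fst).sub continuous_const).div_const _).mul
      (continuous_const.add continuous_snd)
  have hr0 : ∀ x, 0 < r x := fun x => lt_of_lt_of_le (by linarith) (le_max_right _ _)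
  have hrw : ∀ x, 1 - w ≤ r x := fun x => le_max_right _ _
  have hr1 : ∀ x ∈ Cu d, r x ≤ 1 := fun x hx => max_le (mem_Cu_crad.1 hx) (by linarith)
  have hcr : ∀ x, crad x ≤ r x := fun x => le_max_left _ _
  have hτ0 : ∀ p ∈ Cu d ×ˢ Icc (0:ℝ) 1, 0 ≤ τ p := fun p hp => by
    have h1 := hrw p.1
    have h2 := hp.2.1
    have h3 : 0 ≤ (r p.1 - (1 - w)) / w := div_nonneg (by linarith) hw0.le
    have h4 : 0 ≤ w + p.2 := by linarith
    exact mul_nonneg h3 h4
  have hτ1 : ∀ p ∈ Cu d ×ˢ Icc (0:ℝ) 1, τ p ≤ w + p.2 := fun p hp => by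
    have h1 := hr1 p.1 hp.1
    have h2 := hp.2.1
    have h3 : (r p.1 - (1 - w)) / w ≤ 1 := by rw [div_le_one hw0]; linarith
    have h4 : 0 ≤ w + p.2 := by linarith
    calc τ p ≤ 1 * (w + p.2) := mul_le_mul_of_nonneg_right h3 h4
      _ = w + p.2 := one_mul _
  let Z1 : Set ((Fin d → ℝ) × ℝ) := (Cu d ×ˢ Icc (0:ℝ) 1) ∩ {p | τ p ≤ w}
  let Z2 : Set ((Fin d → ℝ) × ℝ) := (Cu d ×ˢ Icc (0:ℝ) 1) ∩ {p | w ≤ τ p}
  have hCI : IsClosed (Cu d ×ˢ Icc (0:ℝ) 1) := (isClosed_Cu d).prod isClosed_Icc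
  have hZ1 : IsClosed Z1 := hCI.inter (isClosed_le hτ continuous_const)
  have hZ2 : IsClosed Z2 := hCI.inter (isClosed_le continuous_const hτ)
  have hun : Cu d ×ˢ Icc (0:ℝ) 1 = Z1 ∪ Z2 := by
    ext p
    constructor
    · intro hp
      rcases le_total (τ p) w with h1 | h1
      · exact Or.inl ⟨hp, h1⟩
      · exact Or.inr ⟨hp, h1⟩
    · rintro (hp | hp)
      · exact hp.1
      · exact hp.1
  -- the two formulas
  let q1 : (Fin d → ℝ) × ℝ → (Fin d → ℝ) := fun p => chom (((1 - w) + min (τ p) w) / r p.1) p.1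
  let q2 : (Fin d → ℝ) × ℝ → (Fin d → ℝ) := fun p => chom (1 / r p.1) p.1
  have hq1 : Continuous q1 := by
    refine continuous_chom_uncurry.comp (Continuous.prodMk ?_ continuous_fst)
    refine Continuous.div ?_ (hr.comp continuous_fst) fun p => (hr0 p.1).ne'
    exact continuous_const.add (hτ.min continuous_const)
  have hq2 : Continuous q2 := by
    refine continuous_chom_uncurry.comp (Continuous.prodMk ?_ continuous_fst)
    exact Continuous.div continuous_const (hr.comp continuous_fst) fun p => (hr0 p.1).ne'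
  have mq1 : ∀ p ∈ Cu d ×ˢ Icc (0:ℝ) 1, q1 p ∈ Cu d := by
    intro p hp
    have h1 : 0 ≤ (1 - w) + min (τ p) w := by
      have := le_min (hτ0 p hp) hw0.le
      linarith
    have h2 : (1 - w) + min (τ p) w ≤ 1 := by
      have := min_le_right (τ p) w
      linarith
    rw [mem_Cu_crad, crad_chom (div_nonneg h1 (hr0 _).le), div_mul_eq_mul_div,
      div_le_one (hr0 _)]
    calc ((1 - w) + min (τ p) w) * crad p.1 ≤ 1 * crad p.1 :=
          mul_le_mul_of_nonneg_right h2 (crad_nonneg _)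
      _ ≤ r p.1 := by rw [one_mul]; exact hcr _
  have hZ2r : ∀ p ∈ Z2, crad p.1 = r p.1 := by
    intro p hp
    have h1 : w ≤ τ p := hp.2
    by_contra hne
    have h2 : r p.1 = 1 - w := by
      rcases max_choice (crad p.1) (1 - w) with h3 | h3
      · exact absurd h3.symm hne
      · exact h3
    have h3 : τ p = 0 := by simp only [τ, h2, sub_self, zero_div, zero_mul]
    linarith
  have mq2 : ∀ p ∈ Z2, q2 p ∈ dCu d := by
    intro p hp
    have h1 := hZ2r p hp
    have h2 := hr0 p.1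
    rw [mem_dCu_crad, crad_chom (by positivity), h1, one_div, inv_mul_cancel₀ h2.ne']
  have mt2 : ∀ p ∈ Z2, τ p - w ∈ Icc (0:ℝ) 1 := by
    intro p hp
    have h1 : w ≤ τ p := hp.2
    have h2 := hτ1 p hp.1
    have h3 := hp.1.2.2
    exact ⟨by linarith, by linarith⟩
  have hf1 : IsMap (fun p => a (q1 p)) Z1 T :=
    ⟨ha.cont.comp hq1.continuousOn fun p hp => mq1 p hp.1, fun p hp => ha.maps (mq1 p hp.1)⟩
  have hf2 : IsMap (fun p => h (q2 p, τ p - w)) Z2 T :=
    ⟨hh.cont.comp (hq2.continuousOn.prodMk (hτ.sub continuous_const).continuousOn)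
      fun p hp => ⟨mq2 p hp, mt2 p hp⟩, fun p hp => hh.maps ⟨mq2 p hp, mt2 p hp⟩⟩
  obtain ⟨G, hG, hG1, hG2⟩ := IsMap.glue hZ1 hZ2 hf1 hf2 (by
    intro p hp1 hp2
    have h1 : τ p = w := le_antisymm hp1.2 hp2.2
    have h2 : q1 p = q2 p := by
      simp only [q1, q2, h1, min_self]
      congr 1
      ring
    have h3 := h0 _ (mq2 p hp2)
    simp only [h2, h1, sub_self]
    exact h3.symm)
  rw [← hun] at hG
  -- estimate on the first piece
  have e1 : ∀ p ∈ Cu d ×ˢ Icc (0:ℝ) 1, dist (c (a (q1 p))) (c (a p.1)) < ρ - ρ' := by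
    intro p hp
    refine hδ' _ (mq1 p hp) _ hp.1 ?_
    rw [dist_comm, dist_chom]
    have h1 : |1 - ((1 - w) + min (τ p) w) / r p.1| ≤ w / r p.1 := by
      have h2 := hr0 p.1
      have h3 : (1 : ℝ) - ((1 - w) + min (τ p) w) / r p.1
          = (r p.1 - ((1 - w) + min (τ p) w)) / r p.1 := by field_simp
      rw [h3, abs_div, abs_of_pos h2]
      refine div_le_div_of_nonneg_right ?_ h2.le
      have h4 := hrw p.1
      have h5 := hr1 p.1 hp.1
      have h6 := le_min (hτ0 p hp) hw0.le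
      have h7 := min_le_right (τ p) w
      rw [abs_le]
      constructor <;> linarith
    have h2 := hr0 p.1
    have h3 := hcr p.1
    have h4 := crad_nonneg p.1
    calc |1 - ((1 - w) + min (τ p) w) / r p.1| * (crad p.1 / 2)
        ≤ (w / r p.1) * (r p.1 / 2) := by
          refine mul_le_mul h1 (by linarith) (by linarith) (by positivity)
      _ = w / 2 := by field_simp
      _ < δ := by linarith
  have e2 : ∀ p ∈ Z2, dist (c (a (q2 p))) (c (a p.1)) < ρ - ρ' := by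
    intro p hp
    refine hδ' _ (dCu_subset d (mq2 p hp)) _ hp.1.1 ?_
    rw [dist_comm, dist_chom, hZ2r p hp]
    have h2 := hr0 p.1
    have h4 := hrw p.1
    have h5 := hr1 p.1 hp.1.1
    have h1 : |1 - 1 / r p.1| ≤ w / r p.1 := by
      have h3 : (1 : ℝ) - 1 / r p.1 = (r p.1 - 1) / r p.1 := by field_simp
      rw [h3, abs_div, abs_of_pos h2]
      refine div_le_div_of_nonneg_right ?_ h2.le
      rw [abs_le]
      constructor <;> linarith
    calc |1 - 1 / r p.1| * (r p.1 / 2) ≤ (w / r p.1) * (r p.1 / 2) := by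
          exact mul_le_mul_of_nonneg_right h1 (by linarith)
      _ = w / 2 := by field_simp
      _ < δ := by linarith
  refine ⟨G, hG, ?_, ?_, ?_⟩
  · intro x hx t ht
    have hr1x : r x = 1 := by
      have h1 := mem_dCu_crad.1 hx
      simp only [r, h1]
      exact max_eq_left (by linarith)
    have hτx : τ (x, t) = w + t := by
      simp only [τ, hr1x]
      rw [show (1:ℝ) - (1 - w) = w by ring, div_self hw0.ne', one_mul]
    have hp2 : (x, t) ∈ Z2 := ⟨⟨dCu_subset d hx, ht⟩, by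
      change w ≤ τ (x, t)
      rw [hτx]; linarith [ht.1]⟩
    rw [hG2 hp2]
    simp only [hτx, q2, hr1x, div_one, chom_one]
    rw [add_sub_cancel_left]
  · intro x hx
    have h0' : (0:ℝ) ∈ Icc (0:ℝ) 1 := ⟨le_rfl, zero_le_one⟩
    have hτx : τ (x, 0) = r x - (1 - w) := by
      simp only [τ, add_zero]
      exact div_mul_cancel₀ _ hw0.ne'
    have hp1 : (x, (0:ℝ)) ∈ Z1 := ⟨⟨hx, h0'⟩, by
      change τ (x, 0) ≤ w
      rw [hτx]; linarith [hr1 x hx]⟩
    rw [hG1 hp1]
    have hmin : min (τ (x, 0)) w = r x - (1 - w) := by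
      rw [hτx]; exact min_eq_left (by linarith [hr1 x hx])
    simp only [q1, hmin]
    rw [show (1 - w + (r x - (1 - w))) = r x by ring, div_self (hr0 x).ne', chom_one]
  · intro x hx t ht
    have hp : (x, t) ∈ Cu d ×ˢ Icc (0:ℝ) 1 := ⟨hx, ht⟩
    rcases (hun ▸ hp : (x, t) ∈ Z1 ∪ Z2) with hp1 | hp2
    · rw [hG1 hp1]
      have := e1 _ hp
      simp only at this
      linarith
    · rw [hG2 hp2]
      have h1 := hρ' _ (mq2 _ hp2) _ (mt2 _ hp2)
      have h2 := e2 _ hp2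
      calc dist (c (h (q2 (x, t), τ (x, t) - w))) (c (a x))
          ≤ dist (c (h (q2 (x, t), τ (x, t) - w))) (c (a (q2 (x, t))))
            + dist (c (a (q2 (x, t)))) (c (a x)) := dist_triangle _ _ _
        _ < ρ' + (ρ - ρ') := add_lt_add_of_le_of_lt h1 h2
        _ = ρ := by ring

end MG
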