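import Pool.Agent.Work.MP_017613_gt.Kit.Hep
import Pool.Agent.Work.MP_017613_gt.Coarse

/-!
# MENGER toolkit: lifting and extension over test pairs

All constants depend on the number of layers (on `k`), not on the number of cells.

* `iterate_mod`: iterates a modulus.
* `TP.lp`: lifting over a test pair from `LP` on single cells.
* `ULC.nx`: `ULC k K`: a map `φ` on `dCu j`, close to `f : Cu j → K`, extends close to `f`.
* `L.lp_of_ulc`: `L` and `ULC` of the target give `LP`, uniformly in `g`.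
* `TP.nx`, `TP.lp_unif`, `TP.hty`, `Conn.extend`.
-/

open Set Metric Topology

namespace MG

/-- iteration of a modulus -/
lemma iterate_mod {Q : ℝ → ℝ → Prop} (h : ∀ b > 0, ∃ a > 0, a ≤ b ∧ Q a b) (n : ℕ) :
    ∀ b > 0, ∃ t : ℕ → ℝ, t n = b ∧ (∀ d, 0 < t d) ∧ (∀ d, t d ≤ b) ∧ (∀ d, t 0 ≤ t d) ∧
      ∀ d < n, t d ≤ t (d + 1) ∧ Q (t d) (t (d + 1)) := by
  induction n with
  | zero =>
    intro b hb
    exact ⟨fun _ => b, rfl, fun _ => hb, fun _ => le_rfl, fun _ => le_rfl,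
      fun d hd => absurd hd (Nat.not_lt_zero d)⟩
  | succ n ih =>
    intro b hb
    obtain ⟨a, ha, hab, hQ⟩ := h b hb
    obtain ⟨t, ht1, ht2, ht3, ht4, ht5⟩ := ih a ha
    refine ⟨fun d => if d ≤ n then t d else b, by simp, ?_, ?_, ?_, ?_⟩
    · intro d
      by_cases hd : d ≤ n
      · simp only [hd, if_true]; exact ht2 d
      · simp only [hd, if_false]; exact hb
    · intro d
      by_cases hd : d ≤ n
      · simp only [hd, if_true]; exact (ht3 d).trans hab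
      · simp only [hd, if_false]; exact le_rfl
    · intro d
      by_cases hd : d ≤ n
      · simp only [hd, if_true, Nat.zero_le]; exact ht4 d
      · simp only [hd, if_false, Nat.zero_le, if_true]; exact (ht3 0).trans hab
    · intro d hd
      rcases Nat.lt_or_ge d n with h1 | h1
      · simp only [h1.le, if_true, show d + 1 ≤ n from h1]
        exact ht5 d h1
      · have hdn : d = n := by omega
        subst hdn
        simp only [le_refl, if_true, show ¬ (d + 1 ≤ d) by omega, if_false, ht1]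
        exact ⟨hab, hQ⟩

section

variable {α β E : Type*} [MetricSpace α] [MetricSpace β] [MetricSpace E]

theorem L.mono {k : ℕ} {g : α → β} {A : Set α} {K : Set β} {e e' : ℝ} (h : L k g A K e)
    (he : e ≤ e') : L k g A K e' := by
  intro j hj f f0 hf hf0 hc
  obtain ⟨F, h1, h2, h3⟩ := h j hj f f0 hf hf0 hc
  exact ⟨F, h1, h2, fun x hx => (h3 x hx).trans_le he⟩

theorem L.mono_k {k k' : ℕ} {g : α → β} {A : Set α} {K : Set β} {e : ℝ} (h : L k g A K e)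
    (hk : k' ≤ k) : L k' g A K e := fun j hj => h j (hj.trans hk)

theorem LP.mono {k : ℕ} {g : α → β} {A : Set α} {K : Set β} {a b a' b' : ℝ} (h : LP k g A K a b)
    (ha : a' ≤ a) (hb : b ≤ b') : LP k g A K a' b' := by
  intro j hj f f0 hf hf0 hc
  obtain ⟨F, h1, h2, h3⟩ := h j hj f f0 hf hf0 fun x hx => (hc x hx).trans_le ha
  exact ⟨F, h1, h2, fun x hx => (h3 x hx).trans_le hb⟩

theorem LP.mono_k {k k' : ℕ} {g : α → β} {A : Set α} {K : Set β} {a b : ℝ} (h : LP k g A K a b)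
    (hk : k' ≤ k) : LP k' g A K a b := fun j hj => h j (hj.trans hk)

theorem LP.l {k : ℕ} {g : α → β} {A : Set α} {K : Set β} {a b : ℝ} (h : LP k g A K a b)
    (ha : 0 < a) : L k g A K b := by
  intro j hj f f0 hf hf0 hc
  exact h j hj f f0 hf hf0 fun x hx => by rw [hc x hx, dist_self]; exact ha

theorem UV.mono_k {k k' : ℕ} {g : α → β} {A : Set α} {K : Set β} {a b : ℝ} (h : UV k g A K a b)
    (hk : k' ≤ k) : UV k' g A K a b := fun j hj => h j (hj.trans hk)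

theorem ULC.mono_k {k k' : ℕ} {K : Set α} (h : ULC k K) (hk : k' ≤ k) : ULC k' K := by
  intro ε hε
  obtain ⟨δ, hδ, hU⟩ := h ε hε
  exact ⟨δ, hδ, hU.mono_k hk⟩

theorem Conn.mono_k {k k' : ℕ} {K : Set α} (h : Conn k K) (hk : k' ≤ k) : Conn k' K :=
  fun j hj => h j (hj.trans hk)

/-- LIFTING over a test pair, from `LP` at `k+1` scales on single cells -/
theorem TP.lp {k : ℕ} {g : α → β} {A : Set α} {K : Set β} {t : ℕ → ℝ}
    (ht : ∀ d ≤ k, t d ≤ t (d + 1)) (hLP : ∀ d ≤ k, LP k g A K (t d) (t (d + 1)))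
    {P0 P : Set E} (h : TP k P0 P) {f : E → β} (hf : IsMap f P K) {f0 : E → α}
    (hf0 : IsMap f0 P0 A) (hc : ∀ x ∈ P0, dist (g (f0 x)) (f x) < t 0) :
    ∃ F : E → α, IsMap F P A ∧ EqOn F f0 P0 ∧ ∀ x ∈ P, dist (g (F x)) (f x) < t (k + 1) := by
  refine h.extend hf0 (fun d x y => dist (g y) (f x) < t d) hc
    (fun d hd x y hxy => hxy.trans_le (ht d hd)) ?_
  intro d hd χ φ hχ hφ hR
  exact hLP d hd d hd (fun x => f (χ x)) φ (hf.comp hχ) hφ hR

/-- extension into a `(k-1)`-connected space over any test pair -/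
theorem Conn.extend {k : ℕ} {A : Set α} (hA : Conn k A) {P0 P : Set E} (h : TP k P0 P)
    {f0 : E → α} (hf0 : IsMap f0 P0 A) : ∃ F : E → α, IsMap F P A ∧ EqOn F f0 P0 := by
  obtain ⟨F, h1, h2, -⟩ := h.extend hf0 (fun _ _ _ => True) (fun _ _ => trivial)
    (fun _ _ _ _ _ => trivial) (by
      intro d hd χ φ _ hφ _
      obtain ⟨G, g1, g2⟩ := hA d hd φ hφ
      exact ⟨G, g1, g2, fun _ _ => trivial⟩)
  exact ⟨F, h1, h2⟩

/-- NEAR EXTENSION on a single cell -/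
theorem ULC.nx {k : ℕ} {K : Set α} (hK : ULC k K) {ε : ℝ} (hε : 0 < ε) : ∃ δ > 0, δ ≤ ε ∧
    LP k (fun x => x) K K δ ε := by
  obtain ⟨δ, hδ, hco⟩ := coarse hK (half_pos hε)
  refine ⟨min (δ / 4) (ε / 2), lt_min (by linarith) (half_pos hε),
    (min_le_right _ _).trans (by linarith), ?_⟩
  intro j hj f φ hf hφ hc
  -- fine grid
  have huc : UniformContinuousOn f (Cu j) :=
    (isCompact_Cu j).uniformContinuousOn_of_continuous hf.cont
  obtain ⟨r, hr, hr'⟩ := Metric.uniformContinuousOn_iff.1 huc (δ / 4) (by linarith)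
  obtain ⟨m, hm⟩ := exists_nat_gt (1 / r)
  have hm0 : (0:ℝ) < m := lt_trans (by positivity) hm
  have hm0' : 0 < m := by exact_mod_cast hm0
  have hmr : (1:ℝ) / m < r := by
    rw [div_lt_iff₀ hm0]
    rw [div_lt_iff₀ hr] at hm
    linarith
  classical
  let ψ : (Fin j → ℝ) → α := fun x => if x ∈ dCu j then φ x else f x
  have hψd : ∀ x ∈ Cu j, dist (ψ x) (f x) < min (δ / 4) (ε / 2) := by
    intro x _
    by_cases hx : x ∈ dCu j
    · simp only [ψ, hx, if_true]; exact hc x hx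
    · simp only [ψ, hx, if_false, dist_self]; exact lt_min (by linarith) (half_pos hε)
  have hψe : EqOn ψ φ (dCu j) := fun x hx => by simp only [ψ, hx, if_true]
  obtain ⟨F, h1, h2, h3⟩ := hco hm0' (isCub_Cu hm0' j) (isCub_dCu hm0' j) (dCu_subset j)
    (fun x _ _ => (Finset.card_filter_le _ _).trans (by simpa using hj)) ψ
    (by
      intro x hx
      by_cases hxd : x ∈ dCu j
      · rw [hψe hxd]; exact hφ.maps hxd
      · simp only [ψ, hxd, if_false]; exact hf.maps hx)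
    (hφ.cont.congr hψe)
    (by
      intro x hx y hy
      have hyC : y ∈ Cu j := (isCub_Cu hm0' j).sat x hx hy
      have h4 : dist x y < r :=
        (dist_le_of_mem_cube hm0' (mem_cube_car m x) hy).trans_lt hmr
      have h5 := hr' x hx y hyC h4
      have h6 := (hψd x hx).trans_le (min_le_left _ _)
      have h7 := (hψd y hyC).trans_le (min_le_left _ _)
      rw [dist_comm] at h7
      have h8 := dist_triangle4 (ψ x) (f x) (f y) (ψ y)
      linarith)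
  refine ⟨F, h1, fun x hx => (h2 hx).trans (hψe hx), fun x hx => ?_⟩
  have h4 := h3 x hx
  have h5 := (hψd x hx).trans_le (min_le_right _ _)
  have h6 := dist_triangle (F x) (ψ x) (f x)
  show dist (F x) (f x) < ε
  linarith

/-- from exact to approximate boundary data -/
theorem L.lp {k : ℕ} {g : α → β} {A : Set α} {K : Set β} {a b e : ℝ} (hg : IsMap g A K)
    (h : L k g A K e) (hK : LP k (fun x => x) K K a b) : LP k g A K a (e + b) := by
  intro j hj f f0 hf hf0 hc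
  obtain ⟨f', h1, h2, h3⟩ := hK j hj f (fun x => g (f0 x)) hf (hg.comp hf0) hc
  obtain ⟨F, g1, g2, g3⟩ := h j hj f' f0 h1 hf0 fun x hx => (h2 hx).symm
  refine ⟨F, g1, g2, fun x hx => ?_⟩
  exact (dist_triangle _ (f' x) _).trans_lt (add_lt_add (g3 x hx) (h3 x hx))

/-- `L` at a fine scale gives `LP`, uniformly in `g` -/
theorem ULC.lp_unif.{u} {β : Type*} [MetricSpace β] {k : ℕ} {K : Set β} (hK : ULC k K) {b : ℝ}
    (hb : 0 < b) : ∃ a > 0, a ≤ b ∧ ∀ {α : Type u} [MetricSpace α] {g : α → β} {A : Set α},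
      IsMap g A K → L k g A K a → LP k g A K a b := by
  obtain ⟨δ, hδ, hδb, hLP⟩ := hK.nx (half_pos hb)
  refine ⟨min δ (b / 2), lt_min hδ (half_pos hb), (min_le_right _ _).trans (by linarith), ?_⟩
  intro α _ g A hg hL
  refine ((hL.mono (min_le_right _ _)).lp hg hLP).mono (min_le_left _ _) (by linarith)

/-- uniform lifting over test pairs -/
theorem TP.lp_unif.{u, v} {β : Type*} [MetricSpace β] {k : ℕ} {K : Set β} (hK : ULC k K) {b : ℝ}
    (hb : 0 < b) : ∃ a > 0, a ≤ b ∧ ∀ {α : Type u} [MetricSpace α] {g : α → β} {A : Set α},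
      IsMap g A K → L k g A K a → ∀ {E : Type v} [MetricSpace E] {P0 P : Set E}, TP k P0 P →
      ∀ {f : E → β}, IsMap f P K → ∀ {f0 : E → α}, IsMap f0 P0 A →
      (∀ x ∈ P0, dist (g (f0 x)) (f x) < a) →
      ∃ F : E → α, IsMap F P A ∧ EqOn F f0 P0 ∧ ∀ x ∈ P, dist (g (F x)) (f x) < b := by
  obtain ⟨t, ht1, ht2, ht3, ht4, ht5⟩ := iterate_mod
    (Q := fun a b => ∀ {α : Type u} [MetricSpace α] {g : α → β} {A : Set α},
      IsMap g A K → L k g A K a → LP k g A K a b) (fun b hb => hK.lp_unif hb) (k + 1) b hb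
  refine ⟨t 0, ht2 0, ht3 0, ?_⟩
  intro α _ g A hg hL E _ P0 P hP f hf f0 hf0 hc
  have := hP.lp (t := t) (fun d hd => (ht5 d (by omega)).1)
    (fun d hd => (ht5 d (by omega)).2 hg (hL.mono (ht4 d))) hf hf0 hc
  rwa [ht1] at this

/-- NEAR EXTENSION over test pairs -/
theorem TP.nx.{v} {k : ℕ} {K : Set α} (hK : ULC k K) {ε : ℝ} (hε : 0 < ε) : ∃ δ > 0, δ ≤ ε ∧
    ∀ {E : Type v} [MetricSpace E] {P0 P : Set E}, TP k P0 P → ∀ {f : E → α}, IsMap f P K →
      ∀ {φ : E → α}, IsMap φ P0 K → (∀ x ∈ P0, dist (φ x) (f x) < δ) →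
      ∃ F : E → α, IsMap F P K ∧ EqOn F φ P0 ∧ ∀ x ∈ P, dist (F x) (f x) < ε := by
  obtain ⟨t, ht1, ht2, ht3, ht4, ht5⟩ := iterate_mod (fun b hb => hK.nx hb) (k + 1) ε hε
  refine ⟨t 0, ht2 0, ht3 0, ?_⟩
  intro E _ P0 P hP f hf φ hφ hc
  have := hP.lp (t := t) (fun d hd => (ht5 d (by omega)).1)
    (fun d hd => (ht5 d (by omega)).2) hf hφ hc
  rwa [ht1] at this

/-- SMALL HOMOTOPIES, relative: close maps of a test pair of dimension `≤ k - 1`, equal on `P0`, are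
joined by a small homotopy rel `P0` -/
theorem TP.hty.{v} {k : ℕ} {K : Set α} (hK : ULC (k + 1) K) {ε : ℝ} (hε : 0 < ε) :
    ∃ δ > 0, δ ≤ ε ∧ ∀ {E : Type v} [MetricSpace E] {P0 P : Set E}, TP k P0 P →
      ∀ {f f' : E → α}, IsMap f P K → IsMap f' P K → EqOn f' f P0 →
      (∀ x ∈ P, dist (f' x) (f x) < δ) →
      ∃ H : E × ℝ → α, IsMap H (P ×ˢ Icc (0:ℝ) 1) K ∧ (∀ x ∈ P, H (x, 0) = f x) ∧
        (∀ x ∈ P, H (x, 1) = f' x) ∧ (∀ x ∈ P0, ∀ t ∈ Icc (0:ℝ) 1, H (x, t) = f x) ∧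
        ∀ x ∈ P, ∀ t ∈ Icc (0:ℝ) 1, dist (H (x, t)) (f x) < ε := by
  obtain ⟨δ, hδ, hδε, hnx⟩ := TP.nx hK hε
  refine ⟨δ, hδ, hδε, ?_⟩
  intro E _ P0 P hP f f' hf hf' he hc
  have hPc := hP.isCompact.isClosed
  have hP0c := hP.isCompact0.isClosed
  have hsub := hP.subset
  have hbase : P ×ˢ ({0, 1} : Set ℝ) ∪ P0 ×ˢ Icc (0:ℝ) 1
      = (P ×ˢ ({0} : Set ℝ) ∪ P0 ×ˢ Icc (0:ℝ) 1) ∪ P ×ˢ ({1} : Set ℝ) := by
    ext ⟨x, t⟩
    simp only [mem_union, mem_prod, mem_insert_iff, mem_singleton_iff]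
    tauto
  have h01 : ∀ t ∈ ({0, 1} : Set ℝ), t ∈ Icc (0:ℝ) 1 := by
    rintro t (rfl | rfl)
    · exact ⟨le_rfl, zero_le_one⟩
    · exact ⟨zero_le_one, le_rfl⟩
  obtain ⟨φ, hφ, hφ1, hφ2⟩ := IsMap.glue (A := P ×ˢ ({0} : Set ℝ) ∪ P0 ×ˢ Icc (0:ℝ) 1)
    (A' := P ×ˢ ({1} : Set ℝ)) (B := K) (f := fun p : E × ℝ => f p.1) (g := fun p => f' p.1)
    ((hPc.prod isClosed_singleton).union (hP0c.prod isClosed_Icc))
    (hPc.prod isClosed_singleton)
    ⟨hf.cont.comp continuousOn_fst fun p hp => by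
        rcases hp with hp | hp
        · exact hp.1
        · exact hsub hp.1,
      fun p hp => by
        rcases hp with hp | hp
        · exact hf.maps hp.1
        · exact hf.maps (hsub hp.1)⟩
    ⟨hf'.cont.comp continuousOn_fst fun p hp => hp.1, fun p hp => hf'.maps hp.1⟩
    (by
      rintro ⟨x, t⟩ hp ⟨hx, ht⟩
      rcases hp with hp | hp
      · have h1 : t = 0 := hp.2
        have h2 : t = 1 := ht
        rw [h1] at h2
        exact absurd h2 zero_ne_one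
      · exact (he hp.1).symm)
  rw [← hbase] at hφ
  obtain ⟨H, h1, h2, h3⟩ := hnx hP.prod (f := fun p : E × ℝ => f p.1)
    ⟨hf.cont.comp continuousOn_fst fun p hp => hp.1, fun p hp => hf.maps hp.1⟩ hφ (by
      intro p hp
      rw [hbase] at hp
      rcases hp with hp | hp
      · rw [hφ1 hp, dist_self]; exact hδ
      · rw [hφ2 hp]; exact hc _ hp.1)
  refine ⟨H, h1, ?_, ?_, ?_, ?_⟩
  · intro x hx
    have hp : (x, (0:ℝ)) ∈ P ×ˢ ({0} : Set ℝ) ∪ P0 ×ˢ Icc (0:ℝ) 1 := Or.inl ⟨hx, rfl⟩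
    have hp' : (x, (0:ℝ)) ∈ P ×ˢ ({0, 1} : Set ℝ) ∪ P0 ×ˢ Icc (0:ℝ) 1 :=
      Or.inl ⟨hx, Or.inl rfl⟩
    rw [h2 hp', hφ1 hp]
  · intro x hx
    have hp : (x, (1:ℝ)) ∈ P ×ˢ ({1} : Set ℝ) := ⟨hx, rfl⟩
    have hp' : (x, (1:ℝ)) ∈ P ×ˢ ({0, 1} : Set ℝ) ∪ P0 ×ˢ Icc (0:ℝ) 1 :=
      Or.inl ⟨hx, Or.inr rfl⟩
    rw [h2 hp', hφ2 hp]
  · intro x hx t ht
    have hp : (x, t) ∈ P ×ˢ ({0} : Set ℝ) ∪ P0 ×ˢ Icc (0:ℝ) 1 := Or.inr ⟨hx, ht⟩
    rw [h2 (Or.inr ⟨hx, ht⟩), hφ1 hp]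
  · intro x hx t ht
    exact h3 (x, t) ⟨hx, ht⟩

end

end MG
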