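import Pool.Agent.Work.MP_017613_gt.Coarse

/-!
# Bridge between the set forms (`Kit/Defs`) and the type forms (`Defs`)

* `ulc_iff`, `uv_iff`, `conn_iff`, `lft_iff`, `lpf_iff`, `disc_iff`;
* `coarse_type`: COARSE for types.
-/

open Set Topology Metric

namespace MG

open Pool.Agent.Work.MP_017613_gt (Cb Bd)

variable {M K V : Type*} [MetricSpace M] [MetricSpace K] [MetricSpace V]

lemma isMap_univ {α β : Type*} [TopologicalSpace α] [TopologicalSpace β] {f : α → β} {A : Set α} :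
    IsMap f A (univ : Set β) ↔ ContinuousOn f A := ⟨fun h => h.cont, fun h => ⟨h, fun _ _ => trivial⟩⟩

theorem ulc_iff {k : ℕ} : ULC k (univ : Set K) ↔ Pool.Agent.Work.MP_017613_gt.ULC k K := by
  constructor
  · intro h ε hε
    obtain ⟨δ, hδ, h⟩ := h ε hε
    refine ⟨δ, hδ, fun j _ hj y a ha had => ?_⟩
    obtain ⟨F, h1, h2, h3⟩ := h j hj y trivial a (isMap_univ.2 ha) had
    exact ⟨F, h1.cont, h2, h3⟩
  · intro h ε hε
    obtain ⟨δ, hδ, h⟩ := h ε hε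
    refine ⟨δ, hδ, fun j hj y _ a ha had => ?_⟩
    rcases Nat.eq_zero_or_pos j with rfl | hj0
    · refine ⟨fun _ => y, IsMap.const trivial, ?_, fun x _ => by rw [dist_self]; exact hε⟩
      rw [dCu_zero]; exact eqOn_empty _ _
    · obtain ⟨F, h1, h2, h3⟩ := h j hj0 hj y a ha.cont had
      exact ⟨F, isMap_univ.2 h1, h2, h3⟩

theorem uv_iff [Nonempty M] {k : ℕ} {g : M → K} {t t' : ℝ} :
    UV k g univ univ t t' ↔ Pool.Agent.Work.MP_017613_gt.UV k g t t' := by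
  constructor
  · intro h
    refine ⟨fun y => ?_, fun j _ hj y a ha had => ?_⟩
    · obtain ⟨x₀⟩ := ‹Nonempty M›
      obtain ⟨F, _, _, h3⟩ := h 0 (Nat.zero_le _) y trivial (fun _ => x₀)
          (by rw [dCu_zero]; exact IsMap.empty) (by rw [dCu_zero]; intro x hx; exact hx.elim)
      exact ⟨F 0, h3 0 (by rw [mem_Cu]; intro i; exact i.elim0)⟩
    · obtain ⟨F, h1, h2, h3⟩ := h j hj y trivial a (isMap_univ.2 ha) had
      exact ⟨F, h1.cont, h2, h3⟩
  · rintro ⟨h0, h⟩ j hj y _ a ha had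
    rcases Nat.eq_zero_or_pos j with rfl | hj0
    · obtain ⟨x, hx⟩ := h0 y
      refine ⟨fun _ => x, IsMap.const trivial, ?_, fun _ _ => hx⟩
      rw [dCu_zero]; exact eqOn_empty _ _
    · obtain ⟨F, h1, h2, h3⟩ := h j hj0 hj y a ha.cont had
      exact ⟨F, isMap_univ.2 h1, h2, h3⟩

theorem conn_iff [Nonempty K] {k : ℕ} :
    Conn k (univ : Set K) ↔ Pool.Agent.Work.MP_017613_gt.Conn k K := by
  constructor
  · intro h
    refine ⟨inferInstance, fun j _ hj a ha => ?_⟩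
    obtain ⟨F, h1, h2⟩ := h j hj a (isMap_univ.2 ha)
    exact ⟨F, h1.cont, h2⟩
  · rintro ⟨h0, h⟩ j hj a ha
    rcases Nat.eq_zero_or_pos j with rfl | hj0
    · refine ⟨a, ?_, fun _ _ => rfl⟩
      have : Subsingleton (Fin 0 → ℝ) := inferInstance
      exact isMap_univ.2 (continuous_of_const fun x y => by rw [Subsingleton.elim x y]).continuousOn
    · obtain ⟨F, h1, h2⟩ := h j hj0 hj a ha.cont
      exact ⟨F, isMap_univ.2 h1, h2⟩

theorem lft_iff {k : ℕ} {g : M → K} {e : ℝ} :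
    L k g univ univ e ↔ Pool.Agent.Work.MP_017613_gt.Lft k g e := by
  simp only [L, Pool.Agent.Work.MP_017613_gt.Lft, isMap_univ]
  exact Iff.rfl

theorem lpf_iff {k : ℕ} {g : M → K} {r e : ℝ} :
    LP k g univ univ r e ↔ Pool.Agent.Work.MP_017613_gt.LPf k g r e := by
  simp only [LP, Pool.Agent.Work.MP_017613_gt.LPf, isMap_univ]
  exact Iff.rfl

theorem disc_iff : DISC (univ : Set M) (univ : Set K) ↔ Pool.Agent.Work.MP_017613_gt.Disc M K := by
  have h : ∀ h : M → K, MapsTo h univ univ := fun h _ _ => trivial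
  simp only [DISC, Pool.Agent.Work.MP_017613_gt.Disc, Pool.Agent.Work.MP_017613_gt.SmallJump,
    isMap_univ, mem_univ, forall_const, continuousOn_univ, h]

/-- COARSE for types -/
theorem coarse_type {k : ℕ} (hK : Pool.Agent.Work.MP_017613_gt.ULC k K) :
    ∀ ε > 0, ∃ δ > 0, ∀ (N m : ℕ), 0 < m → ∀ P P₀ : Set (Fin N → ℝ), IsCub m P → IsCub m P₀ →
      P₀ ⊆ P → (∀ x ∈ P, x ∉ P₀ → dm (car m x) ≤ k) → ∀ φ : (Fin N → ℝ) → K,
      (∀ x ∈ P, ∀ y ∈ cube m (car m x), dist (φ x) (φ y) < δ) → ContinuousOn φ P₀ →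
      ∃ F : (Fin N → ℝ) → K, ContinuousOn F P ∧ EqOn F φ P₀ ∧ ∀ x ∈ P, dist (F x) (φ x) < ε := by
  intro ε hε
  obtain ⟨δ, hδ, h⟩ := coarse (ulc_iff.2 hK) hε
  refine ⟨δ, hδ, fun N m hm P P₀ hP hP₀ hsub hdim φ hosc hc => ?_⟩
  obtain ⟨F, h1, h2, h3⟩ := h hm hP hP₀ hsub hdim φ (fun _ _ => trivial) hc hosc
  exact ⟨F, h1.cont, h2, h3⟩

end MG
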