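import Pool.Agent.Work.MP_017613_gt.Kit.Glue

/-!
# MENGER toolkit: adjunction spaces

`exists_attach`: for compact metric `V`, a compact model pair `(B, A)`, a finite index type `ι` and
maps `ψ i : A → V` there is a compact metric space `V1` containing `V` isometrically, obtained from
`V` by attaching the models along the `ψ i`.
-/

open Set Metric Topology

namespace MG

/-- Kuratowski embedding of a compact metric space -/
noncomputable def kur {X : Type*} [MetricSpace X] (x : X) : C(X, ℝ) :=
  ⟨fun w => dist x w, by fun_prop⟩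

lemma isometry_kur {X : Type*} [MetricSpace X] [CompactSpace X] :
    Isometry (kur : X → C(X, ℝ)) := by
  refine Isometry.of_dist_eq fun x y => le_antisymm ?_ ?_
  · rw [ContinuousMap.dist_le dist_nonneg]
    intro w
    exact abs_dist_sub_le x y w
  · have h := ContinuousMap.dist_apply_le_dist (f := kur x) (g := kur y) y
    have h2 : dist (kur x y) (kur y y) = dist x y := by
      change |dist x y - dist y y| = dist x y
      rw [dist_self, sub_zero, abs_of_nonneg dist_nonneg]
    rwa [h2] at h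

lemma norm_kur_inj {X : Type*} [MetricSpace X] [CompactSpace X] {x y : X} {s : ℝ} (hs : s ≠ 0)
    (h : s • kur x = s • kur y) : x = y := by
  have := smul_right_injective (C(X, ℝ)) hs h
  exact isometry_kur.injective this

/-- every map of a closed set of a compact metric space into `V` extends to a map into `C(V, ℝ)` -/
lemma exists_extend_kur {B V : Type*} [MetricSpace B] [MetricSpace V]
    {A : Set B} (hA : IsClosed A) {ψ : B → V} (hψ : ContinuousOn ψ A) :
    ∃ Ψ : C(B, C(V, ℝ)), ∀ b ∈ A, Ψ b = kur (ψ b) := by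
  have hD : IsClosed (A ×ˢ (univ : Set V)) := hA.prod isClosed_univ
  have hc : ContinuousOn (fun p : B × V => dist (ψ p.1) p.2) (A ×ˢ (univ : Set V)) := by
    have h1 : ContinuousOn (fun p : B × V => (ψ p.1, p.2)) (A ×ˢ (univ : Set V)) :=
      (hψ.comp continuousOn_fst fun p hp => hp.1).prodMk continuousOn_snd
    exact continuous_dist.comp_continuousOn h1
  obtain ⟨g, hg⟩ := ContinuousMap.exists_restrict_eq hD
    (⟨(A ×ˢ (univ : Set V)).domRestrict (fun p : B × V => dist (ψ p.1) p.2), hc.domRestrict⟩ :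
      C((A ×ˢ (univ : Set V) : Set (B × V)), ℝ))
  refine ⟨g.curry, fun b hb => ?_⟩
  ext v
  have := DFunLike.congr_fun hg ⟨(b, v), hb, mem_univ v⟩
  simpa [kur] using this

/-- a continuous function vanishing exactly on a closed set -/
lemma exists_dist_fun {B : Type*} [MetricSpace B] {A : Set B} (hA : IsClosed A) :
    ∃ d : C(B, ℝ), ∀ b, d b = 0 ↔ b ∈ A := by
  rcases A.eq_empty_or_nonempty with rfl | hne
  · exact ⟨ContinuousMap.const B 1, fun b => by simp⟩
  · exact ⟨⟨fun b => infDist b A, continuous_infDist_pt A⟩,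
      fun b => by simpa using (hA.mem_iff_infDist_zero hne (x := b)).symm⟩

/-- ATTACHING, models as types -/
theorem exists_attach_type {V B ι : Type} [MetricSpace V] [CompactSpace V] [MetricSpace B]
    [CompactSpace B] [Finite ι] {A : Set B} (hA : IsClosed A) (ψ : ι → B → V)
    (hψ : ∀ i, ContinuousOn (ψ i) A) :
    ∃ (V1 : Type) (_ : MetricSpace V1) (_ : CompactSpace V1) (j : V → V1) (χ : ι → B → V1),
      Isometry j ∧ Fam univ A (range j) univ χ ∧ ∀ i, ∀ z ∈ A, χ i z = j (ψ i z) := by
  classical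
  have := Fintype.ofFinite ι
  obtain ⟨d, hd⟩ := exists_dist_fun hA
  choose Ψ hΨ using fun i => exists_extend_kur hA (hψ i)
  let j0 : V → C(V, ℝ) × C(B, ℝ) × (ι → ℝ) := fun v => (kur v, 0, 0)
  let χ0 : ι → B → C(V, ℝ) × C(B, ℝ) × (ι → ℝ) := fun i z =>
    (Ψ i z, d z • kur z, Pi.single i (d z))
  have hj0 : Isometry j0 := Isometry.of_dist_eq fun v w => by
    simp only [j0, Prod.dist_eq, dist_self, isometry_kur.dist_eq]
    simp
  have hχ0 : ∀ i, Continuous (χ0 i) := by
    intro i
    refine (Ψ i).continuous.prodMk ((d.continuous.smul isometry_kur.continuous).prodMk ?_)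
    exact (continuous_single i).comp d.continuous
  have hb : ∀ i, ∀ z ∈ A, χ0 i z = j0 (ψ i z) := by
    intro i z hz
    have h0 : d z = 0 := (hd z).2 hz
    simp [χ0, j0, h0, hΨ i z hz]
  let W : Set (C(V, ℝ) × C(B, ℝ) × (ι → ℝ)) := range j0 ∪ ⋃ i, range (χ0 i)
  have hW : IsCompact W :=
    (isCompact_range hj0.continuous).union (isCompact_iUnion fun i => isCompact_range (hχ0 i))
  have hjW : ∀ v, j0 v ∈ W := fun v => Or.inl ⟨v, rfl⟩
  have hχW : ∀ i z, χ0 i z ∈ W := fun i z => Or.inr (mem_iUnion.2 ⟨i, z, rfl⟩)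
  refine ⟨W, inferInstance, isCompact_iff_compactSpace.1 hW, fun v => ⟨j0 v, hjW v⟩,
    fun i z => ⟨χ0 i z, hχW i z⟩, ?_, ?_, ?_⟩
  · exact Isometry.of_dist_eq fun v w => hj0.dist_eq v w
  · refine ⟨fun i => ((hχ0 i).subtype_mk _).continuousOn, ?_, ?_, ?_, ?_⟩
    · intro i z hz
      exact ⟨ψ i z, Subtype.ext (hb i z hz).symm⟩
    · rintro i z - hzA ⟨v, hv⟩
      have h1 : j0 v = χ0 i z := congrArg Subtype.val hv
      have h2 : (0 : ι → ℝ) = Pi.single i (d z) := congrArg (fun p => p.2.2) h1
      have h3 : d z = 0 := by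
        have := congrFun h2 i
        simpa using this.symm
      exact hzA ((hd z).1 h3)
    · intro i i' z z' _ hz _ hz' heq
      have h1 : χ0 i z = χ0 i' z' := congrArg Subtype.val heq
      have h2 : (Pi.single i (d z) : ι → ℝ) = Pi.single i' (d z') := congrArg (fun p => p.2.2) h1
      have hdz : d z ≠ 0 := fun h => hz ((hd z).1 h)
      have hii : i = i' := by
        by_contra hne
        have := congrFun h2 i
        rw [Pi.single_eq_same, Pi.single_eq_of_ne hne] at this
        exact hdz this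
      subst hii
      have h3 : d z = d z' := by
        have := congrFun h2 i
        simpa using this
      have h4 : d z • kur z = d z' • kur z' := congrArg (fun p => p.2.1) h1
      rw [← h3] at h4
      exact ⟨rfl, norm_kur_inj hdz h4⟩
    · ext ⟨p, hp⟩
      simp only [mem_univ, mem_union, mem_range, mem_iUnion, image_univ, true_iff, Subtype.mk.injEq]
      rcases hp with ⟨v, hv⟩ | hp
      · exact Or.inl ⟨v, hv⟩
      · obtain ⟨i, z, hz⟩ := mem_iUnion.1 hp
        exact Or.inr ⟨i, z, hz⟩
  · intro i z hz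
    exact Subtype.ext (hb i z hz)

/-- ATTACHING, model pair of sets `(B, A)` in a metric space -/
theorem exists_attach {V ε ι : Type} [MetricSpace V] [CompactSpace V] [MetricSpace ε] [Finite ι]
    {B A : Set ε} (hB : IsCompact B) (hBne : B.Nonempty) (hA : IsClosed A)
    (ψ : ι → ε → V) (hψ : ∀ i, ContinuousOn (ψ i) A) (hAB : A ⊆ B) :
    ∃ (V1 : Type) (_ : MetricSpace V1) (_ : CompactSpace V1) (j : V → V1) (χ : ι → ε → V1),
      Isometry j ∧ Fam B A (range j) univ χ ∧ ∀ i, ∀ z ∈ A, χ i z = j (ψ i z) := by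
  classical
  have := isCompact_iff_compactSpace.1 hB
  obtain ⟨V1, m1, c1, j, χ, hj, hF, hb⟩ := exists_attach_type (V := V) (B := B) (ι := ι)
    (A := Subtype.val ⁻¹' A) (hA.preimage continuous_subtype_val) (fun i z => ψ i z)
    (fun i => (hψ i).comp continuous_subtype_val.continuousOn fun z hz => hz)
  obtain ⟨b0, hb0⟩ := hBne
  refine ⟨V1, m1, c1, j, fun i z => if h : z ∈ B then χ i ⟨z, h⟩ else χ i ⟨b0, hb0⟩, hj, ?_, ?_⟩
  · refine ⟨fun i => ?_, ?_, ?_, ?_, ?_⟩
    · rw [continuousOn_iff_continuous_domRestrict]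
      have h1 : B.domRestrict (fun z => if h : z ∈ B then χ i ⟨z, h⟩ else χ i ⟨b0, hb0⟩) = χ i := by
        ext ⟨z, hz⟩
        simp [hz]
      rw [h1]
      have := hF.cont i
      rwa [continuousOn_univ] at this
    · intro i z hz
      have hzB := hAB hz
      simp only [hzB, dif_pos]
      exact hF.bdry i (x := ⟨z, hzB⟩) hz
    · intro i z hz hzA
      simp only [hz, dif_pos]
      exact hF.off i ⟨z, hz⟩ (mem_univ _) hzA
    · intro i i' z z' hz hzA hz' hzA' heq
      simp only [hz, hz', dif_pos] at heq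
      obtain ⟨h1, h2⟩ := hF.inj i i' ⟨z, hz⟩ ⟨z', hz'⟩ (mem_univ _) hzA (mem_univ _) hzA' heq
      exact ⟨h1, congrArg Subtype.val h2⟩
    · have h1 : ∀ i, (fun z => if h : z ∈ B then χ i ⟨z, h⟩ else χ i ⟨b0, hb0⟩) '' B
          = χ i '' univ := by
        intro i
        ext y
        constructor
        · rintro ⟨z, hz, rfl⟩
          simp only [hz, dif_pos]
          exact ⟨⟨z, hz⟩, mem_univ _, rfl⟩
        · rintro ⟨⟨z, hz⟩, -, rfl⟩
          exact ⟨z, hz, by simp [hz]⟩
      rw [hF.union]
      simp only [h1]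
  · intro i z hz
    have hzB := hAB hz
    simp only [hzB, dif_pos]
    exact hb i ⟨z, hzB⟩ hz

end MG
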