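import Pool.Agent.Work.MP_017613_gt.Kit.GridPush

/-!
# Discretisation of compact sets of dimension `≤ k`

`discr`: for `r > 0` a compact set `P` with `PushOff k P` has a continuous map `q` to a
`k`-dimensional cubical set `K` of mesh `1/m` such that points with `dist (q x) (q y) ≤ 3/m` are
`r`-close.
-/

open Set Topology Metric
open Pool.Agent.Work.MP_017613_gt

namespace MG

section Hull

variable {N : ℕ}

private lemma finite_car_bdd (m : ℕ) {S : Set (Fin N → ℝ)} (hS : Bornology.IsBounded S) :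
    (car m '' S).Finite := by
  obtain ⟨B, hB⟩ := hS.exists_norm_le
  have hB0 : ∀ x ∈ S, ∀ i, |x i| ≤ B := fun x hx i => (norm_le_pi_norm x i).trans (hB x hx)
  obtain ⟨C, hC⟩ := exists_nat_ge ((m:ℝ) * |B| + 1)
  apply (Set.finite_Icc (fun _ : Fin N => (-2 * (C:ℤ))) (fun _ : Fin N => (2 * (C:ℤ)))).subset
  rintro _ ⟨x, hx, rfl⟩
  have key : ∀ i, -(C:ℝ) + 1 ≤ m * x i ∧ m * x i ≤ C - 1 := by
    intro i
    have h1 : |(m:ℝ) * x i| ≤ m * |B| := by
      rw [abs_mul, Nat.abs_cast]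
      exact mul_le_mul_of_nonneg_left ((hB0 x hx i).trans (le_abs_self B)) (Nat.cast_nonneg m)
    have := abs_le.1 h1
    constructor <;> linarith
  constructor
  · intro i
    have h := key i
    have h1 : (-(C:ℤ)) ≤ ⌊(m:ℝ) * x i⌋ := by
      rw [Int.le_floor]; push_cast; linarith
    have h2 : (-(C:ℤ)) ≤ ⌈(m:ℝ) * x i⌉ := h1.trans (Int.floor_le_ceil _)
    show -2 * (C:ℤ) ≤ ⌊(m:ℝ) * x i⌋ + ⌈(m:ℝ) * x i⌉
    linarith
  · intro i
    have h := key i
    have h1 : ⌈(m:ℝ) * x i⌉ ≤ (C:ℤ) := by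
      rw [Int.ceil_le]; push_cast; linarith
    have h2 : ⌊(m:ℝ) * x i⌋ ≤ (C:ℤ) := (Int.floor_le_ceil _).trans h1
    show ⌊(m:ℝ) * x i⌋ + ⌈(m:ℝ) * x i⌉ ≤ 2 * (C:ℤ)
    linarith

/-- the union of the smallest cubes containing the points of `S` -/
def hull (m : ℕ) (S : Set (Fin N → ℝ)) : Set (Fin N → ℝ) := ⋃ w ∈ car m '' S, cube m w

lemma mem_hull {m : ℕ} {S : Set (Fin N → ℝ)} {z : Fin N → ℝ} :
    z ∈ hull m S ↔ ∃ s ∈ S, z ∈ cube m (car m s) := by
  unfold hull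
  simp only [mem_iUnion, mem_image, exists_prop, exists_exists_and_eq_and]

lemma subset_hull (m : ℕ) (S : Set (Fin N → ℝ)) : S ⊆ hull m S :=
  fun s hs => mem_hull.2 ⟨s, hs, mem_cube_car m s⟩

lemma isCub_hull {m : ℕ} (hm : 0 < m) {S : Set (Fin N → ℝ)} (hS : Bornology.IsBounded S) :
    IsCub m (hull m S) := isCub_biUnion hm (finite_car_bdd m hS)

lemma hull_subset {m : ℕ} {K S : Set (Fin N → ℝ)} (hK : IsCub m K) (h : S ⊆ K) :
    hull m S ⊆ K := by
  intro z hz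
  obtain ⟨s, hs, hz⟩ := mem_hull.1 hz
  exact hK.sat s (h hs) hz

lemma hull_mono {m : ℕ} {S T : Set (Fin N → ℝ)} (h : S ⊆ T) : hull m S ⊆ hull m T := by
  intro z hz
  obtain ⟨s, hs, hz⟩ := mem_hull.1 hz
  exact mem_hull.2 ⟨s, h hs, hz⟩

end Hull

variable {γ : Type*} [MetricSpace γ]

/-- the distances to the points of a fine net separate points -/
private lemma exists_net_map {P : Set γ} (cP : IsCompact P) {r : ℝ} (hr : 0 < r) :
    ∃ (N : ℕ) (Φ : γ → Fin N → ℝ), Continuous Φ ∧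
      ∀ x ∈ P, ∀ y ∈ P, dist (Φ x) (Φ y) < r / 4 → dist x y < r := by
  obtain ⟨t, htP, htf, ht⟩ := cP.finite_cover_balls (show (0:ℝ) < r / 4 by positivity)
  have : Fintype t := htf.fintype
  obtain ⟨e⟩ : Nonempty (t ≃ Fin (Fintype.card t)) := ⟨Fintype.equivFin t⟩
  refine ⟨Fintype.card t, fun x i => dist x (e.symm i), ?_, ?_⟩
  · exact continuous_pi fun i => continuous_id.dist continuous_const
  · intro x hx y _ hxy
    have h1 := ht hx
    simp only [mem_iUnion, mem_ball, exists_prop] at h1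
    obtain ⟨p, hp, h1⟩ := h1
    have h2 := dist_le_pi_dist (fun i => dist x (e.symm i : γ)) (fun i => dist y (e.symm i : γ))
      (e ⟨p, hp⟩)
    simp only [Equiv.symm_apply_apply] at h2
    have h3 := h2.trans_lt hxy
    rw [Real.dist_eq, abs_lt] at h3
    have h4 := dist_triangle_right x y p
    linarith [h3.1]

/-- **Discretisation.** -/
theorem discr {k : ℕ} {P : Set γ} (cP : IsCompact P) (hP : PushOff k P) {r : ℝ} (hr : 0 < r) :
    ∃ (N m : ℕ) (_ : 0 < m) (q : γ → Fin N → ℝ) (K : Set (Fin N → ℝ)),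
      ContinuousOn q P ∧ IsCub m K ∧ (∀ z ∈ K, dm (car m z) ≤ k) ∧ MapsTo q P K ∧
      (∀ z ∈ K, ∃ x ∈ P, z ∈ cube m (car m (q x))) ∧
      ∀ x ∈ P, ∀ y ∈ P, dist (q x) (q y) ≤ 3 / m → dist x y < r := by
  obtain ⟨N, Φ, hΦ, hΦ'⟩ := exists_net_map cP hr
  obtain ⟨m, hm⟩ := exists_nat_gt (20 / r)
  have hm0 : (0:ℝ) < m := lt_trans (by positivity) hm
  have hmN : 0 < m := by exact_mod_cast hm0
  have hmr : 5 / (m:ℝ) < r / 4 := by
    rw [div_lt_iff₀ hm0]
    rw [div_lt_iff₀ hr] at hm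
    linarith
  obtain ⟨q, cq, hq, hk, _⟩ := grid_push hmN cP hP hΦ.continuousOn
  have hb : Bornology.IsBounded (q '' P) := (cP.image_of_continuousOn cq).isBounded
  refine ⟨N, m, hmN, q, hull m (q '' P), cq, isCub_hull hmN hb, ?_, ?_, ?_, ?_⟩
  · intro z hz
    obtain ⟨_, ⟨x, hx, rfl⟩, hz⟩ := mem_hull.1 hz
    exact (dm_car_le hz).trans (hk x hx)
  · exact fun x hx => subset_hull m _ (mem_image_of_mem q hx)
  · intro z hz
    obtain ⟨_, ⟨x, hx, rfl⟩, hz⟩ := mem_hull.1 hz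
    exact ⟨x, hx, hz⟩
  · intro x hx y hy hxy
    apply hΦ' x hx y hy
    have h1 : dist (Φ x) (q x) ≤ 1 / m := dist_le_of_mem_cube hmN (mem_cube_car m _) (hq x hx)
    have h2 : dist (q y) (Φ y) ≤ 1 / m := dist_le_of_mem_cube hmN (hq y hy) (mem_cube_car m _)
    have h3 := dist_triangle4 (Φ x) (q x) (q y) (Φ y)
    have h4 : 1 / (m:ℝ) + 3 / m + 1 / m = 5 / m := by ring
    linarith

end MG
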