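import Pool.Agent.Work.MP_017613_gt.Kit.Lift
import Pool.Agent.Work.MP_017613_gt.Kit.Discr
import Pool.Agent.Work.MP_017613_gt.DiscD
import Pool.Agent.Work.MP_017613_gt.Chi0

/-!
# TK2: from cubes to arbitrary compact test pairs

`ane_of_ulc`: a compact `X` of type `ULC k` is `ANE k`.

`eq_pair`: `X'` compact, `ULC k X'`, `p : X' → X` a map with the `UV` property at all scales (for
instance `ULC k X` and `L k p X' X e` for all `e > 0`, `uv_of_L`). Then for every `ε` there is `δ`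
such that for every compact `P` of dimension `≤ k`, closed `A ⊆ P`, map `f : P → X` and map
`f₀ : A → X'` with `p f₀` `δ`-close to `f` on `A` there is a map `F : P → X'`, `F = f₀` on `A`,
`p F` `ε`-close to `f`.

`soft_of_L`, `soft_of_UV`: hence `Soft k X' X p`; `L_of_soft`: the converse.
-/

open Set Topology Metric

namespace MG

open Pool.Agent.Work.MP_017613_gt (PushOff)
open Pool.Agent.Work.MP_017613_gt.Chi (ANE Soft Jump)

variable {α β γ : Type} [MetricSpace α] [MetricSpace β] [MetricSpace γ]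

/-- uniform continuity on compact sets -/
lemma unif {f : γ → β} {P : Set γ} (cP : IsCompact P) (hf : ContinuousOn f P) {ε : ℝ}
    (hε : 0 < ε) : ∃ r > 0, ∀ x ∈ P, ∀ y ∈ P, dist x y < r → dist (f x) (f y) < ε := by
  have h := cP.uniformContinuousOn_of_continuous hf
  rw [Metric.uniformContinuousOn_iff] at h
  obtain ⟨r, hr, h⟩ := h ε hε
  exact ⟨r, hr, fun x hx y hy hxy => h x hx y hy hxy⟩

/-- **TK2** -/
theorem eq_pair {k : ℕ} {X' : Set α} {X : Set β} {p : α → β} (cX' : IsCompact X')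
    (uX' : ULC k X') (hp : IsMap p X' X) (hU : UVall k p X' X) {ε : ℝ}
    (hε : 0 < ε) : ∃ δ > 0, ∀ (γ : Type) [MetricSpace γ] (P A : Set γ), IsCompact P →
      PushOff k P → IsClosed A → A ⊆ P →
      ∀ (f : γ → β) (f₀ : γ → α), IsMap f P X → IsMap f₀ A X' →
      (∀ x ∈ A, dist (p (f₀ x)) (f x) < δ) →
      ∃ F : γ → α, IsMap F P X' ∧ EqOn F f₀ A ∧ ∀ x ∈ P, dist (p (F x)) (f x) < ε := by
  have hε4 : 0 < ε / 4 := by linarith
  obtain ⟨δ₁, hδ₁, hlift⟩ := lift_cub hU hε4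
  obtain ⟨η, hη, hpu⟩ := unif cX' hp.cont hε4
  obtain ⟨η₁, hη₁, hpu₁⟩ := unif cX' hp.cont (show (0:ℝ) < δ₁ / 4 by linarith)
  obtain ⟨δA, hδA, hape⟩ := ane_of_ulc cX' uX' η hη
  obtain ⟨δc, hδc, hcoarse⟩ := coarse (α := α) (k := k) uX'
    (show 0 < min (δA / 2) η₁ from lt_min (half_pos hδA) hη₁)
  refine ⟨δ₁ / 4, by linarith, ?_⟩
  intro γ _ P A cP hP hA hAP f f₀ hf hf₀ hclose
  have cA : IsCompact A := cP.of_isClosed_subset hA hAP
  rcases P.eq_empty_or_nonempty with rfl | ⟨x₁, hx₁⟩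
  · have hA0 : A = ∅ := subset_empty_iff.1 hAP
    subst hA0
    exact ⟨f₀, hf₀, fun _ _ => rfl, fun x hx => absurd hx (notMem_empty x)⟩
  -- the fine scale on `P`
  obtain ⟨r₁, hr₁, hfu⟩ := unif cP hf.cont (show 0 < min (ε / 4) (δ₁ / 4) from
    lt_min hε4 (by linarith))
  obtain ⟨r₂, hr₂, hf0u⟩ := unif cA hf₀.cont (show 0 < min δc (δA / 2) from
    lt_min hδc (half_pos hδA))
  obtain ⟨N, m, hm, q, K, hq, hK, hKd, hqK, hKq', hqr⟩ := discr cP hP (lt_min hr₁ hr₂)
  have hKq : ∀ z ∈ K, ∃ x ∈ P, dist z (q x) ≤ 1 / m := by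
    intro z hz
    obtain ⟨x, h1, h2⟩ := hKq' z hz
    exact ⟨x, h1, dist_le_of_mem_cube hm h2 (mem_cube_car m (q x))⟩
  have hm' : (0:ℝ) < m := by exact_mod_cast hm
  have hm3 : (3:ℝ) / m = 1 / m + 1 / m + 1 / m := by ring
  have hm1 : (0:ℝ) < 1 / m := by positivity
  have hqr₁ : ∀ x ∈ P, ∀ y ∈ P, dist (q x) (q y) ≤ 3 / m → dist x y < r₁ :=
    fun x hx y hy h => (hqr x hx y hy h).trans_le (min_le_left _ _)
  have hqr₂ : ∀ x ∈ P, ∀ y ∈ P, dist (q x) (q y) ≤ 3 / m → dist x y < r₂ :=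
    fun x hx y hy h => (hqr x hx y hy h).trans_le (min_le_right _ _)
  -- the function `φ` on the complex
  have hx : ∀ z : Fin N → ℝ, ∃ x ∈ P, z ∈ K → dist z (q x) ≤ 1 / m := by
    intro z
    by_cases hz : z ∈ K
    · obtain ⟨x, h1, h2⟩ := hKq z hz
      exact ⟨x, h1, fun _ => h2⟩
    · exact ⟨x₁, hx₁, fun h => absurd h hz⟩
  choose xz hxzP hxz using hx
  have hφX : MapsTo (fun z => f (xz z)) K X := fun z _ => hf.maps (hxzP z)
  have hosc : Osc m K (fun z => f (xz z)) δ₁ := by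
    intro z hz y hy
    have hyK : y ∈ K := hK.sat z hz hy
    have h1 := hxz z hz
    have h2 := hxz y hyK
    have h3 := dist_le_of_mem_cube hm (mem_cube_car m z) hy
    have h4 : dist (q (xz z)) (q (xz y)) ≤ 3 / m := by
      have h5 := dist_triangle4 (q (xz z)) z y (q (xz y))
      rw [dist_comm (q (xz z)) z] at h5
      rw [hm3]
      linarith
    have h5 := (hfu _ (hxzP z) _ (hxzP y) (hqr₁ _ (hxzP z) _ (hxzP y) h4)).trans_le
      (min_le_right _ _)
    show dist (f (xz z)) (f (xz y)) < δ₁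
    linarith
  -- the subcomplex near `A`
  set W : Set (Fin N → ℤ) := (fun a => car m (q a)) '' A with hW
  have hWfin : W.Finite := by
    refine hK.finite_car.subset ?_
    rintro _ ⟨a, ha, rfl⟩
    exact ⟨q a, hqK (hAP ha), rfl⟩
  set KA : Set (Fin N → ℝ) := ⋃ w ∈ W, cube m w with hKA
  have hKAcub : IsCub m KA := isCub_biUnion hm hWfin
  have hKAK : KA ⊆ K := by
    intro z hz
    rw [hKA] at hz
    simp only [mem_iUnion, exists_prop] at hz
    obtain ⟨w, ⟨a, ha, rfl⟩, hzw⟩ := hz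
    exact hK.sat _ (hqK (hAP ha)) hzw
  have hKAa : ∀ z ∈ KA, ∃ a ∈ A, dist z (q a) ≤ 1 / m := by
    intro z hz
    rw [hKA] at hz
    simp only [mem_iUnion, exists_prop] at hz
    obtain ⟨w, ⟨a, ha, rfl⟩, hzw⟩ := hz
    exact ⟨a, ha, dist_le_of_mem_cube hm hzw (mem_cube_car m (q a))⟩
  have hqA : ∀ a ∈ A, q a ∈ KA := by
    intro a ha
    rw [hKA]
    simp only [mem_iUnion, exists_prop]
    exact ⟨_, ⟨a, ha, rfl⟩, mem_cube_car m (q a)⟩
  -- the map `G₀` near `A`
  obtain ⟨G₀, hG₀, hG₀d, hG₀p⟩ : ∃ G₀ : (Fin N → ℝ) → α, IsMap G₀ KA X' ∧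
      (∀ a ∈ A, dist (G₀ (q a)) (f₀ a) < δA) ∧
      (∀ z ∈ KA, dist (p (G₀ z)) (f (xz z)) < δ₁) := by
    rcases A.eq_empty_or_nonempty with hA0 | ⟨a₁, ha₁⟩
    · have hKA0 : KA = ∅ := by
        rw [hKA, hW, hA0]
        simp
      refine ⟨fun _ => f₀ x₁, ?_, ?_, ?_⟩
      · rw [hKA0]; exact IsMap.empty
      · rw [hA0]; simp
      · rw [hKA0]; simp
    · have ha : ∀ z : Fin N → ℝ, ∃ a ∈ A, z ∈ KA → dist z (q a) ≤ 1 / m := by
        intro z
        by_cases hz : z ∈ KA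
        · obtain ⟨a, h1, h2⟩ := hKAa z hz
          exact ⟨a, h1, fun _ => h2⟩
        · exact ⟨a₁, ha₁, fun h => absurd h hz⟩
      choose az hazA haz using ha
      have hosc' : Osc m KA (fun z => f₀ (az z)) δc := by
        intro z hz y hy
        have hyK : y ∈ KA := hKAcub.sat z hz hy
        have h1 := haz z hz
        have h2 := haz y hyK
        have h3 := dist_le_of_mem_cube hm (mem_cube_car m z) hy
        have h4 : dist (q (az z)) (q (az y)) ≤ 3 / m := by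
          have h5 := dist_triangle4 (q (az z)) z y (q (az y))
          rw [dist_comm (q (az z)) z] at h5
          rw [hm3]
          linarith
        exact (hf0u _ (hazA z) _ (hazA y)
          (hqr₂ _ (hAP (hazA z)) _ (hAP (hazA y)) h4)).trans_le (min_le_left _ _)
      obtain ⟨G₀, hG₀, -, hG₀d⟩ := hcoarse hm hKAcub (IsCub.empty m) (empty_subset _)
        (fun z hz _ => hKd z (hKAK hz)) (fun z => f₀ (az z)) (fun z _ => hf₀.maps (hazA z))
        (continuousOn_empty _) hosc'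
      refine ⟨G₀, hG₀, fun a ha => ?_, fun z hz => ?_⟩
      · have h1 := (hG₀d (q a) (hqA a ha)).trans_le (min_le_left _ _)
        have h2 := haz (q a) (hqA a ha)
        have h3 : dist (q (az (q a))) (q a) ≤ 3 / m := by
          rw [dist_comm, hm3]
          linarith
        have h4 := (hf0u _ (hazA (q a)) a ha
          (hqr₂ _ (hAP (hazA (q a))) a (hAP ha) h3)).trans_le (min_le_right _ _)
        have h5 := dist_triangle (G₀ (q a)) (f₀ (az (q a))) (f₀ a)
        linarith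
      · have h1 := (hG₀d z hz).trans_le (min_le_right _ _)
        have h2 := hpu₁ _ (hG₀.maps hz) _ (hf₀.maps (hazA z)) h1
        have h3 := hclose _ (hazA z)
        have h4 : dist (q (az z)) (q (xz z)) ≤ 3 / m := by
          have h5 := dist_triangle (q (az z)) z (q (xz z))
          rw [dist_comm (q (az z)) z] at h5
          have h6 := haz z hz
          have h7 := hxz z (hKAK hz)
          rw [hm3]
          linarith
        have h5 := (hfu _ (hAP (hazA z)) _ (hxzP z)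
          (hqr₁ _ (hAP (hazA z)) _ (hxzP z) h4)).trans_le (min_le_right _ _)
        have h6 := dist_triangle4 (p (G₀ z)) (p (f₀ (az z))) (f (az z)) (f (xz z))
        linarith
  -- lift over the complex
  obtain ⟨G, hG, hGe, hGd⟩ := hlift hm hK hKAcub hKAK (fun z hz _ => hKd z hz)
    (fun z => f (xz z)) hφX hosc G₀ hG₀ hG₀p
  -- correct on `A`
  have hGq : ContinuousOn (fun x => G (q x)) P := hG.cont.comp hq hqK
  obtain ⟨F, hFc, hFm, hFe, hFd⟩ := hape γ P A ⟨cP, hP, hA, hAP⟩ (fun x => G (q x))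
    (fun x hx => hG.maps (hqK hx)) (unif cP hGq hδA) f₀ hf₀.cont hf₀.maps
    (fun a ha => by
      show dist (f₀ a) (G (q a)) < δA
      rw [hGe (hqA a ha), dist_comm]
      exact hG₀d a ha)
  refine ⟨F, ⟨hFc, hFm⟩, hFe, fun x hx => ?_⟩
  have h1 := hpu _ (hFm hx) _ (hG.maps (hqK hx)) (hFd x hx)
  have h2 := hGd (q x) (hqK hx)
  have h3 : dist (q (xz (q x))) (q x) ≤ 3 / m := by
    rw [dist_comm, hm3]
    have := hxz (q x) (hqK hx)
    linarith
  have h4 := (hfu _ (hxzP (q x)) x hx (hqr₁ _ (hxzP (q x)) x hx h3)).trans_le (min_le_left _ _)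
  have h5 := dist_triangle4 (p (F x)) (p (G (q x))) (f (xz (q x))) (f x)
  linarith

/-- the `UV` property at all scales gives a soft map -/
theorem soft_of_UV {k : ℕ} {X' : Set α} {X : Set β} {p : α → β} (cX' : IsCompact X')
    (uX' : ULC k X') (hp : IsMap p X' X) (hU : UVall k p X' X) : Soft k X' X p := by
  refine ⟨hp.cont, hp.maps, ?_⟩
  intro γ _ P A hPA f f₀ hf hfm hf₀ hf₀m he ε hε
  obtain ⟨δ, hδ, h⟩ := eq_pair cX' uX' hp hU hε
  obtain ⟨F, hF, hFe, hFd⟩ := h γ P A hPA.cP hPA.dP hPA.cA hPA.sub f f₀ ⟨hf, hfm⟩ ⟨hf₀, hf₀m⟩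
    (fun x hx => by rw [he x hx, dist_self]; exact hδ)
  exact ⟨F, hF.cont, hF.maps, hFe, hFd⟩

/-- **TK2**, lifting property for cubes gives the lifting property for all compact test pairs -/
theorem soft_of_L {k : ℕ} {X' : Set α} {X : Set β} {p : α → β} (cX' : IsCompact X')
    (uX' : ULC k X') (uX : ULC k X) (hp : IsMap p X' X) (hL : ∀ e > 0, L k p X' X e) :
    Soft k X' X p :=
  soft_of_UV cX' uX' hp (uv_of_L uX hp hL)

/-- the cube of dimension `j ≤ k` is a test space -/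
theorem pushOff_Cu {j k : ℕ} (h : j ≤ k) : PushOff k (Cu j) :=
  Pool.Agent.Work.MP_017613_gt.pushOff_of_finrank (by rw [Module.finrank_fin_fun]; exact h)
    (isCompact_Cu j)

/-- the converse of `soft_of_L` -/
theorem L_of_soft {k : ℕ} {X' : Set α} {X : Set β} {p : α → β} (h : Soft k X' X p) {e : ℝ}
    (he : 0 < e) : L k p X' X e := by
  intro j hj f f0 hf hf0 hff
  obtain ⟨F, h1, h2, h3, h4⟩ := h.2.2 (Fin j → ℝ) (Cu j) (dCu j)
    ⟨isCompact_Cu j, pushOff_Cu hj, isClosed_dCu j, dCu_subset j⟩ f f0 hf.cont hf.maps hf0.cont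
    hf0.maps hff e he
  exact ⟨F, ⟨h1, h2⟩, h3, h4⟩

/-- `ANE k` implies `ULC k` -/
theorem ulc_of_ane {k : ℕ} {X : Set β} (h : ANE k X) : ULC k X := by
  intro ε hε
  obtain ⟨δ, hδ, H⟩ := h (ε / 2) (half_pos hε)
  refine ⟨min δ (ε / 2), lt_min hδ (half_pos hε), ?_⟩
  intro j hj y hy a ha had
  obtain ⟨F, h1, h2, h3, h4⟩ := H (Fin j → ℝ) (Cu j) (dCu j)
    ⟨isCompact_Cu j, pushOff_Cu hj, isClosed_dCu j, dCu_subset j⟩ (fun _ => y) (fun _ _ => hy)
    ⟨1, one_pos, fun _ _ _ _ _ => by rw [dist_self]; exact hδ⟩ a ha.cont ha.maps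
    (fun x hx => (had x hx).trans_le (min_le_left _ _))
  exact ⟨F, ⟨h1, h2⟩, h3, fun x hx => (h4 x hx).trans (by linarith)⟩

end MG
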