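import Pool.Agent.Work.MP_017613_gt.Kit.CubExt
import Pool.Agent.Work.MP_017613_gt.Kit.TPCalc

/-!
# Calculus of the lifting properties on single cells: `L`, `LP`, `UV` (T4)

`K` is `ULC^(k-1)`; everything is uniform in the function `g : A → K`.

* `LP.toL`, `LP.toUV` (any function `g`);
* `L.toLP`: for every `ε` there is `r = r(K, ε)`: `L k g A K d → LP k g A K r (d + ε)` for all maps
  `g : A → K`;
* `L.toUV`;
* `lift_cub_uv`: lifting over cubical pairs from a chain of `UV`-properties, `g` any function;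
  `LP.of_uv`: `LP` from a chain of `UV`-properties; `lift_cub_pair`: lifting over cubical pairs from
  `L`;
* `lp_chain`: chain `s 0 < s 1 < ... < s (k+1) = ε` (depending on `K`, `ε` only) such that
  `L k g A K (s 0) → LP k g A K (s i) (s (i+1))`;
* `LP.perturb`, `L.perturb`: stability under small perturbations of `g`;
* `LP.comp`, `L.comp`: composition.
-/

open Set Topology Metric

namespace MG

universe u v

section

variable {α : Type u} {β γ : Type*} [MetricSpace α] [MetricSpace β] [MetricSpace γ]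
  {k : ℕ} {g g' : β → α} {A : Set β} {K : Set α}

theorem UV.weaken {t t' s s' : ℝ} (h : UV k g A K t t') (hs : s ≤ t) (hs' : t' ≤ s') :
    UV k g A K s s' := by
  intro j hj y hy a ha hd
  obtain ⟨F, h1, h2, h3⟩ := h j hj y hy a ha fun x hx => (hd x hx).trans_le hs
  exact ⟨F, h1, h2, fun x hx => (h3 x hx).trans_le hs'⟩

theorem LP.toL {r e : ℝ} (h : LP k g A K r e) (hr : 0 < r) : L k g A K e := by
  intro j hj f f₀ hf hf₀ hd
  exact h j hj f f₀ hf hf₀ fun x hx => by rw [hd x hx, dist_self]; exact hr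

theorem LP.toUV {r e : ℝ} (h : LP k g A K r e) : UV k g A K r e := by
  intro j hj y hy a ha hd
  exact h j hj (fun _ => y) a (IsMap.const hy) ha hd

/-- exact lifting gives lifting of close boundary data, uniformly in `g` -/
theorem L.toLP (hK : ULC k K) {ε : ℝ} (hε : 0 < ε) : ∃ r > 0,
    ∀ {β : Type v} [MetricSpace β] {A : Set β} {g : β → α} (_ : IsMap g A K) {d : ℝ},
      L k g A K d → LP k g A K r (d + ε) := by
  obtain ⟨r, hr, h⟩ := close_extend_Cu hK hε
  refine ⟨r, hr, ?_⟩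
  intro β _ A g hg d hL j hj f f₀ hf hf₀ hd
  obtain ⟨f₁, h1, h2, h3⟩ := h j hj f (fun x => g (f₀ x)) hf (hg.comp hf₀) hd
  obtain ⟨F, h4, h5, h6⟩ := hL j hj f₁ f₀ h1 hf₀ fun x hx => (h2 hx).symm
  refine ⟨F, h4, h5, fun x hx => ?_⟩
  have := h3 x hx
  have := h6 x hx
  have := dist_triangle (g (F x)) (f₁ x) (f x)
  linarith

/-- exact lifting gives the `UV`-property, uniformly in `g` -/
theorem L.toUV (hK : ULC k K) {ε : ℝ} (hε : 0 < ε) : ∃ r > 0,
    ∀ {β : Type v} [MetricSpace β] {A : Set β} {g : β → α} (_ : IsMap g A K) {d : ℝ},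
      L k g A K d → UV k g A K r (d + ε) := by
  obtain ⟨r, hr, h⟩ := L.toLP.{u, v} hK hε
  exact ⟨r, hr, fun hg _ hL => (h hg hL).toUV⟩

/-- **Lifting over cubical pairs** from a chain of `UV`-properties, for any function `g`. -/
theorem lift_cub_uv {s u : ℕ → ℝ} {η : ℝ} (hUV : ∀ i ≤ k, UV k g A K (s i) (u i))
    (hmono : ∀ i ≤ k, s i ≤ s (i + 1)) (hη : ∀ i ≤ k, u i + 2 * η ≤ s (i + 1))
    {N m : ℕ} (hm : 0 < m) {P P₀ : Set (Fin N → ℝ)} (hP : IsCub m P) (hP₀ : IsCub m P₀)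
    (hsub : P₀ ⊆ P) (hdim : ∀ x ∈ P, x ∉ P₀ → dm (car m x) ≤ k) {f : (Fin N → ℝ) → α}
    (hf : MapsTo f P K) (hosc : Osc m P f η) {f₀ : (Fin N → ℝ) → β} (hf₀ : IsMap f₀ P₀ A)
    (hd : ∀ x ∈ P₀, dist (g (f₀ x)) (f x) < s 0 - η) :
    ∃ F : (Fin N → ℝ) → β, IsMap F P A ∧ EqOn F f₀ P₀ ∧
      ∀ x ∈ P, dist (g (F x)) (f x) < s (k + 1) - η := by
  refine cub_extend hm hP hP₀ hsub hdim hf₀ (fun i x y => dist (g y) (f x) < s i - η) hd
    (fun i hi x _ y hy => by
      have := hmono i hi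
      linarith) ?_
  rintro w hw hwP ⟨x₀, hx₀, hx₀', hwx⟩ φ hφ hφd
  have hosc' : ∀ x ∈ cube m w, dist (f x) (f x₀) < η := by
    intro x hx
    rw [dist_comm]
    exact hosc x₀ hx₀ x (hwx ▸ hx)
  obtain ⟨G, h1, h2, h3⟩ := hUV (dm w) hw (dm w) hw (f x₀) (hf hx₀) φ hφ (by
    intro t ht
    have h4 := hφd t ht
    have h5 := hosc' _ (emb_mem hm (dCu_subset _ ht))
    have h6 := dist_triangle (g (φ t)) (f (emb m w t)) (f x₀)
    linarith)
  refine ⟨G, h1, h2, fun t ht => ?_⟩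
  have h4 := h3 t ht
  have h5 := hosc' _ (emb_mem hm ht)
  rw [dist_comm] at h5
  have h6 := dist_triangle (g (G t)) (f x₀) (f (emb m w t))
  have h7 := hη (dm w) hw
  show dist (g (G t)) (f (emb m w t)) < s (dm w + 1) - η
  linarith

/-- lifting over cubical pairs of a map `f`, from a chain of `UV`-properties with strict
inequalities; any function `g` -/
theorem lift_cub_uv' {s u : ℕ → ℝ} {r e : ℝ} (hUV : ∀ i ≤ k, UV k g A K (s i) (u i))
    (hmono : ∀ i ≤ k, s i ≤ s (i + 1)) (hu : ∀ i ≤ k, u i < s (i + 1)) (hr : r < s 0)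
    (he : s (k + 1) ≤ e)
    {N m : ℕ} (hm : 0 < m) {P P₀ : Set (Fin N → ℝ)} (hP : IsCub m P) (hP₀ : IsCub m P₀)
    (hsub : P₀ ⊆ P) (hdim : ∀ x ∈ P, x ∉ P₀ → dm (car m x) ≤ k) {f : (Fin N → ℝ) → α}
    (hf : IsMap f P K) {f₀ : (Fin N → ℝ) → β} (hf₀ : IsMap f₀ P₀ A)
    (hd : ∀ x ∈ P₀, dist (g (f₀ x)) (f x) < r) :
    ∃ F : (Fin N → ℝ) → β, IsMap F P A ∧ EqOn F f₀ P₀ ∧
      ∀ x ∈ P, dist (g (F x)) (f x) < e := by
  -- the margin
  obtain ⟨η, hη, hη0, hη1⟩ : ∃ η > 0, η ≤ s 0 - r ∧ ∀ i ≤ k, u i + 2 * η ≤ s (i + 1) := by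
    obtain ⟨i₀, hi₀, hmin⟩ := Finset.exists_min_image (Finset.range (k + 1))
      (fun i => s (i + 1) - u i) ⟨0, by simp⟩
    have hpos : 0 < s (i₀ + 1) - u i₀ := by
      have := hu i₀ (by have := Finset.mem_range.1 hi₀; omega)
      linarith
    refine ⟨min (s 0 - r) ((s (i₀ + 1) - u i₀) / 2), lt_min (by linarith) (by linarith),
      min_le_left _ _, fun i hi => ?_⟩
    have h1 := hmin i (Finset.mem_range.2 (by omega))
    have h2 := min_le_right (s 0 - r) ((s (i₀ + 1) - u i₀) / 2)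
    linarith
  obtain ⟨n, hn, hosc⟩ := (jump_of_continuousOn hP.isCompact hf.cont hη).osc hm hP
  obtain ⟨F, h1, h2, h3⟩ := lift_cub_uv hUV hmono hη1 (Nat.mul_pos hm hn) (hP.mul hn) (hP₀.mul hn)
    hsub (fun x hx hx0 => (dm_car_mul_le x).trans (hdim x hx hx0)) hf.maps hosc hf₀
    (fun x hx => (hd x hx).trans_le (by linarith))
  refine ⟨F, h1, h2, fun x hx => ?_⟩
  have := h3 x hx
  linarith

/-- `LP` from a chain of `UV`-properties, any function `g` -/
theorem LP.of_uv {s u : ℕ → ℝ} {r e : ℝ} (hUV : ∀ i ≤ k, UV k g A K (s i) (u i))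
    (hmono : ∀ i ≤ k, s i ≤ s (i + 1)) (hu : ∀ i ≤ k, u i < s (i + 1)) (hr : r < s 0)
    (he : s (k + 1) ≤ e) : LP k g A K r e := by
  intro j hj f f₀ hf hf₀ hd
  exact lift_cub_uv' hUV hmono hu hr he one_pos (isCub_Cu one_pos j) (isCub_dCu one_pos j)
    (dCu_subset j) (fun x _ _ => (dm_le _).trans hj) hf hf₀ hd

/-- small perturbation of `g` -/
theorem LP.perturb {r e c : ℝ} (h : LP k g A K r e) (hg : ∀ x ∈ A, dist (g' x) (g x) < c) :
    LP k g' A K (r - c) (e + c) := by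
  intro j hj f f₀ hf hf₀ hd
  obtain ⟨F, h1, h2, h3⟩ := h j hj f f₀ hf hf₀ (by
    intro x hx
    have h4 := hd x hx
    have h5 := hg _ (hf₀.maps hx)
    rw [dist_comm] at h5
    have h6 := dist_triangle (g (f₀ x)) (g' (f₀ x)) (f x)
    linarith)
  refine ⟨F, h1, h2, fun x hx => ?_⟩
  have h4 := h3 x hx
  have h5 := hg _ (h1.maps hx)
  have h6 := dist_triangle (g' (F x)) (g (F x)) (f x)
  linarith

/-- small perturbation of `g`, `UV` -/
theorem UV.perturb {t t' c : ℝ} (h : UV k g A K t t') (hg : ∀ x ∈ A, dist (g' x) (g x) < c) :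
    UV k g' A K (t - c) (t' + c) := by
  intro j hj y hy a ha hd
  obtain ⟨F, h1, h2, h3⟩ := h j hj y hy a ha (by
    intro x hx
    have h4 := hd x hx
    have h5 := hg _ (ha.maps hx)
    rw [dist_comm] at h5
    have h6 := dist_triangle (g (a x)) (g' (a x)) y
    linarith)
  refine ⟨F, h1, h2, fun x hx => ?_⟩
  have h4 := h3 x hx
  have h5 := hg _ (h1.maps hx)
  have h6 := dist_triangle (g' (F x)) (g (F x)) y
  linarith

/-- `g'` any function close to a map with exact lifting property -/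
theorem L.toLP_perturb (hK : ULC k K) {ε : ℝ} (hε : 0 < ε) : ∃ r > 0,
    ∀ {β : Type v} [MetricSpace β] {A : Set β} {g g' : β → α} (_ : IsMap g A K) {d : ℝ},
      L k g A K d → (∀ x ∈ A, dist (g' x) (g x) < r) → LP k g' A K r (d + ε) := by
  obtain ⟨r, hr, h⟩ := L.toLP.{u, v} hK (half_pos hε)
  refine ⟨min (r / 2) (ε / 2), by positivity, ?_⟩
  intro β _ A g g' hg d hL hgg
  have h1 := (h hg hL).perturb hgg
  refine h1.mono ?_ ?_
  · have := min_le_left (r / 2) (ε / 2)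
    linarith
  · have := min_le_right (r / 2) (ε / 2)
    linarith

/-- stability of the exact lifting property -/
theorem L.perturb (hK : ULC k K) {ε : ℝ} (hε : 0 < ε) : ∃ r > 0,
    ∀ {β : Type v} [MetricSpace β] {A : Set β} {g g' : β → α} (_ : IsMap g A K) {d : ℝ},
      L k g A K d → (∀ x ∈ A, dist (g' x) (g x) < r) → L k g' A K (d + ε) := by
  obtain ⟨r, hr, h⟩ := L.toLP_perturb.{u, v} hK hε
  exact ⟨r, hr, fun hg _ hL hgg => (h hg hL hgg).toL hr⟩

/-- **Composition**: `h : K → X` any function, with oscillation `< c` at scale `e` on `K` -/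
theorem LP.comp {h : α → γ} {X : Set γ} {a b c e : ℝ} (hh : LP k h K X a b) (hg : IsMap g A K)
    (hL : L k g A K e) (hc : ∀ x ∈ K, ∀ y ∈ K, dist x y < e → dist (h x) (h y) < c) :
    LP k (fun x => h (g x)) A X a (b + c) := by
  intro j hj f f₀ hf hf₀ hd
  obtain ⟨f₁, h1, h2, h3⟩ := hh j hj f (fun x => g (f₀ x)) hf (hg.comp hf₀) hd
  obtain ⟨F, h4, h5, h6⟩ := hL j hj f₁ f₀ h1 hf₀ fun x hx => (h2 hx).symm
  refine ⟨F, h4, h5, fun x hx => ?_⟩
  have h7 := hc _ (hg.maps (h4.maps hx)) _ (h1.maps hx) (h6 x hx)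
  have h8 := h3 x hx
  have h9 := dist_triangle (h (g (F x))) (h (f₁ x)) (f x)
  show dist (h (g (F x))) (f x) < b + c
  linarith

theorem L.comp {h : α → γ} {X : Set γ} {b c e : ℝ} (hh : L k h K X b) (hg : IsMap g A K)
    (hL : L k g A K e) (hc : ∀ x ∈ K, ∀ y ∈ K, dist x y < e → dist (h x) (h y) < c) :
    L k (fun x => h (g x)) A X (b + c) := by
  intro j hj f f₀ hf hf₀ hd
  obtain ⟨f₁, h1, h2, h3⟩ := hh j hj f (fun x => g (f₀ x)) hf (hg.comp hf₀) hd
  obtain ⟨F, h4, h5, h6⟩ := hL j hj f₁ f₀ h1 hf₀ fun x hx => (h2 hx).symm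
  refine ⟨F, h4, h5, fun x hx => ?_⟩
  have h7 := hc _ (hg.maps (h4.maps hx)) _ (h1.maps hx) (h6 x hx)
  have h8 := h3 x hx
  have h9 := dist_triangle (h (g (F x))) (h (f₁ x)) (f x)
  show dist (h (g (F x))) (f x) < b + c
  linarith

/-- composition, `h` a map of a compact set -/
theorem L.comp' {h : α → γ} {X : Set γ} {b ε : ℝ} (hK : IsCompact K) (hm : IsMap h K X)
    (hh : L k h K X b) (hε : 0 < ε) : ∃ e > 0,
    ∀ {β : Type v} [MetricSpace β] {A : Set β} {g : β → α} (_ : IsMap g A K),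
      L k g A K e → L k (fun x => h (g x)) A X (b + ε) := by
  have h1 := hK.uniformContinuousOn_of_continuous hm.cont
  rw [Metric.uniformContinuousOn_iff] at h1
  obtain ⟨e, he, h1⟩ := h1 ε hε
  exact ⟨e, he, fun hg hL => hh.comp hg hL fun x hx y hy => h1 x hx y hy⟩

/-- the identity lifts -/
theorem LP.id (K : Set α) (hK : ULC k K) {ε : ℝ} (hε : 0 < ε) :
    ∃ r > 0, LP k (fun x => x) K K r ε := by
  obtain ⟨r, hr, h⟩ := close_extend_Cu hK hε
  exact ⟨r, hr, fun j hj f f₀ hf hf₀ hd => h j hj f f₀ hf hf₀ hd⟩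

theorem L.id (K : Set α) {ε : ℝ} (hε : 0 < ε) : L k (fun x => x) K K ε := by
  intro j hj f f₀ hf hf₀ hd
  exact ⟨f, hf, fun x hx => (hd x hx).symm, fun x _ => by rw [dist_self]; exact hε⟩

/-- **Chain of constants**, depending on `K` and `ε` only. -/
theorem lp_chain (hK : ULC k K) (n : ℕ) {ε : ℝ} (hε : 0 < ε) : ∃ s : ℕ → ℝ, 0 < s 0 ∧ s n = ε ∧
    (∀ i < n, s i ≤ s (i + 1) / 4) ∧ (∀ i ≤ n, s 0 ≤ s i) ∧
    ∀ {β : Type v} [MetricSpace β] {A : Set β} {g : β → α} (_ : IsMap g A K),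
      L k g A K (s 0) → ∀ i < n, LP k g A K (s i) (s (i + 1) / 2) := by
  induction n generalizing ε with
  | zero =>
    refine ⟨fun _ => ε, hε, rfl, fun i hi => absurd hi (by omega), fun i _ => le_rfl, ?_⟩
    intro β _ A g _ _ i hi
    exact absurd hi (by omega)
  | succ n ih =>
    obtain ⟨r, hr, h⟩ := L.toLP.{u, v} hK (ε := ε / 4) (by positivity)
    obtain ⟨s, h0, hn, h1, h2, h3⟩ := ih (ε := min r (ε / 4)) (by positivity)
    refine ⟨fun i => if i ≤ n then s i else ε, by simpa using h0, by simp, ?_, ?_, ?_⟩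
    · intro i hi
      rcases Nat.lt_or_ge i n with hin | hin
      · simp only [show i ≤ n by omega, show i + 1 ≤ n by omega, if_true]
        exact h1 i hin
      · have : i = n := by omega
        subst this
        simp only [le_refl, if_true, show ¬ i + 1 ≤ i by omega, if_false]
        rw [hn]
        exact min_le_right _ _
    · intro i hi
      rcases Nat.lt_or_ge n i with hin | hin
      · simp only [Nat.zero_le, if_true, show ¬ i ≤ n by omega, if_false]
        have h4 := h2 n le_rfl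
        rw [hn] at h4
        have h5 := min_le_right r (ε / 4)
        linarith
      · simp only [Nat.zero_le, if_true, hin]
        exact h2 i hin
    · intro β _ A g hg hL i hi
      simp only [Nat.zero_le, if_true] at hL
      rcases Nat.lt_or_ge i n with hin | hin
      · simp only [show i ≤ n by omega, show i + 1 ≤ n by omega, if_true]
        exact h3 hg hL i hin
      · have : i = n := by omega
        subst this
        simp only [le_refl, if_true, show ¬ i + 1 ≤ i by omega, if_false]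
        rw [hn]
        have h4 := h2 i le_rfl
        rw [hn] at h4
        refine (h hg hL).mono (min_le_left _ _) ?_
        have h5 := min_le_right r (ε / 4)
        linarith

/-- **LIFTING over cubical pairs**, for maps `g` with `L k g A K d`, uniformly in `g` and in the
pair. -/
theorem lift_cub_pair (hK : ULC k K) {ε : ℝ} (hε : 0 < ε) : ∃ d > 0,
    ∀ {β : Type v} [MetricSpace β] {A : Set β} {g : β → α} (_ : IsMap g A K) (_ : L k g A K d)
      {N m : ℕ} (_ : 0 < m) {P P₀ : Set (Fin N → ℝ)} (_ : IsCub m P) (_ : IsCub m P₀)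
      (_ : P₀ ⊆ P) (_ : ∀ x ∈ P, x ∉ P₀ → dm (car m x) ≤ k) {f : (Fin N → ℝ) → α}
      (_ : IsMap f P K) {f₀ : (Fin N → ℝ) → β} (_ : IsMap f₀ P₀ A)
      (_ : ∀ x ∈ P₀, dist (g (f₀ x)) (f x) < d),
      ∃ F : (Fin N → ℝ) → β, IsMap F P A ∧ EqOn F f₀ P₀ ∧ ∀ x ∈ P, dist (g (F x)) (f x) < ε := by
  obtain ⟨s, h0, hn, h1, h2, h3⟩ := lp_chain.{u, v} hK (k + 1) hε
  refine ⟨s 0 / 2, by positivity, ?_⟩
  intro β _ A g hg hL N m hm P P₀ hP hP₀ hsub hdim f hf f₀ hf₀ hd
  have h4 := h3 hg (hL.mono (by linarith))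
  have hpos : ∀ i ≤ k + 1, 0 < s i := fun i hi => h0.trans_le (h2 i hi)
  refine lift_cub_uv' (s := s) (u := fun i => s (i + 1) / 2) (r := s 0 / 2)
    (fun i hi => (h4 i (by omega)).toUV) ?_ ?_ (by linarith) (le_of_eq hn) hm hP hP₀ hsub hdim
    hf hf₀ hd
  · intro i hi
    have h5 := h1 i (by omega)
    have h6 := hpos (i + 1) (by omega)
    linarith
  · intro i hi
    have h6 := hpos (i + 1) (by omega)
    show s (i + 1) / 2 < s (i + 1)
    linarith

end

end MG
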