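import Pool.Agent.Work.MP_017613_gt.Kit.Discr
import Pool.Agent.Work.MP_017613_gt.Coarse

/-!
# Domination by finite cubical complexes of dimension `≤ k`

`factor`: functions `h : P → X` with small jumps (`P` compact, `PushOff k P`, `X` is `ULC k`) are
close to `s ∘ q`, where `q : P → K` has small fibres, `K` is a `k`-dimensional cubical set and
`s : K → X` is continuous. `domin`: the case `P = X`, `h = id`.
-/

open Set Topology Metric
open Pool.Agent.Work.MP_017613_gt (PushOff)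

namespace MG

universe u v

variable {β : Type v} [MetricSpace β]

/-- **Factorisation.** For a function `h : P → X` with small jumps, `X` being `ULC k`, there are a
continuous `q` from `P` to a `k`-dimensional cubical set `K` with small fibres and a continuous
`s : K → X` with `s ∘ q` close to `h`. -/
theorem factor [Nonempty β] {k : ℕ} {X : Set β} (hX : ULC k X) {ε : ℝ} (hε : 0 < ε) : ∃ δ > 0,
    ∀ (γ : Type u) [MetricSpace γ] (P : Set γ), IsCompact P → PushOff k P →
    ∀ h : γ → β, MapsTo h P X →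
    (∃ ρ > 0, ∀ x ∈ P, ∀ y ∈ P, dist x y < ρ → dist (h x) (h y) < δ) → ∀ r > 0,
    ∃ (N m : ℕ) (_ : 0 < m) (q : γ → Fin N → ℝ) (K : Set (Fin N → ℝ)) (s : (Fin N → ℝ) → β),
      ContinuousOn q P ∧ IsCub m K ∧ (∀ z ∈ K, dm (car m z) ≤ k) ∧ MapsTo q P K ∧
      (∀ x ∈ P, ∀ y ∈ P, dist (q x) (q y) ≤ 3 / m → dist x y < r) ∧
      IsMap s K X ∧ (∀ x ∈ P, dist (s (q x)) (h x) < ε) ∧
      ∀ z ∈ K, ∃ x ∈ P, z ∈ cube m (car m (q x)) ∧ dist (s z) (h x) < ε := by
  obtain ⟨δ, hδ, hc⟩ := coarse hX (show (0:ℝ) < ε / 2 by positivity)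
  refine ⟨min δ (ε / 2), by positivity, ?_⟩
  intro γ _ P cP hP h hh hj r hr
  obtain ⟨ρ, hρ, hj⟩ := hj
  obtain ⟨N, m, hm, q, K, cq, hK, hd, hq, hxs, hfib⟩ := discr cP hP (show 0 < min ρ r by positivity)
  have hfib' : ∀ x ∈ P, ∀ y ∈ P, dist (q x) (q y) ≤ 3 / m → dist (h x) (h y) < min δ (ε / 2) :=
    fun x hx y hy hxy => hj x hx y hy ((hfib x hx y hy hxy).trans_le (min_le_left _ _))
  rcases P.eq_empty_or_nonempty with rfl | ⟨x₀, hx₀⟩
  · have hKe : K = ∅ := by
      rw [eq_empty_iff_forall_notMem]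
      intro z hz
      obtain ⟨x, hx, _⟩ := hxs z hz
      exact hx
    subst hKe
    obtain ⟨b₀⟩ := ‹Nonempty β›
    exact ⟨N, m, hm, q, ∅, fun _ => b₀, cq, hK, hd, hq, by simp, IsMap.empty, by simp, by simp⟩
  · have hsel : ∀ z, ∃ x ∈ P, z ∈ K → z ∈ cube m (car m (q x)) := by
      intro z
      by_cases hz : z ∈ K
      · obtain ⟨x, hx, hzx⟩ := hxs z hz
        exact ⟨x, hx, fun _ => hzx⟩
      · exact ⟨x₀, hx₀, fun h => (hz h).elim⟩
    choose xs hxP hxz using hsel
    have hosc : Osc m K (fun z => h (xs z)) δ := by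
      intro z hz y hy
      have hyK : y ∈ K := hK.sat z hz hy
      have h1 : dist (q (xs z)) z ≤ 1 / m :=
        dist_le_of_mem_cube hm (mem_cube_car m _) (hxz z hz)
      have h2 : dist z y ≤ 1 / m := dist_le_of_mem_cube hm (mem_cube_car m _) hy
      have h3 : dist y (q (xs y)) ≤ 1 / m :=
        dist_le_of_mem_cube hm (hxz y hyK) (mem_cube_car m _)
      have h4 := dist_triangle4 (q (xs z)) z y (q (xs y))
      have h5 : 1 / (m:ℝ) + 1 / m + 1 / m = 3 / m := by ring
      exact (hfib' _ (hxP z) _ (hxP y) (by linarith)).trans_le (min_le_left _ _)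
    obtain ⟨s, hs, _, hsd⟩ := hc hm hK (IsCub.empty m) (empty_subset K) (fun x hx _ => hd x hx)
      (fun z => h (xs z)) (fun z _ => hh (hxP z)) (continuousOn_empty _) hosc
    refine ⟨N, m, hm, q, K, s, cq, hK, hd, hq, ?_, hs, ?_, ?_⟩
    · exact fun x hx y hy hxy => (hfib x hx y hy hxy).trans_le (min_le_right _ _)
    · intro x hx
      have h1 := hsd (q x) (hq hx)
      have h2 : dist (q (xs (q x))) (q x) ≤ 1 / m :=
        dist_le_of_mem_cube hm (mem_cube_car m _) (hxz _ (hq hx))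
      have h3 : 1 / (m:ℝ) ≤ 3 / m := by
        apply div_le_div_of_nonneg_right (by norm_num) (by positivity)
      have h4 := (hfib' _ (hxP (q x)) x hx (h2.trans h3)).trans_le (min_le_right _ _)
      have h5 := dist_triangle (s (q x)) (h (xs (q x))) (h x)
      beta_reduce at h1
      linarith
    · intro z hz
      refine ⟨xs z, hxP z, hxz z hz, ?_⟩
      have h1 := hsd z hz
      beta_reduce at h1
      linarith

/-- **Domination.** A compact `ULC k` space `X` with `PushOff k X` is `ε`-dominated by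
`k`-dimensional cubical sets. -/
theorem domin [Nonempty β] {k : ℕ} {X : Set β} (cX : IsCompact X) (dX : PushOff k X)
    (hX : ULC k X) {ε : ℝ} (hε : 0 < ε) :
    ∃ (N m : ℕ) (_ : 0 < m) (q : β → Fin N → ℝ) (K : Set (Fin N → ℝ)) (s : (Fin N → ℝ) → β),
      ContinuousOn q X ∧ IsCub m K ∧ (∀ z ∈ K, dm (car m z) ≤ k) ∧ MapsTo q X K ∧
      IsMap s K X ∧ ∀ x ∈ X, dist (s (q x)) x < ε := by
  obtain ⟨δ, hδ, hf⟩ := factor.{v, v} hX hε
  obtain ⟨N, m, hm, q, K, s, cq, hK, hd, hq, _, hs, hsd, _⟩ :=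
    hf β X cX dX (fun x => x) (fun x hx => hx) ⟨δ, hδ, fun x _ y _ h => h⟩ 1 one_pos
  exact ⟨N, m, hm, q, K, s, cq, hK, hd, hq, hs, hsd⟩

end MG
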