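import Pool.Agent.Work.MP_017613_gt.Kit.CollarSet
import Pool.Agent.Work.MP_017613_gt.T6Kit

/-!
# MENGER toolkit: attaching cells preserves uniform local connectivity

* `Fam.collar`: a compact neighbourhood `V'` of `K` in `V` shrinks to `K`, rel `K`, small tracks.
* `Fam.ulc`, `Layer.ulc` (L3): `V` is `ULC` when `K` and the model are.
-/

open Set Metric Topology

namespace MG

section

variable {ε α ι ζ : Type*} [TopologicalSpace ε] [TopologicalSpace α] [TopologicalSpace ζ]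
  {B A : Set ε} {K V : Set α} {χ : ι → ε → α}

/-- a smaller model -/
theorem Fam.sub (h : Fam B A K V χ) {B' : Set ε} (hB' : B' ⊆ B) :
    Fam B' A K (K ∪ ⋃ i, χ i '' B') χ :=
  ⟨fun i => (h.cont i).mono hB', h.bdry, fun i x hx hxA => h.off i x (hB' hx) hxA,
    fun i i' x x' hx hxA hx' hx'A => h.inj i i' x x' (hB' hx) hxA (hB' hx') hx'A, rfl⟩

/-- product with a fixed set -/
theorem Fam.prodRight (h : Fam B A K V χ) (I : Set ζ) :
    Fam (B ×ˢ I) (A ×ˢ I) (K ×ˢ I) (V ×ˢ I) (fun i (p : ε × ζ) => (χ i p.1, p.2)) := by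
  refine ⟨fun i => ?_, ?_, ?_, ?_, ?_⟩
  · exact ((h.cont i).comp continuousOn_fst fun p hp => hp.1).prodMk continuousOn_snd
  · rintro i ⟨x, t⟩ ⟨hx, ht⟩
    exact ⟨h.bdry i hx, ht⟩
  · rintro i ⟨x, t⟩ ⟨hx, ht⟩ hxA ⟨hK, -⟩
    exact h.off i x hx (fun hxA' => hxA ⟨hxA', ht⟩) hK
  · rintro i i' ⟨x, t⟩ ⟨x', t'⟩ ⟨hx, ht⟩ hxA ⟨hx', ht'⟩ hx'A heq
    simp only [Prod.mk.injEq] at heq
    obtain ⟨h1, h2⟩ := h.inj i i' x x' hx (fun h' => hxA ⟨h', ht⟩) hx'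
      (fun h' => hx'A ⟨h', ht'⟩) heq.1
    exact ⟨h1, by rw [h2, heq.2]⟩
  · ext ⟨y, t⟩
    simp only [mem_prod, mem_union, mem_iUnion, mem_image, Prod.exists, Prod.mk.injEq]
    constructor
    · rintro ⟨hy, ht⟩
      rw [h.union] at hy
      rcases hy with hy | hy
      · exact Or.inl ⟨hy, ht⟩
      · obtain ⟨i, x, hx, rfl⟩ := mem_iUnion.1 hy
        exact Or.inr ⟨i, x, t, ⟨hx, ht⟩, rfl, rfl⟩
    · rintro (⟨hy, ht⟩ | ⟨i, x, t', ⟨hx, ht⟩, rfl, rfl⟩)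
      · exact ⟨h.subset hy, ht⟩
      · exact ⟨h.maps i hx, ht⟩

end

section

variable {ε α ι : Type*} [MetricSpace ε] [MetricSpace α] [Finite ι]
  {B A : Set ε} {K V : Set α} {χ : ι → ε → α}

/-- uniform continuity of finitely many characteristic maps -/
theorem Fam.unif (h : Fam B A K V χ) (hB : IsCompact B) {e : ℝ} (he : 0 < e) :
    ∃ δ > 0, ∀ i, ∀ x ∈ B, ∀ x' ∈ B, dist x x' < δ → dist (χ i x) (χ i x') < e := by
  classical
  have := Fintype.ofFinite ι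
  have h1 : ∀ i, ∃ δ > 0, ∀ x ∈ B, ∀ x' ∈ B, dist x x' < δ → dist (χ i x) (χ i x') < e := by
    intro i
    have := hB.uniformContinuousOn_of_continuous (h.cont i)
    rw [Metric.uniformContinuousOn_iff] at this
    exact this e he
  choose δ hδ hδ' using h1
  rcases isEmpty_or_nonempty ι with hι | hι
  · exact ⟨1, one_pos, fun i => (hι.false i).elim⟩
  · obtain ⟨i0, hi0⟩ := Finite.exists_min δ
    exact ⟨δ i0, hδ i0, fun i x hx x' hx' hd => hδ' i x hx x' hx' (hd.trans_le (hi0 i))⟩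

/-- a deformation of the model pair gives a deformation of the attached space -/
theorem Fam.glueDef (h : Fam B A K V χ) (hK : IsClosed K) {B' : Set ε}
    (hB' : IsCompact B') (hB'B : B' ⊆ B) {D : ε × ℝ → ε} (hD : IsMap D (B' ×ˢ Icc (0 : ℝ) 1) B)
    (hD0 : ∀ x ∈ B', D (x, 0) = x) (hD1 : ∀ x ∈ B', D (x, 1) ∈ A)
    (hDA : ∀ x ∈ A, ∀ t ∈ Icc (0 : ℝ) 1, D (x, t) = x) :
    ∃ F : α × ℝ → α, IsMap F ((K ∪ ⋃ i, χ i '' B') ×ˢ Icc (0 : ℝ) 1) V ∧
      (∀ v ∈ K, ∀ t ∈ Icc (0 : ℝ) 1, F (v, t) = v) ∧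
      (∀ i, ∀ x ∈ B', ∀ t ∈ Icc (0 : ℝ) 1, F (χ i x, t) = χ i (D (x, t))) ∧
      (∀ v ∈ K ∪ ⋃ i, χ i '' B', F (v, 0) = v) ∧ ∀ v ∈ K ∪ ⋃ i, χ i '' B', F (v, 1) ∈ K := by
  have hI : IsCompact (Icc (0 : ℝ) 1) := isCompact_Icc
  have hf := h.sub hB'B
  obtain ⟨F, hF, hF0, hF1⟩ := (hf.prodRight (Icc (0 : ℝ) 1)).glueMap (hB'.prod hI)
    (hK.prod isClosed_Icc) (T := V) (F0 := fun p => p.1)
    (G := fun i p => χ i (D p)) ⟨continuousOn_fst, fun p hp => h.subset hp.1⟩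
    (fun i => (h.isMap i).comp hD) (by
      rintro i ⟨x, t⟩ ⟨hx, ht⟩
      show χ i (D (x, t)) = χ i x
      rw [hDA x hx t ht])
  have hrep : ∀ v ∈ K ∪ ⋃ i, χ i '' B', v ∈ K ∨ ∃ i, ∃ x ∈ B', χ i x = v := by
    rintro v (hv | hv)
    · exact Or.inl hv
    · obtain ⟨i, x, hx, hxv⟩ := mem_iUnion.1 hv
      exact Or.inr ⟨i, x, hx, hxv⟩
  have hFK : ∀ v ∈ K, ∀ t ∈ Icc (0 : ℝ) 1, F (v, t) = v := fun v hv t ht => hF0 ⟨hv, ht⟩
  have hFχ : ∀ i, ∀ x ∈ B', ∀ t ∈ Icc (0 : ℝ) 1, F (χ i x, t) = χ i (D (x, t)) :=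
    fun i x hx t ht => hF1 i (x, t) ⟨hx, ht⟩
  have h0 : (0 : ℝ) ∈ Icc (0 : ℝ) 1 := ⟨le_rfl, zero_le_one⟩
  have h1 : (1 : ℝ) ∈ Icc (0 : ℝ) 1 := ⟨zero_le_one, le_rfl⟩
  refine ⟨F, hF, hFK, hFχ, ?_, ?_⟩
  · intro v hv
    rcases hrep v hv with hv | ⟨i, x, hx, rfl⟩
    · exact hFK v hv 0 h0
    · rw [hFχ i x hx 0 h0, hD0 x hx]
  · intro v hv
    rcases hrep v hv with hv | ⟨i, x, hx, rfl⟩
    · rw [hFK v hv 1 h1]; exact hv
    · rw [hFχ i x hx 1 h1]; exact h.bdry i (hD1 x hx)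

/-- a compact neighbourhood of `K` in `V` shrinks to `K` with small tracks -/
theorem Fam.collar (h : Fam B A K V χ) (hB : IsCompact B)
    (hK : IsCompact K) (hc : Coll B A) {e : ℝ} (he : 0 < e) :
    ∃ (V' : Set α) (F : α × ℝ → α), IsCompact V' ∧ K ⊆ V' ∧ V' ⊆ V ∧
      IsMap F (V' ×ˢ Icc (0 : ℝ) 1) V ∧ (∀ v ∈ V', F (v, 0) = v) ∧ (∀ v ∈ V', F (v, 1) ∈ K) ∧
      (∀ v ∈ K, ∀ t ∈ Icc (0 : ℝ) 1, F (v, t) = v) ∧
      (∀ v ∈ V', ∀ t ∈ Icc (0 : ℝ) 1, dist (F (v, t)) v < e) ∧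
      ∃ ρ > 0, ∀ v ∈ V, ∀ z ∈ K, dist v z < ρ → v ∈ V' := by
  obtain ⟨κ, hκ, hκ'⟩ := h.unif hB he
  obtain ⟨B', C0, D, hB', hAB', hC0, hC0A, hBB, hD, hD0, hD1, hDA, hDκ⟩ := hc κ hκ
  have hB'B : B' ⊆ B := by rw [hBB]; exact subset_union_left
  have hC0B : C0 ⊆ B := by rw [hBB]; exact subset_union_right
  have hf := h.sub hB'B
  obtain ⟨F, hF, hFK, hFχ, hF0, hF1⟩ := h.glueDef hK.isClosed hB' hB'B hD hD0 hD1 hDA
  have hrep : ∀ v ∈ K ∪ ⋃ i, χ i '' B', v ∈ K ∨ ∃ i, ∃ x ∈ B', χ i x = v := by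
    rintro v (hv | hv)
    · exact Or.inl hv
    · obtain ⟨i, x, hx, hxv⟩ := mem_iUnion.1 hv
      exact Or.inr ⟨i, x, hx, hxv⟩
  refine ⟨K ∪ ⋃ i, χ i '' B', F, hf.isCompact hB' hK, subset_union_left, ?_, hF, hF0, hF1, hFK, ?_,
    ?_⟩
  · intro v hv
    rcases hrep v hv with hv | ⟨i, x, hx, rfl⟩
    · exact h.subset hv
    · exact h.maps i (hB'B hx)
  · intro v hv t ht
    rcases hrep v hv with hv | ⟨i, x, hx, rfl⟩
    · rw [hFK v hv t ht, dist_self]; exact he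
    · rw [hFχ i x hx t ht]
      exact hκ' i _ (hD.maps ⟨hx, ht⟩) _ (hB'B hx) (hDκ x hx t ht)
  · -- the rest of `V` is at positive distance from `K`
    have hc2 : IsCompact (⋃ i, χ i '' C0) :=
      isCompact_iUnion fun i => hC0.image_of_continuousOn ((h.cont i).mono hC0B)
    have hdisj : Disjoint K (⋃ i, χ i '' C0) := by
      rw [Set.disjoint_left]
      intro v hv hv'
      obtain ⟨i, x, hx, rfl⟩ := mem_iUnion.1 hv'
      exact h.off i x (hC0B hx) (hC0A x hx) hv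
    obtain ⟨ρ, hρ, hρ'⟩ := exists_pos_forall_lt_edist hK hc2.isClosed hdisj
    refine ⟨ρ, hρ, fun v hv z hz hd => ?_⟩
    by_cases hvK : v ∈ K
    · exact Or.inl hvK
    · obtain ⟨i, x, hx, -, rfl⟩ := h.exists_rep hv hvK
      rw [hBB] at hx
      rcases hx with hx | hx
      · exact Or.inr (mem_iUnion.2 ⟨i, x, hx, rfl⟩)
      · exfalso
        have h2 := hρ' z hz (χ i x) (mem_iUnion.2 ⟨i, x, hx, rfl⟩)
        rw [edist_comm, edist_nndist] at h2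
        have h3 : ρ < nndist (χ i x) z := by exact_mod_cast h2
        have h4 : (ρ : ℝ) < dist (χ i x) z := by rw [← coe_nndist]; exact_mod_cast h3
        linarith

/-- the characteristic maps, away from `K`, have a uniformly continuous inverse -/
theorem Fam.inv_unif (h : Fam B A K V χ) (hB : IsCompact B) {ρ σ : ℝ} (hρ : 0 < ρ)
    (hσ : 0 < σ) : ∃ δ > 0, ∀ i i', ∀ x ∈ B, ∀ x' ∈ B, (∀ z ∈ K, ρ ≤ dist (χ i x) z) →
      (∀ z ∈ K, ρ ≤ dist (χ i' x') z) → dist (χ i x) (χ i' x') < δ → i = i' ∧ dist x x' < σ := by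
  classical
  have hAcl : ∀ i, ∀ x ∈ B, (∀ z ∈ K, ρ ≤ dist (χ i x) z) → x ∉ A := by
    intro i x _ hx' hxA
    have := hx' _ (h.bdry i hxA)
    rw [dist_self] at this
    linarith
  -- the set of points far from `K`
  have hcomp : ∀ i, IsCompact {x | x ∈ B ∧ ∀ z ∈ K, ρ ≤ dist (χ i x) z} := by
    intro i
    have : {x | x ∈ B ∧ ∀ z ∈ K, ρ ≤ dist (χ i x) z}
        = B ∩ χ i ⁻¹' {v | ∀ z ∈ K, ρ ≤ dist v z} := rfl
    rw [this]
    refine hB.of_isClosed_subset ?_ inter_subset_left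
    refine (h.cont i).preimage_isClosed_of_isClosed hB.isClosed ?_
    have h2 : {v : α | ∀ z ∈ K, ρ ≤ dist v z} = ⋂ z ∈ K, {v | ρ ≤ dist v z} := by
      ext v; simp
    rw [h2]
    exact isClosed_biInter fun z _ => isClosed_le continuous_const (continuous_id.dist continuous_const)
  have key : ∀ i i', ∃ δ > 0, ∀ x ∈ B, ∀ x' ∈ B, (∀ z ∈ K, ρ ≤ dist (χ i x) z) →
      (∀ z ∈ K, ρ ≤ dist (χ i' x') z) → dist (χ i x) (χ i' x') < δ → i = i' ∧ dist x x' < σ := by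
    intro i i'
    by_contra hcon
    push Not at hcon
    let C : Set (ε × ε) := ({x | x ∈ B ∧ ∀ z ∈ K, ρ ≤ dist (χ i x) z} ×ˢ
      {x | x ∈ B ∧ ∀ z ∈ K, ρ ≤ dist (χ i' x) z}) ∩ {p | i = i' → σ ≤ dist p.1 p.2}
    have hC : IsCompact C := by
      refine ((hcomp i).prod (hcomp i')).inter_right ?_
      by_cases hii : i = i'
      · simp only [hii, true_imp_iff]
        exact isClosed_le continuous_const (continuous_fst.dist continuous_snd)
      · simp only [hii, false_imp_iff]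
        exact isClosed_univ
    have hCne : C.Nonempty := by
      obtain ⟨x, hx, x', hx', h1, h2, -, h4⟩ := hcon 1 one_pos
      exact ⟨(x, x'), ⟨⟨hx, h1⟩, ⟨hx', h2⟩⟩, h4⟩
    have hcont : ContinuousOn (fun p : ε × ε => dist (χ i p.1) (χ i' p.2)) C := by
      have h5 : ContinuousOn (fun p : ε × ε => (χ i p.1, χ i' p.2)) C :=
        ((h.cont i).comp continuousOn_fst fun p hp => hp.1.1.1).prodMk
          ((h.cont i').comp continuousOn_snd fun p hp => hp.1.2.1)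
      exact continuous_dist.comp_continuousOn h5
    obtain ⟨p, hp, hmin⟩ := hC.exists_isMinOn hCne hcont
    have hpos : 0 < dist (χ i p.1) (χ i' p.2) := by
      rw [dist_pos]
      intro heq
      obtain ⟨h1, h2⟩ := h.inj i i' p.1 p.2 hp.1.1.1 (hAcl i _ hp.1.1.1 hp.1.1.2) hp.1.2.1
        (hAcl i' _ hp.1.2.1 hp.1.2.2) heq
      have := hp.2 h1
      rw [h2, dist_self] at this
      linarith
    obtain ⟨x, hx, x', hx', h1, h2, h3, h4⟩ := hcon _ hpos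
    have h5 : (x, x') ∈ C := ⟨⟨⟨hx, h1⟩, ⟨hx', h2⟩⟩, h4⟩
    have h6 : dist (χ i p.1) (χ i' p.2) ≤ dist (χ i x) (χ i' x') := hmin h5
    linarith
  choose δ hδ hδ' using key
  rcases isEmpty_or_nonempty ι with hι | hι
  · exact ⟨1, one_pos, fun i => (hι.false i).elim⟩
  · obtain ⟨i0, hi0⟩ := Finite.exists_min (fun p : ι × ι => δ p.1 p.2)
    exact ⟨δ i0.1 i0.2, hδ _ _, fun i i' x hx x' hx' h1 h2 hd =>
      hδ' i i' x hx x' hx' h1 h2 (hd.trans_le (hi0 (i, i')))⟩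

/-- (L3), general model -/
theorem Fam.ulc (h : Fam B A K V χ) (hB : IsCompact B)
    (hK : IsCompact K) (hc : Coll B A) {k : ℕ} (uB : ULC k B) (uK : ULC k K) : ULC k V := by
  classical
  intro e he
  obtain ⟨V', F, hV', hKV', hV'V, hF, hF0, hF1, hFK, hFe, ρ, hρ, hρ'⟩ :=
    h.collar hB hK hc (e := e / 4) (by positivity)
  have h1I : (1 : ℝ) ∈ Icc (0 : ℝ) 1 := ⟨zero_le_one, le_rfl⟩
  have h0I : (0 : ℝ) ∈ Icc (0 : ℝ) 1 := ⟨le_rfl, zero_le_one⟩
  -- near `K`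
  obtain ⟨δK, hδK, hUK⟩ := uK (e / 4) (by positivity)
  have hrc : ContinuousOn (fun v => F (v, 1)) V' :=
    hF.cont.comp (by fun_prop) fun v hv => ⟨hv, h1I⟩
  have huc := hV'.uniformContinuousOn_of_continuous hrc
  rw [Metric.uniformContinuousOn_iff] at huc
  obtain ⟨δ2, hδ2, hδ2'⟩ := huc δK hδK
  -- far from `K`
  obtain ⟨κ, hκ, hκ'⟩ := h.unif hB he
  obtain ⟨δB, hδB, hUB⟩ := uB κ hκ
  obtain ⟨δ3, hδ3, hδ3'⟩ := h.inv_unif hB (ρ := ρ / 4) (by positivity) hδB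
  refine ⟨min (min (ρ / 4) (e / 4)) (min δ2 δ3), by positivity, ?_⟩
  intro j hj y hy a ha hay
  have ha1 : ∀ x ∈ dCu j, dist (a x) y < ρ / 4 := fun x hx =>
    (hay x hx).trans_le ((min_le_left _ _).trans (min_le_left _ _))
  have ha2 : ∀ x ∈ dCu j, dist (a x) y < e / 4 := fun x hx =>
    (hay x hx).trans_le ((min_le_left _ _).trans (min_le_right _ _))
  have ha3 : ∀ x ∈ dCu j, dist (a x) y < δ2 := fun x hx =>
    (hay x hx).trans_le ((min_le_right _ _).trans (min_le_left _ _))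
  have ha4 : ∀ x ∈ dCu j, dist (a x) y < δ3 := fun x hx =>
    (hay x hx).trans_le ((min_le_right _ _).trans (min_le_right _ _))
  by_cases hnear : ∃ z ∈ K, dist y z < ρ / 2
  · -- push everything to `K`
    obtain ⟨z, hz, hyz⟩ := hnear
    have hyV' : y ∈ V' := hρ' y hy z hz (by linarith)
    have haV' : ∀ x ∈ dCu j, a x ∈ V' := fun x hx => hρ' _ (ha.maps hx) z hz (by
      have := dist_triangle (a x) y z
      have := ha1 x hx
      linarith)
    have ham : IsMap a (dCu j) V' := ⟨ha.cont, haV'⟩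
    have hra : IsMap (fun x => F (a x, 1)) (dCu j) K :=
      ⟨hrc.comp ham.cont ham.maps, fun x hx => hF1 _ (haV' x hx)⟩
    obtain ⟨G, hG, hGb, hGd⟩ := hUK j hj (F (y, 1)) (hF1 y hyV') _ hra (fun x hx =>
      hδ2' _ (haV' x hx) _ hyV' (ha3 x hx))
    have hHm : IsMap (fun p : (Fin j → ℝ) × ℝ => F (a p.1, p.2)) (dCu j ×ˢ Icc (0 : ℝ) 1) V := by
      have h2 : IsMap (fun p : (Fin j → ℝ) × ℝ => (a p.1, p.2)) (dCu j ×ˢ Icc (0 : ℝ) 1)
          (V' ×ˢ Icc (0 : ℝ) 1) :=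
        ⟨(ham.cont.comp continuousOn_fst fun p hp => hp.1).prodMk continuousOn_snd,
          fun p hp => ⟨haV' _ hp.1, hp.2⟩⟩
      exact hF.comp h2
    obtain ⟨E, hE, hEb, hEc⟩ := MG.collar (hG.right h.subset) hHm
      (fun x hx => (hGb hx).symm) one_pos
    refine ⟨E, hE, fun x hx => by rw [hEb x hx]; exact hF0 _ (haV' x hx), fun x hx => ?_⟩
    rcases hEc x hx with ⟨x', hx', t, ht, heq, -⟩ | ⟨x', hx', heq, -⟩
    · rw [heq]
      show dist (F (a x', t)) y < e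
      have h3 := hFe _ (haV' x' hx') t ht
      have h4 := ha2 x' hx'
      have h5 := dist_triangle (F (a x', t)) (a x') y
      linarith
    · rw [heq]
      have h3 := hGd x' hx'
      have h4 := hFe y hyV' 1 h1I
      have h5 := dist_triangle (G x') (F (y, 1)) y
      linarith
  · -- lift to the model
    push Not at hnear
    have hyK : y ∉ K := fun hyK => by
      have := hnear y hyK
      rw [dist_self] at this
      linarith
    obtain ⟨i0, y0, hy0, hy0A, rfl⟩ := h.exists_rep hy hyK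
    have hafar : ∀ x ∈ dCu j, ∀ z ∈ K, ρ / 4 ≤ dist (a x) z := fun x hx z hz => by
      have h3 := hnear z hz
      have h4 := ha1 x hx
      have h5 := dist_triangle_left (χ i0 y0) z (a x)
      linarith
    have hrep : ∀ x ∈ dCu j, ∃ b ∈ B, χ i0 b = a x ∧ dist b y0 < δB := by
      intro x hx
      have hxK : a x ∉ K := fun hxK => by
        have := hafar x hx _ hxK
        rw [dist_self] at this
        linarith
      obtain ⟨i, b, hb, hbA, hbx⟩ := h.exists_rep (ha.maps hx) hxK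
      obtain ⟨rfl, h2⟩ := hδ3' i i0 b hb y0 hy0 (by rw [hbx]; exact hafar x hx)
        (fun z hz => by have := hnear z hz; linarith) (by rw [hbx]; exact ha4 x hx)
      exact ⟨b, hb, hbx, h2⟩
    have hne : Nonempty ε := ⟨y0⟩
    choose! b hbB hbχ hbd using hrep
    have hbc : ContinuousOn b (dCu j) := by
      rw [Metric.continuousOn_iff]
      intro x hx σ hσ
      obtain ⟨δ4, hδ4, hδ4'⟩ := h.inv_unif hB (ρ := ρ / 4) (by positivity) hσ
      have hac := ha.cont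
      rw [Metric.continuousOn_iff] at hac
      obtain ⟨τ, hτ, hτ'⟩ := hac x hx δ4 hδ4
      refine ⟨τ, hτ, fun x' hx' hd => ?_⟩
      refine (hδ4' i0 i0 (b x') (hbB x' hx') (b x) (hbB x hx) ?_ ?_ ?_).2
      · rw [hbχ x' hx']; exact hafar x' hx'
      · rw [hbχ x hx]; exact hafar x hx
      · rw [hbχ x' hx', hbχ x hx]; exact hτ' x' hx' hd
    obtain ⟨G, hG, hGb, hGd⟩ := hUB j hj y0 hy0 b ⟨hbc, hbB⟩ hbd
    refine ⟨fun x => χ i0 (G x), (h.isMap i0).comp hG, fun x hx => ?_, fun x hx => ?_⟩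
    · show χ i0 (G x) = a x
      rw [hGb hx, hbχ x hx]
    · exact hκ' i0 _ (hG.maps hx) _ hy0 (hGd x hx)

end

/-- (L3) attaching a layer of cells preserves uniform local connectivity -/
theorem Layer.ulc {α : Type*} [MetricSpace α] {d : ℕ} {K V : Set α} (h : Layer d K V)
    (hK : IsCompact K) {k : ℕ} (u : ULC k K) : ULC k V := by
  obtain ⟨m, χ, h⟩ := h
  exact h.ulc (isCompact_Cu d) hK (coll_Cu d)
    (Pool.Agent.Work.MP_017613_gt.T6.kit_ulc_Cu k d) u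

end MG
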