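import Pool.Agent.Work.MP_017613_gt.Coarse
import Pool.Agent.Work.MP_017613_gt.Kit.Glue

/-!
# Extension over cubical pairs, cell by cell (T0), and first consequences of COARSE (T1, T3)

* `cub_extend` (T0): extension over a cubical pair with a pointwise relation depending on the
  dimension; `IsCub.tp`: a cubical pair is a test pair.
* `small_jump_extend` (T3): a function with small jumps on a cubical set `P`, continuous on `P₀`, is
  close to a map on `P`, rel `P₀`.
* `htpy_cub` (T1): close maps are homotopic by a small homotopy, rel the set `P₁` of equality.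
-/

open Set Topology Metric

namespace MG

variable {N : ℕ}

/-- **T0.** Extension over a cubical pair, cell by cell. -/
theorem cub_extend {Y : Type*} [TopologicalSpace Y] {k m : ℕ} (hm : 0 < m)
    {P P₀ : Set (Fin N → ℝ)} (hP : IsCub m P) (hP₀ : IsCub m P₀) (hsub : P₀ ⊆ P)
    (hdim : ∀ x ∈ P, x ∉ P₀ → dm (car m x) ≤ k) {T : Set Y} {f₀ : (Fin N → ℝ) → Y}
    (hf₀ : IsMap f₀ P₀ T) (R : ℕ → (Fin N → ℝ) → Y → Prop) (h0 : ∀ x ∈ P₀, R 0 x (f₀ x))
    (mono : ∀ d ≤ k, ∀ x ∈ P, ∀ y, R d x y → R (d + 1) x y)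
    (step : ∀ w : Fin N → ℤ, dm w ≤ k → cube m w ⊆ P → (∃ x ∈ P, x ∉ P₀ ∧ car m x = w) →
      ∀ φ : (Fin (dm w) → ℝ) → Y, IsMap φ (dCu (dm w)) T →
      (∀ t ∈ dCu (dm w), R (dm w) (emb m w t) (φ t)) →
      ∃ G : (Fin (dm w) → ℝ) → Y, IsMap G (Cu (dm w)) T ∧ EqOn G φ (dCu (dm w)) ∧
        ∀ t ∈ Cu (dm w), R (dm w + 1) (emb m w t) (G t)) :
    ∃ F : (Fin N → ℝ) → Y, IsMap F P T ∧ EqOn F f₀ P₀ ∧ ∀ x ∈ P, R (k + 1) x (F x) := by
  have main : ∀ d ≤ k + 1, ∃ F : (Fin N → ℝ) → Y,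
      IsMap F (P₀ ∪ {x | x ∈ P ∧ dm (car m x) < d}) T ∧ EqOn F f₀ P₀ ∧
      ∀ x ∈ P₀ ∪ {x | x ∈ P ∧ dm (car m x) < d}, R d x (F x) := by
    intro d
    induction d with
    | zero =>
      intro _
      refine ⟨f₀, ?_, fun _ _ => rfl, ?_⟩
      · simpa using hf₀
      · rintro x (hx | hx)
        · exact h0 x hx
        · exact absurd hx.2 (by omega)
    | succ d ih =>
      intro hd
      obtain ⟨F', hF'm, hF'e, hF'R⟩ := ih (by omega)
      set P' : Set (Fin N → ℝ) := P₀ ∪ {x | x ∈ P ∧ dm (car m x) < d} with hP'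
      set P'' : Set (Fin N → ℝ) := P₀ ∪ {x | x ∈ P ∧ dm (car m x) < d + 1} with hP''
      have hP'c : IsCub m P' := hP₀.union (hP.skel_lt d)
      have hP''c : IsCub m P'' := hP₀.union (hP.skel_lt (d + 1))
      have hP'P : P' ⊆ P := union_subset hsub fun x hx => hx.1
      have hP''P : P'' ⊆ P := union_subset hsub fun x hx => hx.1
      have hPP : P' ⊆ P'' := union_subset_union_right _ fun x hx => ⟨hx.1, hx.2.trans (by omega)⟩
      have key : ∃ F : (Fin N → ℝ) → Y, IsMap F P'' T ∧ EqOn F F' P' ∧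
          ∀ x ∈ P'', R (d + 1) x (F x) := by
        refine cell_induction hP''c hP'c hPP (fun A => ∃ F : (Fin N → ℝ) → Y, IsMap F A T ∧
          EqOn F F' P' ∧ ∀ x ∈ A, R (d + 1) x (F x)) ?_ ?_
        · exact ⟨F', hF'm, fun _ _ => rfl, fun x hx => mono d (by omega) x (hP'P hx) _ (hF'R x hx)⟩
        · rintro A w hA hPA hAP hwP ⟨x₀, hx₀, hx₀', hw⟩ hAw hbA ⟨F, hFm, hFe, hFR⟩
          have hx₀P : x₀ ∉ P₀ := fun h => hx₀' (Or.inl h)
          -- dimension of the cell
          have hdw : dm w = d := by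
            have h1 : dm (car m x₀) < d + 1 := by
              rcases hx₀ with h | h
              · exact absurd h hx₀P
              · exact h.2
            have h2 : ¬ dm (car m x₀) < d := fun h => hx₀' (Or.inr ⟨hP''P hx₀, h⟩)
            rw [hw] at h1 h2
            omega
          have hbP' : bdry m w ⊆ P' := by
            intro x hx
            right
            refine ⟨hP''P (hwP hx.1), ?_⟩
            have := dm_car_lt hx
            omega
          obtain ⟨G, hGm, hGe, hGR⟩ := step w (by omega) (hwP.trans hP''P)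
            ⟨x₀, hP''P hx₀, hx₀P, hw⟩ (fun t => F (emb m w t))
            ⟨hFm.cont.comp (continuous_emb m w).continuousOn
                (fun t ht => hbA (emb_mem_bdry hm ht)),
              fun t ht => hFm.maps (hbA (emb_mem_bdry hm ht))⟩
            (by
              intro t ht
              have h1 := hbP' (emb_mem_bdry hm ht)
              rw [hdw]
              show R d (emb m w t) (F (emb m w t))
              rw [hFe h1]
              exact hF'R _ h1)
          obtain ⟨F₂, h1, h2, h3⟩ := hFm.glue (A' := cube m w) hA.isClosed (isClosed_cube' m w)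
            (g := fun x => G (prj m w x))
            ⟨hGm.cont.comp (continuous_prj m w).continuousOn (fun x hx => prj_mem hx),
              fun x hx => hGm.maps (prj_mem hx)⟩
            (by
              intro x hxA hxw
              have hxb : x ∈ bdry m w := inter_cube_subset hAw ⟨hxA, hxw⟩
              show F x = G (prj m w x)
              rw [hGe (prj_mem_Bd hxb)]
              show F x = F (emb m w (prj m w x))
              rw [emb_prj hm hxw])
          refine ⟨F₂, h1, fun x hx => by rw [h2 (hPA hx), hFe hx], ?_⟩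
          rintro x (hx | hx)
          · rw [h2 hx]; exact hFR x hx
          · rw [h3 hx]
            have h4 := hGR _ (prj_mem hx)
            rw [emb_prj hm hx, hdw] at h4
            exact h4
      obtain ⟨F, h1, h2, h3⟩ := key
      exact ⟨F, h1, fun x hx => by rw [h2 (Or.inl hx), hF'e hx], h3⟩
  obtain ⟨F, h1, h2, h3⟩ := main (k + 1) le_rfl
  have hPe : P₀ ∪ {x | x ∈ P ∧ dm (car m x) < k + 1} = P := by
    apply Subset.antisymm (union_subset hsub fun x hx => hx.1)
    intro x hx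
    by_cases h : x ∈ P₀
    · exact Or.inl h
    · exact Or.inr ⟨hx, Nat.lt_succ_of_le (hdim x hx h)⟩
  rw [hPe] at h1 h3
  exact ⟨F, h1, h2, h3⟩

/-- a cubical set with a finite number of `d`-cubes attached -/
lemma IsCub.layer {m : ℕ} (hm : 0 < m) {A B : Set (Fin N → ℝ)} (hA : IsCub m A) (hB : IsCub m B)
    (hAB : A ⊆ B) {d : ℕ} (hd : ∀ x ∈ B, x ∉ A → dm (car m x) = d) : Layer d A B := by
  classical
  set W : Set (Fin N → ℤ) := car m '' (B \ A) with hW
  have hWf : W.Finite := hB.finite_car.subset (image_mono sdiff_subset)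
  have hWd : ∀ w ∈ W, dm w = d := by
    rintro _ ⟨x, hx, rfl⟩
    exact hd x hx.1 hx.2
  have hWB : ∀ w ∈ W, cube m w ⊆ B := by
    rintro _ ⟨x, hx, rfl⟩
    exact hB.sat x hx.1
  have hWA : ∀ w ∈ W, ∀ x ∈ A, car m x ≠ w := by
    rintro _ ⟨x, hx, rfl⟩ y hy h
    exact hx.2 (hA.sat y hy (h ▸ mem_cube_car m x))
  have hWb : ∀ w ∈ W, bdry m w ⊆ A := by
    intro w hw x hx
    by_contra hxA
    have h1 := hd x (hWB w hw hx.1) hxA
    have h2 := dm_car_lt hx
    rw [hWd w hw] at h2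
    omega
  have : Finite W := hWf
  have key : ∀ w : W, ∃ χ : (Fin d → ℝ) → (Fin N → ℝ), Continuous χ ∧
      (∀ t ∈ dCu d, χ t ∈ bdry m (w : Fin N → ℤ)) ∧ χ '' Cu d = cube m (w : Fin N → ℤ) ∧
      (∀ t ∈ Cu d, t ∉ dCu d → car m (χ t) = w) ∧ ∀ s t, χ s = χ t → s = t := by
    rintro ⟨w, hw⟩
    obtain rfl := hWd w hw
    refine ⟨emb m w, continuous_emb m w, fun t ht => emb_mem_bdry hm ht, ?_, ?_, ?_⟩
    · apply Subset.antisymm
      · rintro _ ⟨t, ht, rfl⟩
        exact emb_mem hm ht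
      · intro x hx
        exact ⟨prj m w x, prj_mem hx, emb_prj hm hx⟩
    · intro t ht htb
      by_contra hne
      apply htb
      have h1 : emb m w t ∈ bdry m w := ⟨emb_mem hm ht, hne⟩
      rw [mem_bdry_iff (emb_mem hm ht), prj_emb hm] at h1
      exact h1
    · intro s t hst
      rw [← prj_emb hm w s, hst, prj_emb hm]
  choose χ h1 h2 h3 h4 h5 using key
  refine Layer.of_fam (ι := W) (χ := χ) ⟨fun i => (h1 i).continuousOn, ?_, ?_, ?_, ?_⟩
  · intro i t ht
    exact hWb i i.2 (h2 i t ht)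
  · intro i t ht htb hA'
    exact hWA i i.2 _ hA' (h4 i t ht htb)
  · intro i i' s t hs hsb ht htb hst
    have h6 : (i : Fin N → ℤ) = i' := by rw [← h4 i s hs hsb, hst, h4 i' t ht htb]
    have h7 : i = i' := Subtype.ext h6
    subst h7
    exact ⟨rfl, h5 i s t hst⟩
  · apply Subset.antisymm
    · intro x hx
      by_cases hxA : x ∈ A
      · exact Or.inl hxA
      · right
        have hw : car m x ∈ W := ⟨x, ⟨hx, hxA⟩, rfl⟩
        refine mem_iUnion.2 ⟨⟨car m x, hw⟩, ?_⟩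
        rw [h3]
        exact mem_cube_car m x
    · refine union_subset hAB (iUnion_subset fun i => ?_)
      rw [h3]
      exact hWB i i.2

/-- a cubical pair is a test pair -/
theorem IsCub.tp {k m : ℕ} (hm : 0 < m) {P P₀ : Set (Fin N → ℝ)} (hP : IsCub m P)
    (hP₀ : IsCub m P₀) (hsub : P₀ ⊆ P) (hdim : ∀ x ∈ P, x ∉ P₀ → dm (car m x) ≤ k) :
    TP k P₀ P := by
  refine ⟨hP₀.isCompact, fun d => P₀ ∪ {x | x ∈ P ∧ dm (car m x) < d}, ?_, ?_, ?_⟩
  · simp
  · apply Subset.antisymm (union_subset hsub fun x hx => hx.1)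
    intro x hx
    by_cases h : x ∈ P₀
    · exact Or.inl h
    · exact Or.inr ⟨hx, Nat.lt_succ_of_le (hdim x hx h)⟩
  · intro d _
    refine IsCub.layer hm (hP₀.union (hP.skel_lt d)) (hP₀.union (hP.skel_lt (d + 1)))
      (union_subset_union_right _ fun x hx => ⟨hx.1, hx.2.trans (by omega)⟩) ?_
    rintro x (hx | hx) hx'
    · exact absurd (Or.inl hx) hx'
    · have h1 : ¬ dm (car m x) < d := fun h => hx' (Or.inr ⟨hx.1, h⟩)
      have h2 := hx.2
      omega

/-! ### Small meshes -/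

lemma exists_mesh_mul {m : ℕ} (hm : 0 < m) {r : ℝ} (hr : 0 < r) :
    ∃ n : ℕ, 0 < n ∧ 1 / ((m * n : ℕ) : ℝ) < r := by
  obtain ⟨n, hn⟩ := exists_nat_one_div_lt hr
  refine ⟨n + 1, Nat.succ_pos n, lt_of_le_of_lt ?_ hn⟩
  push_cast
  have hm' : (1:ℝ) ≤ m := by exact_mod_cast hm
  apply one_div_le_one_div_of_le (by positivity)
  nlinarith [(Nat.cast_nonneg n : (0:ℝ) ≤ n)]

variable {α : Type*} [MetricSpace α]

/-- functions with jumps `< δ` at scale `r` -/
def Jump (P : Set (Fin N → ℝ)) (φ : (Fin N → ℝ) → α) (δ : ℝ) : Prop :=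
  ∃ r > 0, ∀ x ∈ P, ∀ y ∈ P, dist x y < r → dist (φ x) (φ y) < δ

lemma Jump.osc {m : ℕ} (hm : 0 < m) {P : Set (Fin N → ℝ)} (hP : IsCub m P)
    {φ : (Fin N → ℝ) → α} {δ : ℝ} (h : Jump P φ δ) : ∃ n : ℕ, 0 < n ∧ Osc (m * n) P φ δ := by
  obtain ⟨r, hr, h⟩ := h
  obtain ⟨n, hn, hnr⟩ := exists_mesh_mul hm hr
  refine ⟨n, hn, fun x hx y hy => h x hx y ((hP.mul hn).sat x hx hy) ?_⟩
  exact (dist_le_of_mem_cube (Nat.mul_pos hm hn) (mem_cube_car _ x) hy).trans_lt hnr

lemma jump_of_continuousOn {P : Set (Fin N → ℝ)} (hP : IsCompact P) {φ : (Fin N → ℝ) → α}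
    (hφ : ContinuousOn φ P) {δ : ℝ} (hδ : 0 < δ) : Jump P φ δ := by
  have h := hP.uniformContinuousOn_of_continuous hφ
  rw [Metric.uniformContinuousOn_iff] at h
  obtain ⟨r, hr, h⟩ := h δ hδ
  exact ⟨r, hr, fun x hx y hy => h x hx y hy⟩

/-- **T3.** Functions with small jumps on a cubical set, continuous on `P₀`, are close to maps
rel `P₀`. -/
theorem small_jump_extend {k : ℕ} {K : Set α} (hK : ULC k K) {ε : ℝ} (hε : 0 < ε) : ∃ δ > 0,
    ∀ {N m : ℕ} (_ : 0 < m) {P P₀ : Set (Fin N → ℝ)} (_ : IsCub m P) (_ : IsCub m P₀) (_ : P₀ ⊆ P)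
      (_ : ∀ x ∈ P, x ∉ P₀ → dm (car m x) ≤ k) (φ : (Fin N → ℝ) → α) (_ : MapsTo φ P K)
      (_ : ContinuousOn φ P₀) (_ : Jump P φ δ),
      ∃ F : (Fin N → ℝ) → α, IsMap F P K ∧ EqOn F φ P₀ ∧ ∀ x ∈ P, dist (F x) (φ x) < ε := by
  obtain ⟨δ, hδ, h⟩ := coarse hK hε
  refine ⟨δ, hδ, ?_⟩
  intro N m hm P P₀ hP hP₀ hsub hdim φ hφ hc hj
  obtain ⟨n, hn, hosc⟩ := hj.osc hm hP
  exact h (Nat.mul_pos hm hn) (hP.mul hn) (hP₀.mul hn) hsub
    (fun x hx hx0 => (dm_car_mul_le x).trans (hdim x hx hx0)) φ hφ hc hosc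

/-- T3 on the standard cube, data on the boundary: `f` a map, `b` a map on the boundary close
to `f`. -/
theorem close_extend_Cu {k : ℕ} {K : Set α} (hK : ULC k K) {ε : ℝ} (hε : 0 < ε) : ∃ δ > 0,
    ∀ j ≤ k, ∀ f b : (Fin j → ℝ) → α, IsMap f (Cu j) K → IsMap b (dCu j) K →
      (∀ x ∈ dCu j, dist (b x) (f x) < δ) →
      ∃ F : (Fin j → ℝ) → α, IsMap F (Cu j) K ∧ EqOn F b (dCu j) ∧
        ∀ x ∈ Cu j, dist (F x) (f x) < ε := by
  classical
  obtain ⟨δ, hδ, h⟩ := small_jump_extend hK (half_pos hε)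
  refine ⟨min (δ / 4) (ε / 2), by positivity, fun j hj f b hf hb hd => ?_⟩
  set φ : (Fin j → ℝ) → α := fun x => if x ∈ dCu j then b x else f x with hφ
  have hφf : ∀ x ∈ Cu j, dist (φ x) (f x) < min (δ / 4) (ε / 2) := by
    intro x hx
    by_cases hxb : x ∈ dCu j
    · simp only [hφ, hxb, if_true]; exact hd x hxb
    · simp only [hφ, hxb, if_false, dist_self]; positivity
  have hφb : EqOn φ b (dCu j) := fun x hx => by simp only [hφ, hx, if_true]
  obtain ⟨F, h1, h2, h3⟩ := h one_pos (isCub_Cu one_pos j) (isCub_dCu one_pos j) (dCu_subset j)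
    (fun x _ _ => (dm_le _).trans hj) φ
    (by
      intro x hx
      by_cases hxb : x ∈ dCu j
      · rw [hφb hxb]; exact hb.maps hxb
      · simp only [hφ, hxb, if_false]; exact hf.maps hx)
    (hb.cont.congr hφb)
    (by
      obtain ⟨r, hr, hfr⟩ := jump_of_continuousOn (isCompact_Cu j) hf.cont (half_pos hδ)
      refine ⟨r, hr, fun x hx y hy hxy => ?_⟩
      have h1 := hfr x hx y hy hxy
      have h2 := (hφf x hx).trans_le (min_le_left _ _)
      have h3 := (hφf y hy).trans_le (min_le_left _ _)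
      have h4 := dist_triangle4 (φ x) (f x) (f y) (φ y)
      rw [dist_comm (f y)] at h4
      linarith)
  refine ⟨F, h1, fun x hx => by rw [h2 hx, hφb hx], fun x hx => ?_⟩
  have h4 := h3 x hx
  have h5 := (hφf x hx).trans_le (min_le_right _ _)
  have h6 := dist_triangle (F x) (φ x) (f x)
  linarith

/-! ### Homotopies -/

/-- `(x, t) ↦ (t, x)` -/
lemma continuous_cons' : Continuous fun p : (Fin N → ℝ) × ℝ => (Fin.cons p.2 p.1 : Fin (N + 1) → ℝ) := by
  apply continuous_pi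
  intro i
  refine Fin.cases ?_ (fun i => ?_) i
  · simpa using continuous_snd
  · have : Continuous fun p : (Fin N → ℝ) × ℝ => p.1 i := (continuous_apply i).comp continuous_fst
    simpa using this

lemma cons_mem_prodI {P : Set (Fin N → ℝ)} {x : Fin N → ℝ} {t : ℝ} (hx : x ∈ P)
    (ht : t ∈ Icc (0:ℝ) 1) : (Fin.cons t x : Fin (N + 1) → ℝ) ∈ prodI P :=
  ⟨by simpa using ht.1, by simpa using ht.2, by simpa using hx⟩

lemma continuous_tail' : Continuous fun x : Fin (N + 1) → ℝ => Fin.tail x :=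
  continuous_pi fun i => continuous_apply i.succ

/-- **T1.** Close maps are homotopic by a small homotopy, constant where prescribed. -/
theorem htpy_cub {k : ℕ} {K : Set α} (hK : ULC k K) {ε : ℝ} (hε : 0 < ε) : ∃ δ > 0,
    ∀ {N m : ℕ} (_ : 0 < m) {P P₁ : Set (Fin N → ℝ)} (_ : IsCub m P) (_ : IsCub m P₁) (_ : P₁ ⊆ P)
      (_ : ∀ x ∈ P, x ∉ P₁ → dm (car m x) + 1 ≤ k) (a b : (Fin N → ℝ) → α) (_ : IsMap a P K)
      (_ : IsMap b P K) (_ : ∀ x ∈ P, dist (a x) (b x) < δ) (_ : ∀ x ∈ P₁, a x = b x),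
      ∃ H : (Fin N → ℝ) × ℝ → α, IsMap H (P ×ˢ Icc (0:ℝ) 1) K ∧ (∀ x ∈ P, H (x, 0) = a x) ∧
        (∀ x ∈ P, H (x, 1) = b x) ∧ (∀ x ∈ P₁, ∀ t ∈ Icc (0:ℝ) 1, H (x, t) = a x) ∧
        ∀ x ∈ P, ∀ t ∈ Icc (0:ℝ) 1, dist (H (x, t)) (a x) < ε := by
  classical
  obtain ⟨δ, hδ, h⟩ := small_jump_extend hK (half_pos hε)
  refine ⟨min (δ / 2) (ε / 2), by positivity, ?_⟩
  intro N m hm P P₁ hP hP₁ hsub hdim a b ha hb hab hab₁
  set φ : (Fin (N + 1) → ℝ) → α := fun x => if x 0 = 1 then b (Fin.tail x) else a (Fin.tail x)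
    with hφ
  have hφa : ∀ x ∈ prodI P, dist (φ x) (a (Fin.tail x)) < min (δ / 2) (ε / 2) := by
    intro x hx
    by_cases h1 : x 0 = 1
    · simp only [hφ, h1, if_true]
      rw [dist_comm]
      exact hab _ hx.2.2
    · simp only [hφ, h1, if_false, dist_self]; positivity
  have hP₀c : IsCub m (endsI P ∪ prodI P₁) := (hP.endsI hm).union (hP₁.prodI hm)
  have hP₀sub : endsI P ∪ prodI P₁ ⊆ prodI P :=
    union_subset (endsI_subset P) fun x hx => ⟨hx.1, hx.2.1, hsub hx.2.2⟩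
  obtain ⟨F, h1, h2, h3⟩ := h hm (hP.prodI hm) hP₀c hP₀sub
    (by
      intro x hx hx0
      have h4 : Fin.tail x ∉ P₁ := fun h => hx0 (Or.inr ⟨hx.1, hx.2.1, h⟩)
      have h5 := hdim _ hx.2.2 h4
      have h6 := dm_le_succ_tail (car m x)
      rw [car_tail] at h6
      omega) φ
    (by
      intro x hx
      by_cases h1 : x 0 = 1
      · simp only [hφ, h1, if_true]; exact hb.maps hx.2.2
      · simp only [hφ, h1, if_false]; exact ha.maps hx.2.2)
    (by
      have hcl : ∀ c : ℝ, IsClosed {x : Fin (N + 1) → ℝ | x 0 = c} := fun c =>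
        isClosed_eq (continuous_apply 0) continuous_const
      have hPcl : IsClosed {x : Fin (N + 1) → ℝ | Fin.tail x ∈ P} :=
        hP.isClosed.preimage continuous_tail'
      have e1 : ContinuousOn φ {x : Fin (N + 1) → ℝ | x 0 = 0 ∧ Fin.tail x ∈ P} := by
        refine (ha.cont.comp continuous_tail'.continuousOn
          (fun x hx => hx.2 : MapsTo _ {x : Fin (N + 1) → ℝ | x 0 = 0 ∧ Fin.tail x ∈ P} P)).congr ?_
        intro x hx
        simp [hφ, hx.1]
      have e2 : ContinuousOn φ {x : Fin (N + 1) → ℝ | x 0 = 1 ∧ Fin.tail x ∈ P} := by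
        refine (hb.cont.comp continuous_tail'.continuousOn
          (fun x hx => hx.2 : MapsTo _ {x : Fin (N + 1) → ℝ | x 0 = 1 ∧ Fin.tail x ∈ P} P)).congr ?_
        intro x hx
        simp [hφ, hx.1]
      have e3 : ContinuousOn φ (prodI P₁) := by
        refine (ha.cont.comp continuous_tail'.continuousOn
          (fun x hx => hsub hx.2.2 : MapsTo _ (prodI P₁) P)).congr ?_
        intro x hx
        by_cases h1 : x 0 = 1
        · simp only [hφ, h1, if_true]; exact (hab₁ _ hx.2.2).symm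
        · simp [hφ, h1]
      have e4 : endsI P = {x : Fin (N + 1) → ℝ | x 0 = 0 ∧ Fin.tail x ∈ P} ∪
          {x : Fin (N + 1) → ℝ | x 0 = 1 ∧ Fin.tail x ∈ P} := by
        ext x
        simp only [endsI, mem_ofPred_eq, mem_union]
        tauto
      rw [e4]
      refine (e1.union_of_isClosed e2 ?_ ?_).union_of_isClosed e3 ?_ (hP₁.prodI hm).isClosed
      · exact (hcl 0).inter hPcl
      · exact (hcl 1).inter hPcl
      · exact ((hcl 0).inter hPcl).union ((hcl 1).inter hPcl))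
    (by
      obtain ⟨r, hr, har⟩ := jump_of_continuousOn hP.isCompact ha.cont (δ := δ / 2) (half_pos hδ)
      obtain ⟨r', hr', hbr⟩ := jump_of_continuousOn hP.isCompact hb.cont (δ := δ / 2) (half_pos hδ)
      refine ⟨min r r', lt_min hr hr', fun x hx y hy hxy => ?_⟩
      have ht : dist (Fin.tail x) (Fin.tail y) ≤ dist x y := by
        rw [dist_pi_le_iff dist_nonneg]
        exact fun i => dist_le_pi_dist x y i.succ
      have h1 := har _ hx.2.2 _ hy.2.2 (ht.trans_lt (hxy.trans_le (min_le_left _ _)))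
      have h2 := hbr _ hx.2.2 _ hy.2.2 (ht.trans_lt (hxy.trans_le (min_le_right _ _)))
      have h3 := (hab _ hx.2.2).trans_le (min_le_left _ _)
      have h4 := (hab _ hy.2.2).trans_le (min_le_left _ _)
      by_cases hx1 : x 0 = 1 <;> by_cases hy1 : y 0 = 1
      · simp only [hφ, hx1, hy1, if_true]; linarith
      · simp only [hφ, hx1, hy1, if_true, if_false]
        have h5 := dist_triangle (b (Fin.tail x)) (a (Fin.tail x)) (a (Fin.tail y))
        rw [dist_comm (b (Fin.tail x)) (a (Fin.tail x))] at h5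
        linarith
      · simp only [hφ, hx1, hy1, if_true, if_false]
        have h5 := dist_triangle (a (Fin.tail x)) (a (Fin.tail y)) (b (Fin.tail y))
        linarith
      · simp only [hφ, hx1, hy1, if_false]; linarith)
  refine ⟨fun p => F (Fin.cons p.2 p.1), ⟨?_, ?_⟩, ?_, ?_, ?_, ?_⟩
  · exact h1.cont.comp continuous_cons'.continuousOn fun p hp => cons_mem_prodI hp.1 hp.2
  · exact fun p hp => h1.maps (cons_mem_prodI hp.1 hp.2)
  · intro x hx
    have h4 : (Fin.cons (0:ℝ) x : Fin (N + 1) → ℝ) ∈ endsI P := ⟨Or.inl (by simp), by simpa using hx⟩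
    show F (Fin.cons 0 x) = a x
    rw [h2 (Or.inl h4)]
    simp [hφ]
  · intro x hx
    have h4 : (Fin.cons (1:ℝ) x : Fin (N + 1) → ℝ) ∈ endsI P := ⟨Or.inr (by simp), by simpa using hx⟩
    show F (Fin.cons 1 x) = b x
    rw [h2 (Or.inl h4)]
    simp [hφ]
  · intro x hx t ht
    have h4 : (Fin.cons t x : Fin (N + 1) → ℝ) ∈ prodI P₁ := cons_mem_prodI hx ht
    show F (Fin.cons t x) = a x
    rw [h2 (Or.inr h4)]
    by_cases ht1 : t = 1
    · simp only [hφ, Fin.cons_zero, ht1, if_true, Fin.tail_cons]; exact (hab₁ x hx).symm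
    · simp only [hφ, Fin.cons_zero, ht1, if_false, Fin.tail_cons]
  · intro x hx t ht
    have h4 := h3 _ (cons_mem_prodI hx ht)
    have h5 := (hφa _ (cons_mem_prodI hx ht)).trans_le (min_le_right _ _)
    have h6 := dist_triangle (F (Fin.cons t x)) (φ (Fin.cons t x)) (a x)
    rw [Fin.tail_cons] at h5
    show dist (F (Fin.cons t x)) (a x) < ε
    linarith

end MG
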