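import Pool.Agent.Work.MP_017613_gt.Kit.Glue
import Pool.Agent.Work.MP_017613_gt.Collar

/-!
# MENGER toolkit: collars of the cube, set form

* `collar`: a homotopy of the boundary data is inserted in a thin collar of the cube.
* `Coll B A`: `A` has arbitrarily thin collars in `B` which shrink to `A` with small tracks.
* `coll_Cu`: the boundary of the cube has this property.
-/

open Set Metric Topology

namespace MG

open Pool.Agent.Work.MP_017613_gt (cN cH continuous_cN cN_nonneg mem_Cb_iff mem_Bd_iff cN_cH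
  dist_cH cH_one)

lemma mem_Cu_iff_cN {j : ℕ} {x : Fin j → ℝ} : x ∈ Cu j ↔ cN x ≤ 1 := mem_Cb_iff

lemma mem_dCu_iff_cN {j : ℕ} {x : Fin j → ℝ} : x ∈ dCu j ↔ cN x = 1 := mem_Bd_iff

/-- The collar lemma, set form. -/
theorem collar {α : Type*} [TopologicalSpace α] {j : ℕ} {T : Set α} {G : (Fin j → ℝ) → α}
    {H : (Fin j → ℝ) × ℝ → α} (hG : IsMap G (Cu j) T) (hH : IsMap H (dCu j ×ˢ Icc (0 : ℝ) 1) T)
    (h1 : ∀ x ∈ dCu j, H (x, 1) = G x) {w : ℝ} (hw : 0 < w) :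
    ∃ F : (Fin j → ℝ) → α, IsMap F (Cu j) T ∧ (∀ x ∈ dCu j, F x = H (x, 0)) ∧
      ∀ x ∈ Cu j, (∃ x' ∈ dCu j, ∃ t ∈ Icc (0 : ℝ) 1, F x = H (x', t) ∧ dist x x' < w) ∨
        (∃ x' ∈ Cu j, F x = G x' ∧ dist x x' < w) := by
  obtain ⟨F, hF, hb, hc⟩ := Pool.Agent.Work.MP_017613_gt.collar (A₁ := G)
    (H := fun x t => H (x, t)) hG.cont hH.cont h1 hw
  refine ⟨F, ⟨hF, ?_⟩, hb, hc⟩
  intro x hx
  rcases hc x hx with ⟨x', hx', t, ht, he, -⟩ | ⟨x', hx', he, -⟩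
  · rw [he]; exact hH.maps ⟨hx', ht⟩
  · rw [he]; exact hG.maps hx'

/-- `A` has arbitrarily thin collars in `B`, which shrink to `A` (rel `A`) with small tracks. -/
def Coll {ε : Type*} [MetricSpace ε] (B A : Set ε) : Prop :=
  ∀ κ > 0, ∃ (B' C0 : Set ε) (D : ε × ℝ → ε), IsCompact B' ∧ A ⊆ B' ∧ IsCompact C0 ∧
    (∀ x ∈ C0, x ∉ A) ∧ B = B' ∪ C0 ∧ IsMap D (B' ×ˢ Icc (0 : ℝ) 1) B ∧ (∀ x ∈ B', D (x, 0) = x) ∧
    (∀ x ∈ B', D (x, 1) ∈ A) ∧ (∀ x ∈ A, ∀ t ∈ Icc (0 : ℝ) 1, D (x, t) = x) ∧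
    ∀ x ∈ B', ∀ t ∈ Icc (0 : ℝ) 1, dist (D (x, t)) x < κ

/-- The radial deformation of the cube minus a neighbourhood of the centre to the boundary. -/
theorem rad_def (d : ℕ) {r : ℝ} (hr : 0 < r) (hr1 : r ≤ 1) :
    ∃ D : (Fin d → ℝ) × ℝ → (Fin d → ℝ),
      IsCompact {x : Fin d → ℝ | r ≤ cN x ∧ cN x ≤ 1} ∧
      dCu d ⊆ {x : Fin d → ℝ | r ≤ cN x ∧ cN x ≤ 1} ∧
      {x : Fin d → ℝ | r ≤ cN x ∧ cN x ≤ 1} ⊆ Cu d ∧
      IsMap D ({x : Fin d → ℝ | r ≤ cN x ∧ cN x ≤ 1} ×ˢ Icc (0 : ℝ) 1) (Cu d) ∧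
      (∀ x ∈ {x : Fin d → ℝ | r ≤ cN x ∧ cN x ≤ 1}, D (x, 0) = x) ∧
      (∀ x ∈ {x : Fin d → ℝ | r ≤ cN x ∧ cN x ≤ 1}, D (x, 1) ∈ dCu d) ∧
      (∀ x ∈ dCu d, ∀ t ∈ Icc (0 : ℝ) 1, D (x, t) = x) ∧
      ∀ x ∈ {x : Fin d → ℝ | r ≤ cN x ∧ cN x ≤ 1}, ∀ t ∈ Icc (0 : ℝ) 1,
        dist (D (x, t)) x ≤ (1 - r) / 2 := by
  refine ⟨fun p => cH (1 + p.2 * ((cN p.1)⁻¹ - 1)) p.1, ?_, ?_, ?_, ⟨?_, ?_⟩, ?_, ?_, ?_, ?_⟩
  · refine (isCompact_Cu d).of_isClosed_subset ((isClosed_le continuous_const continuous_cN).inter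
      (isClosed_le continuous_cN continuous_const)) ?_
    intro x hx
    exact mem_Cu_iff_cN.2 hx.2
  · intro x hx
    rw [mem_dCu_iff_cN] at hx
    exact ⟨by rw [hx]; exact hr1, hx.le⟩
  · intro x hx
    exact mem_Cu_iff_cN.2 hx.2
  · have h3 : ContinuousOn (fun p : (Fin d → ℝ) × ℝ => (cN p.1)⁻¹)
        ({x | r ≤ cN x ∧ cN x ≤ 1} ×ˢ Icc (0 : ℝ) 1) := by
      refine (continuous_cN.comp continuous_fst).continuousOn.inv₀ ?_
      rintro ⟨x, t⟩ ⟨hx, -⟩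
      exact (lt_of_lt_of_le hr hx.1).ne'
    unfold cH
    exact continuousOn_const.add ((continuousOn_const.add
      (continuous_snd.continuousOn.mul (h3.sub continuousOn_const))).smul
      (continuous_fst.continuousOn.sub continuousOn_const))
  · rintro ⟨x, t⟩ ⟨hx, ht⟩
    have hx1 : r ≤ cN x := hx.1
    have hx2 : cN x ≤ 1 := hx.2
    have hp : (0 : ℝ) < cN x := by linarith
    have hi : 1 ≤ (cN x)⁻¹ := (one_le_inv₀ hp).2 hx2
    rw [mem_Cu_iff_cN]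
    show cN (cH (1 + t * ((cN x)⁻¹ - 1)) x) ≤ 1
    have hm : 0 ≤ 1 + t * ((cN x)⁻¹ - 1) := by
      have := mul_nonneg ht.1 (by linarith : (0 : ℝ) ≤ (cN x)⁻¹ - 1)
      linarith
    rw [cN_cH hm]
    have h5 : t * ((cN x)⁻¹ - 1) ≤ 1 * ((cN x)⁻¹ - 1) :=
      mul_le_mul_of_nonneg_right ht.2 (by linarith)
    calc (1 + t * ((cN x)⁻¹ - 1)) * cN x ≤ (1 + 1 * ((cN x)⁻¹ - 1)) * cN x :=
          mul_le_mul_of_nonneg_right (by linarith) hp.le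
      _ = 1 := by field_simp; ring
  · intro x _
    show cH (1 + 0 * ((cN x)⁻¹ - 1)) x = x
    rw [zero_mul, add_zero, cH_one]
  · intro x hx
    have hx1 : r ≤ cN x := hx.1
    have hx2 : cN x ≤ 1 := hx.2
    have hp : (0 : ℝ) < cN x := by linarith
    show cH (1 + 1 * ((cN x)⁻¹ - 1)) x ∈ dCu d
    rw [mem_dCu_iff_cN, one_mul, add_sub_cancel, cN_cH (by positivity), inv_mul_cancel₀ hp.ne']
  · intro x hx t _
    rw [mem_dCu_iff_cN] at hx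
    show cH (1 + t * ((cN x)⁻¹ - 1)) x = x
    rw [hx, inv_one, sub_self, mul_zero, add_zero, cH_one]
  · intro x hx t ht
    have hx1 : r ≤ cN x := hx.1
    have hx2 : cN x ≤ 1 := hx.2
    have hp : (0 : ℝ) < cN x := by linarith
    have hi : 1 ≤ (cN x)⁻¹ := (one_le_inv₀ hp).2 hx2
    show dist (cH (1 + t * ((cN x)⁻¹ - 1)) x) x ≤ (1 - r) / 2
    have h6 : 0 ≤ t * ((cN x)⁻¹ - 1) := mul_nonneg ht.1 (by linarith)
    have h7 : t * ((cN x)⁻¹ - 1) ≤ (cN x)⁻¹ - 1 := by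
      calc t * ((cN x)⁻¹ - 1) ≤ 1 * ((cN x)⁻¹ - 1) :=
            mul_le_mul_of_nonneg_right ht.2 (by linarith)
        _ = (cN x)⁻¹ - 1 := one_mul _
    rw [dist_comm, dist_cH]
    have h8 : |1 - (1 + t * ((cN x)⁻¹ - 1))| = t * ((cN x)⁻¹ - 1) := by
      rw [abs_sub_comm]
      rw [show 1 + t * ((cN x)⁻¹ - 1) - 1 = t * ((cN x)⁻¹ - 1) by ring]
      exact abs_of_nonneg h6
    rw [h8]
    calc t * ((cN x)⁻¹ - 1) * (cN x / 2) ≤ ((cN x)⁻¹ - 1) * (cN x / 2) :=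
          mul_le_mul_of_nonneg_right h7 (by positivity)
      _ = (1 - cN x) / 2 := by field_simp
      _ ≤ (1 - r) / 2 := by linarith

theorem coll_Cu (d : ℕ) : Coll (Cu d) (dCu d) := by
  intro κ hκ
  set e : ℝ := min (1 / 2) κ with he
  have he0 : 0 < e := lt_min (by norm_num) hκ
  have he1 : e ≤ 1 / 2 := min_le_left _ _
  have heκ : e ≤ κ := min_le_right _ _
  obtain ⟨D, h1, h2, h3, h4, h5, h6, h7, h8⟩ := rad_def d (r := 1 - e) (by linarith) (by linarith)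
  refine ⟨{x | 1 - e ≤ cN x ∧ cN x ≤ 1}, {x | cN x ≤ 1 - e}, D, h1, h2, ?_, ?_, ?_, h4, h5, h6, h7,
    fun x hx t ht => (h8 x hx t ht).trans_lt (by linarith)⟩
  · refine (isCompact_Cu d).of_isClosed_subset (isClosed_le continuous_cN continuous_const) ?_
    intro x hx
    have hx' : cN x ≤ 1 - e := hx
    exact mem_Cu_iff_cN.2 (by linarith)
  · intro x hx hxA
    have hx' : cN x ≤ 1 - e := hx
    rw [mem_dCu_iff_cN] at hxA
    linarith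
  · ext x
    rw [mem_Cu_iff_cN]
    constructor
    · intro h
      rcases le_total (cN x) (1 - e) with h' | h'
      · exact Or.inr h'
      · exact Or.inl ⟨h', h⟩
    · rintro (h | h)
      · exact h.2
      · have hx' : cN x ≤ 1 - e := h
        linarith

end MG
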