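import Pool.Agent.Work.MP_017613_gt.Coarse

/-!
# Lifting over cubical sets

`uv_of_L`: a map `p : X' → X` with the cube lifting property `L k p X' X e` for all `e > 0`, `X` of
type `ULC k`, has the `UV` property at all scales.

`lift_cub`: if `p` (any function) has the `UV` property at all scales, then every function `φ` on a
cubical set with small oscillation on the cubes has an approximate lift `G`, with `G = G₀` on a
cubical subset containing all cells of dimension `> k`.
-/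

open Set Topology Metric

namespace MG

open Pool.Agent.Work.MP_017613_gt (Cb Bd)

variable {α β : Type*} [MetricSpace α] [MetricSpace β]

/-- the `UV` property at all scales -/
def UVall (k : ℕ) (p : α → β) (X' : Set α) (X : Set β) : Prop :=
  ∀ ε > 0, ∃ δ > 0, UV k p X' X δ ε

theorem uv_of_L {k : ℕ} {p : α → β} {X' : Set α} {X : Set β} (hX : ULC k X)
    (hp : IsMap p X' X) (hL : ∀ e > 0, L k p X' X e) : UVall k p X' X := by
  intro ε hε
  obtain ⟨δ, hδ, hU⟩ := hX (ε / 2) (half_pos hε)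
  refine ⟨δ, hδ, ?_⟩
  intro j hj y hy a ha had
  obtain ⟨A, hA, hAe, hAd⟩ := hU j hj y hy (fun x => p (a x)) (hp.comp ha) had
  obtain ⟨F, hF, hFe, hFd⟩ := hL (ε / 2) (half_pos hε) j hj A a hA ha
    (fun x hx => (hAe hx).symm)
  refine ⟨F, hF, hFe, fun x hx => ?_⟩
  have h1 := hAd x hx
  have h2 := hFd x hx
  have h3 := dist_triangle (p (F x)) (A x) y
  have h4 : dist (A x) y < ε / 2 := h1
  linarith

/-- lifting over cubical sets, with bound `< d` on the dimensions -/
theorem lift_lt {k : ℕ} {p : α → β} {X' : Set α} {X : Set β} (hp : UVall k p X' X) :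
    ∀ d ≤ k + 1, ∀ ε > 0, ∃ δ > 0, ∀ {N m : ℕ} (_ : 0 < m) {P P₀ : Set (Fin N → ℝ)}
      (_ : IsCub m P) (_ : IsCub m P₀) (_ : P₀ ⊆ P)
      (_ : ∀ x ∈ P, x ∉ P₀ → dm (car m x) < d) (φ : (Fin N → ℝ) → β) (_ : MapsTo φ P X)
      (_ : Osc m P φ δ) (G₀ : (Fin N → ℝ) → α) (_ : IsMap G₀ P₀ X')
      (_ : ∀ x ∈ P₀, dist (p (G₀ x)) (φ x) < δ),
      ∃ G : (Fin N → ℝ) → α, IsMap G P X' ∧ EqOn G G₀ P₀ ∧ ∀ x ∈ P, dist (p (G x)) (φ x) < ε := by
  intro d
  induction d with
  | zero =>
    intro _ ε hε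
    refine ⟨ε, hε, ?_⟩
    intro N m _ P P₀ _ _ hsub hdim φ hφ _ G₀ hG₀ hd
    have : P ⊆ P₀ := fun x hx => by
      by_contra h
      exact absurd (hdim x hx h) (by omega)
    have hPP : P = P₀ := Subset.antisymm this hsub
    subst hPP
    exact ⟨G₀, hG₀, fun _ _ => rfl, hd⟩
  | succ d ih =>
    intro hd ε hε
    obtain ⟨δ₁, hδ₁, hU⟩ := hp (ε / 2) (half_pos hε)
    obtain ⟨δ₂, hδ₂, hI⟩ := ih (by omega) (min (δ₁ / 2) ε) (lt_min (half_pos hδ₁) hε)
    refine ⟨min δ₂ (min (δ₁ / 2) (ε / 2)), lt_min hδ₂ (lt_min (half_pos hδ₁) (half_pos hε)), ?_⟩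
    intro N m hm P P₀ hP hP₀ hsub hdim φ hφ hosc G₀ hG₀ hG₀d
    set P' : Set (Fin N → ℝ) := P₀ ∪ {x | x ∈ P ∧ dm (car m x) < d} with hP'
    have hP'c : IsCub m P' := hP₀.union (hP.skel_lt d)
    have hP'P : P' ⊆ P := union_subset hsub fun x hx => hx.1
    obtain ⟨F', hF'm, hF'e, hF'd⟩ := hI hm hP'c hP₀ subset_union_left
      (fun x hx hx0 => by
        rcases hx with hx | hx
        · exact absurd hx hx0
        · exact hx.2) φ (hφ.mono_left hP'P) (hosc.mono hP'P (min_le_left _ _)) G₀ hG₀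
      (fun x hx => (hG₀d x hx).trans_le (min_le_left _ _))
    have key : ∃ F : (Fin N → ℝ) → α, IsMap F P X' ∧ EqOn F F' P' ∧
        ∀ x ∈ P, dist (p (F x)) (φ x) < ε := by
      refine cell_induction hP hP'c hP'P (fun A => ∃ F : (Fin N → ℝ) → α, IsMap F A X' ∧
        EqOn F F' P' ∧ ∀ x ∈ A, dist (p (F x)) (φ x) < ε) ?_ ?_
      · exact ⟨F', hF'm, fun _ _ => rfl, fun x hx => (hF'd x hx).trans_le (min_le_right _ _)⟩
      · rintro A w hA hPA hAP hwP ⟨x₀, hx₀, hx₀', hw⟩ hAw hbA ⟨F, hFm, hFe, hFd⟩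
        -- dimension of the cell
        have hdw : dm w = d := by
          have h1 : dm (car m x₀) < d + 1 := hdim x₀ hx₀ fun h => hx₀' (Or.inl h)
          have h2 : ¬ dm (car m x₀) < d := fun h => hx₀' (Or.inr ⟨hx₀, h⟩)
          rw [hw] at h1 h2
          omega
        have hbP' : bdry m w ⊆ P' := by
          intro x hx
          right
          refine ⟨hwP hx.1, ?_⟩
          have := dm_car_lt hx
          omega
        have hy : ∀ x ∈ cube m w, dist (φ x) (φ x₀) < min (δ₁ / 2) (ε / 2) := by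
          intro x hx
          rw [dist_comm]
          exact (hosc x₀ hx₀ x (hw ▸ hx)).trans_le (min_le_right _ _)
        obtain ⟨G, hGm, hGe, hGd⟩ := hU (dm w) (by omega) (φ x₀) (hφ hx₀)
          (fun t => F (emb m w t))
          ⟨hFm.cont.comp (continuous_emb m w).continuousOn
              (fun t ht => hbA (emb_mem_bdry hm ht)),
            fun t ht => hFm.maps (hbA (emb_mem_bdry hm ht))⟩
          (by
            intro t ht
            have h1 := emb_mem_bdry hm ht
            have h2 : F (emb m w t) = F' (emb m w t) := hFe (hbP' h1)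
            have h3 := (hF'd _ (hbP' h1)).trans_le (min_le_left _ _)
            have h4 := (hy _ h1.1).trans_le (min_le_left _ _)
            have h5 := dist_triangle (p (F (emb m w t))) (φ (emb m w t)) (φ x₀)
            rw [← h2] at h3
            show dist (p (F (emb m w t))) (φ x₀) < δ₁
            linarith)
        obtain ⟨F₂, h1, h2, h3⟩ := hFm.glue (A' := cube m w) hA.isClosed (isClosed_cube' m w)
          (g := fun x => G (prj m w x))
          ⟨hGm.cont.comp (continuous_prj m w).continuousOn (fun x hx => prj_mem hx),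
            fun x hx => hGm.maps (prj_mem hx)⟩
          (by
            intro x hxA hxw
            have hxb : x ∈ bdry m w := inter_cube_subset hAw ⟨hxA, hxw⟩
            show F x = G (prj m w x)
            rw [hGe (prj_mem_Bd hxb)]
            show F x = F (emb m w (prj m w x))
            rw [emb_prj hm hxw])
        refine ⟨F₂, h1, fun x hx => by rw [h2 (hPA hx), hFe hx], ?_⟩
        rintro x (hx | hx)
        · rw [h2 hx]; exact hFd x hx
        · rw [h3 hx]
          have h4 := hGd _ (prj_mem hx)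
          have h5 := (hy _ hx).trans_le (min_le_right _ _)
          have h6 := dist_triangle (p (G (prj m w x))) (φ x₀) (φ x)
          rw [dist_comm (φ x₀)] at h6
          show dist (p (G (prj m w x))) (φ x) < ε
          have h7 : dist (p (G (prj m w x))) (φ x₀) < ε / 2 := h4
          linarith
    obtain ⟨F, h1, h2, h3⟩ := key
    exact ⟨F, h1, fun x hx => by rw [h2 (Or.inl hx), hF'e hx], h3⟩

/-- **Lifting over cubical sets.** -/
theorem lift_cub {k : ℕ} {p : α → β} {X' : Set α} {X : Set β} (hp : UVall k p X' X) {ε : ℝ}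
    (hε : 0 < ε) : ∃ δ > 0, ∀ {N m : ℕ} (_ : 0 < m) {P P₀ : Set (Fin N → ℝ)}
      (_ : IsCub m P) (_ : IsCub m P₀) (_ : P₀ ⊆ P)
      (_ : ∀ x ∈ P, x ∉ P₀ → dm (car m x) ≤ k) (φ : (Fin N → ℝ) → β) (_ : MapsTo φ P X)
      (_ : Osc m P φ δ) (G₀ : (Fin N → ℝ) → α) (_ : IsMap G₀ P₀ X')
      (_ : ∀ x ∈ P₀, dist (p (G₀ x)) (φ x) < δ),
      ∃ G : (Fin N → ℝ) → α, IsMap G P X' ∧ EqOn G G₀ P₀ ∧ ∀ x ∈ P, dist (p (G x)) (φ x) < ε := by
  obtain ⟨δ, hδ, h⟩ := lift_lt hp (k + 1) le_rfl ε hε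
  refine ⟨δ, hδ, ?_⟩
  intro N m hm P P₀ hP hP₀ hsub hdim φ hφ hosc G₀ hG₀ hd
  exact h hm hP hP₀ hsub (fun x hx hx0 => Nat.lt_succ_of_le (hdim x hx hx0)) φ hφ hosc G₀ hG₀ hd

end MG
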