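import Pool.Agent.Work.MP_017613_gt.Kit.UlcLayer
import Pool.Agent.Work.MP_017613_gt.Kit.Hep
import Pool.Agent.Work.MP_017613_gt.PushGrid

/-!
# MENGER toolkit (L4): pushing low dimensional compacta off the attached cells

* `DimLT d X`: `dim X < d`, in the form needed here.
* `Fam.push`, `Layer.push`: a map of `X` to `V = K u (d-cells)`, `dim X < d`, is homotopic to a map
  to `K` by a homotopy which moves every point inside the closed cell containing it.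
-/

open Set Metric Topology

namespace MG

open Pool.Agent.Work.MP_017613_gt (cN cH continuous_cN cN_nonneg PushOff pushOff_grid
  pushOff_of_finrank)

/-- gluing over a finite closed cover -/
theorem IsMap.glueFin {α β ι : Type*} [TopologicalSpace α] [TopologicalSpace β] [Finite ι]
    [Nonempty ι] {P : ι → Set α} (hP : ∀ i, IsClosed (P i)) {f : ι → α → β} {B : Set β}
    (hf : ∀ i, IsMap (f i) (P i) B) (hc : ∀ i i', ∀ x ∈ P i, x ∈ P i' → f i x = f i' x) :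
    ∃ F : α → β, IsMap F (⋃ i, P i) B ∧ ∀ i, EqOn F (f i) (P i) := by
  classical
  let F : α → β := fun x => if h : ∃ i, x ∈ P i then f h.choose x else
    f (Classical.arbitrary ι) x
  have hF : ∀ i, EqOn F (f i) (P i) := by
    intro i x hx
    have h : ∃ i, x ∈ P i := ⟨i, hx⟩
    simp only [F, dif_pos h]
    exact hc _ _ x h.choose_spec hx
  refine ⟨F, ⟨?_, ?_⟩, hF⟩
  · exact continuousOn_iUnion_of_isClosed hP fun i => (hf i).cont.congr (hF i)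
  · intro x hx
    obtain ⟨i, hi⟩ := mem_iUnion.1 hx
    rw [hF i hi]
    exact (hf i).maps hi

/-- concatenation of homotopies -/
theorem hcat {α β : Type*} [TopologicalSpace α] [TopologicalSpace β] {X : Set α} {T : Set β}
    (hX : IsClosed X) {H H' : α × ℝ → β} (hH : IsMap H (X ×ˢ Icc (0 : ℝ) 1) T)
    (hH' : IsMap H' (X ×ˢ Icc (0 : ℝ) 1) T) (he : ∀ x ∈ X, H (x, 1) = H' (x, 0)) :
    ∃ G : α × ℝ → β, IsMap G (X ×ˢ Icc (0 : ℝ) 1) T ∧ (∀ x ∈ X, G (x, 0) = H (x, 0)) ∧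
      (∀ x ∈ X, G (x, 1) = H' (x, 1)) ∧
      ∀ x ∈ X, ∀ t ∈ Icc (0 : ℝ) 1, (∃ s ∈ Icc (0 : ℝ) 1, G (x, t) = H (x, s)) ∨
        ∃ s ∈ Icc (0 : ℝ) 1, G (x, t) = H' (x, s) := by
  have c1 : IsClosed (X ×ˢ Icc (0 : ℝ) (1 / 2)) := hX.prod isClosed_Icc
  have c2 : IsClosed (X ×ˢ Icc (1 / 2 : ℝ) 1) := hX.prod isClosed_Icc
  have m1 : ∀ p ∈ X ×ˢ Icc (0 : ℝ) (1 / 2), (p.1, 2 * p.2) ∈ X ×ˢ Icc (0 : ℝ) 1 := by
    rintro ⟨x, t⟩ ⟨hx, ht⟩
    exact ⟨hx, ⟨by have := ht.1; simp only at this ⊢; linarith,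
      by have := ht.2; simp only at this ⊢; linarith⟩⟩
  have m2 : ∀ p ∈ X ×ˢ Icc (1 / 2 : ℝ) 1, (p.1, 2 * p.2 - 1) ∈ X ×ˢ Icc (0 : ℝ) 1 := by
    rintro ⟨x, t⟩ ⟨hx, ht⟩
    exact ⟨hx, ⟨by have := ht.1; simp only at this ⊢; linarith,
      by have := ht.2; simp only at this ⊢; linarith⟩⟩
  have f1 : IsMap (fun p : α × ℝ => H (p.1, 2 * p.2)) (X ×ˢ Icc (0 : ℝ) (1 / 2)) T :=
    ⟨hH.cont.comp (by fun_prop) m1, fun p hp => hH.maps (m1 p hp)⟩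
  have f2 : IsMap (fun p : α × ℝ => H' (p.1, 2 * p.2 - 1)) (X ×ˢ Icc (1 / 2 : ℝ) 1) T :=
    ⟨hH'.cont.comp (by fun_prop) m2, fun p hp => hH'.maps (m2 p hp)⟩
  obtain ⟨G, hG, e1, e2⟩ := IsMap.glue c1 c2 f1 f2 (by
    rintro ⟨x, t⟩ ⟨hx, ht⟩ ⟨_, ht'⟩
    have : t = 1 / 2 := le_antisymm ht.2 ht'.1
    subst this
    simp only
    rw [show (2 : ℝ) * (1 / 2) = 1 by norm_num, sub_self, he x hx])
  have hun : X ×ˢ Icc (0 : ℝ) (1 / 2) ∪ X ×ˢ Icc (1 / 2 : ℝ) 1 = X ×ˢ Icc (0 : ℝ) 1 := by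
    rw [← Set.prod_union]
    congr 1
    exact Icc_union_Icc_eq_Icc (by norm_num) (by norm_num)
  rw [hun] at hG
  refine ⟨G, hG, ?_, ?_, ?_⟩
  · intro x hx
    have : (x, (0 : ℝ)) ∈ X ×ˢ Icc (0 : ℝ) (1 / 2) := ⟨hx, ⟨le_rfl, by norm_num⟩⟩
    rw [e1 this]
    simp
  · intro x hx
    have : (x, (1 : ℝ)) ∈ X ×ˢ Icc (1 / 2 : ℝ) 1 := ⟨hx, ⟨by norm_num, le_rfl⟩⟩
    rw [e2 this]
    simp only
    norm_num
  · intro x hx t ht
    rcases le_total t (1 / 2) with h | h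
    · have h' : (x, t) ∈ X ×ˢ Icc (0 : ℝ) (1 / 2) := ⟨hx, ⟨ht.1, h⟩⟩
      exact Or.inl ⟨2 * t, (m1 _ h').2, e1 h'⟩
    · have h' : (x, t) ∈ X ×ˢ Icc (1 / 2 : ℝ) 1 := ⟨hx, ⟨h, ht.2⟩⟩
      exact Or.inr ⟨2 * t - 1, (m2 _ h').2, e2 h'⟩

/-- `dim X < d` -/
def DimLT {β : Type*} [MetricSpace β] (d : ℕ) (X : Set β) : Prop :=
  (d = 0 → X = ∅) ∧ ∀ k, d = k + 1 → PushOff k X

theorem DimLT.mono {β : Type*} [MetricSpace β] {d : ℕ} {X Y : Set β} (h : DimLT d X)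
    (hY : IsCompact Y) (hYX : Y ⊆ X) : DimLT d Y :=
  ⟨fun hd => subset_empty_iff.1 (h.1 hd ▸ hYX), fun k hk => (h.2 k hk).mono hY hYX⟩

theorem dimLT_dCu {j d : ℕ} (hjd : j ≤ d) : DimLT d (dCu j) := by
  refine ⟨fun hd => ?_, fun k hk => ?_⟩
  · have : j = 0 := by omega
    subst this
    exact dCu_zero
  · refine pushOff_grid (F := {0, 1}) (by simp) (isCompact_dCu j) ?_
    rintro x ⟨-, i, hi⟩
    refine ⟨Finset.univ.erase i, ?_, fun i' hi' => ?_⟩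
    · rw [Finset.card_erase_of_mem (Finset.mem_univ _), Finset.card_univ, Fintype.card_fin]
      omega
    · have : i' = i := by
        by_contra hne
        exact hi' (Finset.mem_erase.2 ⟨hne, Finset.mem_univ _⟩)
      subst this
      simpa using hi

theorem dimLT_Cu {j d : ℕ} (hjd : j < d) : DimLT d (Cu j) := by
  refine ⟨fun hd => by omega, fun k hk => ?_⟩
  refine pushOff_of_finrank ?_ (isCompact_Cu j)
  rw [Module.finrank_fin_fun]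
  omega

theorem dimLT_dCu_prod {j d : ℕ} (hjd : j < d) : DimLT d (dCu j ×ˢ Icc (0 : ℝ) 1) := by
  refine ⟨fun hd => by omega, fun k hk => ?_⟩
  have h1 : PushOff k (dCu (j + 1)) := (dimLT_dCu (show j + 1 ≤ d by omega)).2 k hk
  have h2 := h1.image (isCompact_dCu (j + 1)) (φ := cuSplit) continuous_cuSplit.continuousOn
    (fun x _ y _ h => cuSplit_inj h)
  refine h2.mono ((isCompact_dCu j).prod isCompact_Icc) ?_
  rintro ⟨x, t⟩ hx
  exact ⟨Fin.cons t x, mem_dCu_succ.2 (Or.inr (by rw [cuSplit_cons]; exact hx)), cuSplit_cons x t⟩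

lemma cN_add {d : ℕ} (u : Fin d → ℝ) : cN ((fun _ => (1 / 2 : ℝ)) + u) = 2 * ‖u‖ := by
  unfold cN
  rw [add_sub_cancel_left]

lemma cN_center {d : ℕ} : cN (fun _ : Fin d => (1 / 2 : ℝ)) = 0 := by
  unfold cN
  rw [sub_self, norm_zero, mul_zero]

section

variable {α β ι : Type*} [MetricSpace α] [MetricSpace β] [Finite ι]

/-- first step: perturb off the centres of the cells -/
theorem Fam.perturb {k : ℕ} {K V : Set α} {χ : ι → (Fin (k + 1) → ℝ) → α}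
    (h : Fam (Cu (k + 1)) (dCu (k + 1)) K V χ) (hK : IsCompact K) {X : Set β} (hX : IsCompact X)
    (hdim : PushOff k X) {a : β → α} (ha : IsMap a X V) :
    ∃ H : β × ℝ → α, IsMap H (X ×ˢ Icc (0 : ℝ) 1) V ∧ (∀ x ∈ X, H (x, 0) = a x) ∧
      (∀ x ∈ X, ∀ i, H (x, 1) ≠ χ i (fun _ => 1 / 2)) ∧
      (∀ x ∈ X, a x ∈ K → ∀ t ∈ Icc (0 : ℝ) 1, H (x, t) = a x) ∧
      ∀ x ∈ X, ∀ i, ∀ z ∈ Cu (k + 1), z ∉ dCu (k + 1) → a x = χ i z → ∀ t ∈ Icc (0 : ℝ) 1,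
        ∃ z' ∈ Cu (k + 1), z' ∉ dCu (k + 1) ∧ H (x, t) = χ i z' := by
  classical
  -- the inner cubes
  let C : Set (Fin (k + 1) → ℝ) := {z | cN z ≤ 1 / 2}
  have hCsub : C ⊆ Cu (k + 1) := fun z hz => mem_Cu_iff_cN.2 (le_trans hz (by norm_num))
  have hCd : ∀ z ∈ C, z ∉ dCu (k + 1) := fun z hz hz' => by
    rw [mem_dCu_iff_cN] at hz'
    have : cN z ≤ 1 / 2 := hz
    linarith
  have hCc : IsCompact C :=
    (isCompact_Cu (k + 1)).of_isClosed_subset (isClosed_le continuous_cN continuous_const) hCsub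
  have hCinj : ∀ i, InjOn (χ i) C := fun i z hz z' hz' he =>
    (h.inj i i z z' (hCsub hz) (hCd z hz) (hCsub hz') (hCd z' hz') he).2
  -- the outer parts
  let O : Set (Fin (k + 1) → ℝ) := {z | 1 / 2 ≤ cN z ∧ cN z ≤ 1}
  have hOsub : O ⊆ Cu (k + 1) := fun z hz => mem_Cu_iff_cN.2 hz.2
  have hOc : IsCompact O :=
    (isCompact_Cu (k + 1)).of_isClosed_subset ((isClosed_le continuous_const continuous_cN).inter
      (isClosed_le continuous_cN continuous_const)) hOsub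
  have hXi : ∀ i, IsClosed (X ∩ a ⁻¹' (χ i '' C)) := fun i =>
    ha.cont.preimage_isClosed_of_isClosed hX.isClosed
      (hCc.image_of_continuousOn ((h.cont i).mono hCsub)).isClosed
  have hXic : ∀ i, IsCompact (X ∩ a ⁻¹' (χ i '' C)) := fun i =>
    hX.of_isClosed_subset (hXi i) inter_subset_left
  have hR : IsClosed (X ∩ a ⁻¹' (K ∪ ⋃ i, χ i '' O)) :=
    ha.cont.preimage_isClosed_of_isClosed hX.isClosed
      (hK.isClosed.union (isClosed_iUnion_of_finite fun i =>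
        (hOc.image_of_continuousOn ((h.cont i).mono hOsub)).isClosed))
  -- the lifts
  have hlift : ∀ i, ∃ b : β → (Fin (k + 1) → ℝ), ContinuousOn b (X ∩ a ⁻¹' (χ i '' C)) ∧
      ∀ x ∈ X ∩ a ⁻¹' (χ i '' C), (fun _ => (1 / 2 : ℝ)) + b x ∈ C ∧
        χ i ((fun _ => (1 / 2 : ℝ)) + b x) = a x := by
    intro i
    have hinv : ContinuousOn (Function.invFunOn (χ i) C) (χ i '' C) := by
      refine continuousOn_image_of_compact hCc ((h.cont i).mono hCsub) ?_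
      refine continuousOn_id.congr fun z hz => ?_
      exact (hCinj i).leftInvOn_invFunOn hz
    refine ⟨fun x => Function.invFunOn (χ i) C (a x) - fun _ => (1 / 2 : ℝ), ?_, ?_⟩
    · exact (hinv.comp (ha.cont.mono inter_subset_left) fun x hx => hx.2).sub continuousOn_const
    · rintro x ⟨hx, z, hz, hzx⟩
      have h1 : Function.invFunOn (χ i) C (a x) = z := by
        rw [← hzx]; exact (hCinj i).leftInvOn_invFunOn hz
      have h2 : (fun _ => (1 / 2 : ℝ)) + (Function.invFunOn (χ i) C (a x) - fun _ => (1 / 2 : ℝ))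
          = z := by rw [h1]; abel
      show (fun _ => (1 / 2 : ℝ)) + (Function.invFunOn (χ i) C (a x) - fun _ => (1 / 2 : ℝ)) ∈ C ∧ _
      rw [h2]
      exact ⟨hz, hzx⟩
  choose b hbc hb using hlift
  have hbn : ∀ i, ∀ x ∈ X ∩ a ⁻¹' (χ i '' C), ‖b i x‖ ≤ 1 / 4 := by
    intro i x hx
    have h1 : cN ((fun _ => (1 / 2 : ℝ)) + b i x) ≤ 1 / 2 := (hb i x hx).1
    rw [cN_add] at h1
    linarith
  have hpush : ∀ i, ∃ g : β → (Fin (k + 1) → ℝ), ContinuousOn g (X ∩ a ⁻¹' (χ i '' C)) ∧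
      (∀ x ∈ X ∩ a ⁻¹' (χ i '' C), dist (g x) (b i x) < 1 / 16) ∧
      ∀ x ∈ X ∩ a ⁻¹' (χ i '' C), g x ≠ 0 := fun i =>
    (hdim.mono (hXic i) inter_subset_left) (b i) (hbc i) (1 / 16) (by norm_num)
  choose g hgc hgd hg0 using hpush
  -- the cut-off
  let φ : ℝ → ℝ := fun s => max 0 (min 1 (2 - 8 * s))
  have hφc : Continuous φ := by
    simp only [φ]
    fun_prop
  have hφ0 : ∀ s, 0 ≤ φ s := fun s => le_max_left _ _
  have hφ1 : ∀ s, φ s ≤ 1 := fun s => max_le zero_le_one (min_le_left _ _)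
  have hφa : ∀ s, s ≤ 1 / 8 → φ s = 1 := fun s hs => by
    simp only [φ]
    rw [min_eq_left (by linarith), max_eq_right zero_le_one]
  have hφb : ∀ s, 1 / 4 ≤ s → φ s = 0 := fun s hs => by
    simp only [φ]
    refine max_eq_left ((min_le_right _ _).trans (by linarith))
  let b' : ι → β × ℝ → (Fin (k + 1) → ℝ) := fun i p =>
    b i p.1 + (p.2 * φ ‖b i p.1‖) • (g i p.1 - b i p.1)
  have hb'n : ∀ i, ∀ x ∈ X ∩ a ⁻¹' (χ i '' C), ∀ t ∈ Icc (0 : ℝ) 1,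
      2 * ‖b' i (x, t)‖ < 1 := by
    intro i x hx t ht
    have h1 := hbn i x hx
    have h2 := hgd i x hx
    rw [dist_eq_norm] at h2
    have h3 : ‖b' i (x, t)‖ ≤ ‖b i x‖ + ‖(t * φ ‖b i x‖) • (g i x - b i x)‖ := norm_add_le _ _
    have h4 : ‖(t * φ ‖b i x‖) • (g i x - b i x)‖ ≤ 1 * ‖g i x - b i x‖ := by
      rw [norm_smul, Real.norm_eq_abs, abs_of_nonneg (mul_nonneg ht.1 (hφ0 _))]
      refine mul_le_mul_of_nonneg_right ?_ (norm_nonneg _)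
      calc t * φ ‖b i x‖ ≤ 1 * 1 := mul_le_mul ht.2 (hφ1 _) (hφ0 _) zero_le_one
        _ = 1 := one_mul 1
    linarith
  have hb'C : ∀ i, ∀ x ∈ X ∩ a ⁻¹' (χ i '' C), ∀ t ∈ Icc (0 : ℝ) 1,
      (fun _ => (1 / 2 : ℝ)) + b' i (x, t) ∈ Cu (k + 1) ∧
        (fun _ => (1 / 2 : ℝ)) + b' i (x, t) ∉ dCu (k + 1) := by
    intro i x hx t ht
    have h1 := hb'n i x hx t ht
    rw [mem_Cu_iff_cN, mem_dCu_iff_cN, cN_add]
    exact ⟨h1.le, h1.ne⟩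
  have hb'0 : ∀ i, ∀ x ∈ X ∩ a ⁻¹' (χ i '' C), b' i (x, 1) ≠ 0 := by
    intro i x hx h0
    have h0' : b i x + (1 * φ ‖b i x‖) • (g i x - b i x) = 0 := h0
    by_cases hs : ‖b i x‖ ≤ 1 / 8
    · rw [hφa _ hs, one_mul, one_smul, add_sub_cancel] at h0'
      exact hg0 i x hx h0'
    · push Not at hs
      have h2 := hgd i x hx
      rw [dist_eq_norm] at h2
      have h3 : ‖b i x‖ = ‖(1 * φ ‖b i x‖) • (g i x - b i x)‖ := by
        rw [← norm_neg ((1 * φ ‖b i x‖) • (g i x - b i x))]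
        congr 1
        exact eq_neg_of_add_eq_zero_left h0'
      rw [norm_smul, one_mul, Real.norm_eq_abs, abs_of_nonneg (hφ0 _)] at h3
      have h4 : φ ‖b i x‖ * ‖g i x - b i x‖ ≤ 1 * ‖g i x - b i x‖ :=
        mul_le_mul_of_nonneg_right (hφ1 _) (norm_nonneg _)
      linarith
  -- the pieces
  let P : Option ι → Set (β × ℝ) := fun o => o.elim
    ((X ∩ a ⁻¹' (K ∪ ⋃ i, χ i '' O)) ×ˢ Icc (0 : ℝ) 1)
    (fun i => (X ∩ a ⁻¹' (χ i '' C)) ×ˢ Icc (0 : ℝ) 1)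
  let f : Option ι → β × ℝ → α := fun o => o.elim (fun p => a p.1)
    (fun i p => χ i ((fun _ => (1 / 2 : ℝ)) + b' i p))
  have hPc : ∀ o, IsClosed (P o) := by
    rintro (_ | i)
    · exact hR.prod isClosed_Icc
    · exact (hXi i).prod isClosed_Icc
  have hf : ∀ o, IsMap (f o) (P o) V := by
    rintro (_ | i)
    · exact ⟨(ha.cont.mono inter_subset_left).comp continuousOn_fst fun p hp => hp.1,
        fun p hp => ha.maps hp.1.1⟩
    · have hbc' : ContinuousOn (fun p : β × ℝ => b i p.1)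
          ((X ∩ a ⁻¹' (χ i '' C)) ×ˢ Icc (0 : ℝ) 1) :=
        (hbc i).comp continuousOn_fst fun p hp => hp.1
      have hgc' : ContinuousOn (fun p : β × ℝ => g i p.1)
          ((X ∩ a ⁻¹' (χ i '' C)) ×ˢ Icc (0 : ℝ) 1) :=
        (hgc i).comp continuousOn_fst fun p hp => hp.1
      have hb'c : ContinuousOn (b' i) ((X ∩ a ⁻¹' (χ i '' C)) ×ˢ Icc (0 : ℝ) 1) :=
        hbc'.add ((continuousOn_snd.mul (hφc.comp_continuousOn hbc'.norm)).smul (hgc'.sub hbc'))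
      refine ⟨(h.cont i).comp (continuousOn_const.add hb'c) ?_, ?_⟩
      · rintro ⟨x, t⟩ ⟨hx, ht⟩
        exact (hb'C i x hx t ht).1
      · rintro ⟨x, t⟩ ⟨hx, ht⟩
        exact h.maps i (hb'C i x hx t ht).1
  -- on the overlap with the rest
  have hover : ∀ i, ∀ x ∈ X ∩ a ⁻¹' (χ i '' C), x ∈ X ∩ a ⁻¹' (K ∪ ⋃ i, χ i '' O) →
      ∀ t, χ i ((fun _ => (1 / 2 : ℝ)) + b' i (x, t)) = a x := by
    intro i x hx hx' t
    obtain ⟨h1, h2⟩ := hb i x hx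
    have h3 : cN ((fun _ => (1 / 2 : ℝ)) + b i x) = 1 / 2 := by
      refine le_antisymm h1 ?_
      rcases hx'.2 with hxK | hxO
      · exact absurd (h2 ▸ hxK) (h.off i _ (hCsub h1) (hCd _ h1))
      · obtain ⟨i', z', hz', hzx⟩ := mem_iUnion.1 hxO
        by_cases hzd : z' ∈ dCu (k + 1)
        · have : a x ∈ K := hzx ▸ h.bdry i' hzd
          exact absurd (h2 ▸ this) (h.off i _ (hCsub h1) (hCd _ h1))
        · obtain ⟨-, h5⟩ := h.inj i i' _ z' (hCsub h1) (hCd _ h1) (hOsub hz') hzd (h2.trans hzx.symm)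
          rw [h5]; exact hz'.1
    rw [cN_add] at h3
    have h4 : φ ‖b i x‖ = 0 := hφb _ (by linarith)
    show χ i ((fun _ => (1 / 2 : ℝ)) + (b i x + (t * φ ‖b i x‖) • (g i x - b i x))) = a x
    rw [h4, mul_zero, zero_smul, add_zero, h2]
  have hii : ∀ i i', ∀ x ∈ X ∩ a ⁻¹' (χ i '' C), x ∈ X ∩ a ⁻¹' (χ i' '' C) → i = i' := by
    intro i i' x hx hx'
    obtain ⟨h1, h2⟩ := hb i x hx
    obtain ⟨h1', h2'⟩ := hb i' x hx'
    exact (h.inj i i' _ _ (hCsub h1) (hCd _ h1) (hCsub h1') (hCd _ h1') (h2.trans h2'.symm)).1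
  have hcomp : ∀ o o', ∀ p ∈ P o, p ∈ P o' → f o p = f o' p := by
    rintro (_ | i) (_ | i') ⟨x, t⟩ hp hp'
    · rfl
    · exact (hover i' x hp'.1 hp.1 t).symm
    · exact hover i x hp.1 hp'.1 t
    · have : i = i' := hii i i' x hp.1 hp'.1
      subst this
      rfl
  obtain ⟨H, hH, hHe⟩ := IsMap.glueFin hPc hf hcomp
  -- the cover
  have hcov : ∀ x ∈ X, (x ∈ X ∩ a ⁻¹' (K ∪ ⋃ i, χ i '' O)) ∨ ∃ i, x ∈ X ∩ a ⁻¹' (χ i '' C) := by
    intro x hx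
    by_cases hxK : a x ∈ K
    · exact Or.inl ⟨hx, Or.inl hxK⟩
    · obtain ⟨i, z, hz, hzd, hzx⟩ := h.exists_rep (ha.maps hx) hxK
      rcases le_total (cN z) (1 / 2) with h1 | h1
      · exact Or.inr ⟨i, hx, z, h1, hzx⟩
      · exact Or.inl ⟨hx, Or.inr (mem_iUnion.2 ⟨i, z, ⟨h1, mem_Cu_iff_cN.1 hz⟩, hzx⟩)⟩
  have hun : (⋃ o, P o) = X ×ˢ Icc (0 : ℝ) 1 := by
    ext ⟨x, t⟩
    constructor
    · intro hp
      obtain ⟨o, ho⟩ := mem_iUnion.1 hp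
      cases o with
      | none => exact ⟨ho.1.1, ho.2⟩
      | some i => exact ⟨ho.1.1, ho.2⟩
    · rintro ⟨hx, ht⟩
      rcases hcov x hx with h1 | ⟨i, h1⟩
      · exact mem_iUnion.2 ⟨none, ⟨h1, ht⟩⟩
      · exact mem_iUnion.2 ⟨some i, ⟨h1, ht⟩⟩
  rw [hun] at hH
  have hHR : ∀ x ∈ X ∩ a ⁻¹' (K ∪ ⋃ i, χ i '' O), ∀ t ∈ Icc (0 : ℝ) 1, H (x, t) = a x :=
    fun x hx t ht => hHe none (⟨hx, ht⟩ : (x, t) ∈ P none)
  have hHi : ∀ i, ∀ x ∈ X ∩ a ⁻¹' (χ i '' C), ∀ t ∈ Icc (0 : ℝ) 1,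
      H (x, t) = χ i ((fun _ => (1 / 2 : ℝ)) + b' i (x, t)) :=
    fun i x hx t ht => hHe (some i) (⟨hx, ht⟩ : (x, t) ∈ P (some i))
  have h0I : (0 : ℝ) ∈ Icc (0 : ℝ) 1 := ⟨le_rfl, zero_le_one⟩
  have h1I : (1 : ℝ) ∈ Icc (0 : ℝ) 1 := ⟨zero_le_one, le_rfl⟩
  have hcC : (fun _ : Fin (k + 1) => (1 / 2 : ℝ)) ∈ C := by
    show cN _ ≤ 1 / 2
    rw [cN_center]; norm_num
  refine ⟨H, hH, ?_, ?_, ?_, ?_⟩
  · intro x hx
    rcases hcov x hx with h1 | ⟨i, h1⟩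
    · exact hHR x h1 0 h0I
    · rw [hHi i x h1 0 h0I]
      show χ i ((fun _ => (1 / 2 : ℝ)) + (b i x + (0 * φ ‖b i x‖) • (g i x - b i x))) = a x
      rw [zero_mul, zero_smul, add_zero, (hb i x h1).2]
  · intro x hx i' heq
    rcases hcov x hx with h1 | ⟨i, h1⟩
    · rw [hHR x h1 1 h1I] at heq
      rcases h1.2 with hxK | hxO
      · exact h.off i' _ (hCsub hcC) (hCd _ hcC) (heq ▸ hxK)
      · obtain ⟨i, z, hz, hzx⟩ := mem_iUnion.1 hxO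
        by_cases hzd : z ∈ dCu (k + 1)
        · have : a x ∈ K := hzx ▸ h.bdry i hzd
          exact h.off i' _ (hCsub hcC) (hCd _ hcC) (heq ▸ this)
        · obtain ⟨-, h5⟩ := h.inj i i' z _ (hOsub hz) hzd (hCsub hcC) (hCd _ hcC) (hzx.trans heq)
          have h6 := hz.1
          rw [h5, cN_center] at h6
          norm_num at h6
    · rw [hHi i x h1 1 h1I] at heq
      obtain ⟨h2, h3⟩ := hb'C i x h1 1 h1I
      obtain ⟨-, h5⟩ := h.inj i i' _ _ h2 h3 (hCsub hcC) (hCd _ hcC) heq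
      exact hb'0 i x h1 (by simpa using h5)
  · intro x hx hxK t ht
    exact hHR x ⟨hx, Or.inl hxK⟩ t ht
  · intro x hx i z hz hzd hzx t ht
    rcases hcov x hx with h1 | ⟨i', h1⟩
    · exact ⟨z, hz, hzd, by rw [hHR x h1 t ht, hzx]⟩
    · obtain ⟨h2, h3⟩ := hb i' x h1
      obtain ⟨rfl, -⟩ := h.inj i' i _ z (hCsub h2) (hCd _ h2) hz hzd (h3.trans hzx)
      exact ⟨_, (hb'C i' x h1 t ht).1, (hb'C i' x h1 t ht).2, hHi i' x h1 t ht⟩

/-- (L4) a map of `X`, `dim X < d`, to `V = K u (d-cells)` is pushed to `K` inside the cells -/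
theorem Fam.push {d : ℕ} {K V : Set α} {χ : ι → (Fin d → ℝ) → α}
    (h : Fam (Cu d) (dCu d) K V χ) (hK : IsCompact K) {X : Set β} (hX : IsCompact X)
    (hdim : DimLT d X) {a : β → α} (ha : IsMap a X V) :
    ∃ H : β × ℝ → α, IsMap H (X ×ˢ Icc (0 : ℝ) 1) V ∧ (∀ x ∈ X, H (x, 0) = a x) ∧
      (∀ x ∈ X, H (x, 1) ∈ K) ∧
      (∀ x ∈ X, a x ∈ K → ∀ t ∈ Icc (0 : ℝ) 1, H (x, t) = a x) ∧
      ∀ x ∈ X, ∀ i, ∀ z ∈ Cu d, z ∉ dCu d → a x = χ i z → ∀ t ∈ Icc (0 : ℝ) 1,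
        H (x, t) ∈ χ i '' Cu d := by
  rcases d with _ | k
  · have hXe : X = ∅ := hdim.1 rfl
    subst hXe
    exact ⟨fun p => a p.1, by rw [empty_prod]; exact IsMap.empty, fun x hx => hx.elim,
      fun x hx => hx.elim, fun x hx => hx.elim, fun x hx => hx.elim⟩
  obtain ⟨H₁, hH₁, h0, hc, hKx, hcell⟩ := h.perturb hK hX (hdim.2 k rfl) ha
  have h0I : (0 : ℝ) ∈ Icc (0 : ℝ) 1 := ⟨le_rfl, zero_le_one⟩
  have h1I : (1 : ℝ) ∈ Icc (0 : ℝ) 1 := ⟨zero_le_one, le_rfl⟩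
  have ha' : IsMap (fun x => H₁ (x, 1)) X V :=
    ⟨hH₁.cont.comp (by fun_prop) fun x hx => ⟨hx, h1I⟩, fun x hx => hH₁.maps ⟨hx, h1I⟩⟩
  -- distance to the centres
  have hdisj : Disjoint ((fun x => H₁ (x, 1)) '' X) (⋃ i, {χ i (fun _ => 1 / 2)}) := by
    rw [Set.disjoint_left]
    rintro _ ⟨x, hx, rfl⟩ hv
    obtain ⟨i, hi⟩ := mem_iUnion.1 hv
    exact hc x hx i hi
  obtain ⟨ρ, hρ, hρ'⟩ := exists_pos_forall_lt_edist (hX.image_of_continuousOn ha'.cont)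
    (isClosed_iUnion_of_finite fun i => isClosed_singleton) hdisj
  obtain ⟨δ, hδ, hδ'⟩ := h.unif (isCompact_Cu (k + 1)) (e := (ρ : ℝ)) (by exact_mod_cast hρ)
  set r : ℝ := min 1 (2 * δ) with hr
  have hr0 : 0 < r := lt_min one_pos (by linarith)
  have hr1 : r ≤ 1 := min_le_left _ _
  obtain ⟨D, hB'c, hA', hB'B, hD, hD0, hD1, hDA, -⟩ := rad_def (k + 1) hr0 hr1
  obtain ⟨F, hF, hFK, hFχ, hF0, hF1⟩ := h.glueDef hK.isClosed hB'c hB'B hD hD0 hD1 hDA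
  have hcC : (fun _ : Fin (k + 1) => (1 / 2 : ℝ)) ∈ Cu (k + 1) := by
    rw [mem_Cu_iff_cN, cN_center]; norm_num
  have hfar : ∀ x ∈ X, ∀ i, ∀ z ∈ Cu (k + 1), H₁ (x, 1) = χ i z → r ≤ cN z := by
    intro x hx i z hz heq
    have h2 := hρ' _ ⟨x, hx, rfl⟩ (χ i (fun _ => 1 / 2)) (mem_iUnion.2 ⟨i, rfl⟩)
    simp only at h2
    rw [heq, edist_nndist] at h2
    have h3 : ρ < nndist (χ i z) (χ i (fun _ => 1 / 2)) := by exact_mod_cast h2
    have h4 : (ρ : ℝ) < dist (χ i z) (χ i (fun _ => 1 / 2)) := by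
      rw [← coe_nndist]; exact_mod_cast h3
    have h5 : δ ≤ dist z (fun _ => 1 / 2) := by
      by_contra hcon
      push Not at hcon
      exact absurd (hδ' i z hz _ hcC hcon) (not_lt.2 h4.le)
    have h6 : cN z = 2 * dist z (fun _ => 1 / 2) := by
      rw [dist_eq_norm]; rfl
    rw [h6]
    exact (min_le_right _ _).trans (by linarith)
  have haV' : ∀ x ∈ X, H₁ (x, 1) ∈ K ∪ ⋃ i, χ i '' {x : Fin (k + 1) → ℝ | r ≤ cN x ∧ cN x ≤ 1} := by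
    intro x hx
    by_cases hxK : H₁ (x, 1) ∈ K
    · exact Or.inl hxK
    · obtain ⟨i, z, hz, hzd, hzx⟩ := h.exists_rep (ha'.maps hx) hxK
      exact Or.inr (mem_iUnion.2 ⟨i, z, ⟨hfar x hx i z hz hzx.symm, mem_Cu_iff_cN.1 hz⟩, hzx⟩)
  have hH₂ : IsMap (fun p : β × ℝ => F (H₁ (p.1, 1), p.2)) (X ×ˢ Icc (0 : ℝ) 1) V := by
    have h2 : IsMap (fun p : β × ℝ => (H₁ (p.1, 1), p.2)) (X ×ˢ Icc (0 : ℝ) 1)
        ((K ∪ ⋃ i, χ i '' {x : Fin (k + 1) → ℝ | r ≤ cN x ∧ cN x ≤ 1}) ×ˢ Icc (0 : ℝ) 1) :=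
      ⟨(ha'.cont.comp continuousOn_fst fun p hp => hp.1).prodMk continuousOn_snd,
        fun p hp => ⟨haV' _ hp.1, hp.2⟩⟩
    exact hF.comp h2
  obtain ⟨G, hG, hG0, hG1, hGt⟩ := hcat hX.isClosed hH₁ hH₂ (fun x hx => by
    show H₁ (x, 1) = F (H₁ (x, 1), 0)
    rw [hF0 _ (haV' x hx)])
  refine ⟨G, hG, fun x hx => by rw [hG0 x hx, h0 x hx], fun x hx => ?_, ?_, ?_⟩
  · rw [hG1 x hx]
    exact hF1 _ (haV' x hx)
  · intro x hx hxK t ht
    rcases hGt x hx t ht with ⟨s, hs, he⟩ | ⟨s, hs, he⟩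
    · rw [he]; exact hKx x hx hxK s hs
    · rw [he]
      show F (H₁ (x, 1), s) = a x
      rw [hKx x hx hxK 1 h1I]
      exact hFK _ hxK s hs
  · intro x hx i z hz hzd hzx t ht
    rcases hGt x hx t ht with ⟨s, hs, he⟩ | ⟨s, hs, he⟩
    · obtain ⟨z', hz', -, he'⟩ := hcell x hx i z hz hzd hzx s hs
      exact ⟨z', hz', (he.trans he').symm⟩
    · obtain ⟨z', hz', -, he'⟩ := hcell x hx i z hz hzd hzx 1 h1I
      have h7 : z' ∈ {x : Fin (k + 1) → ℝ | r ≤ cN x ∧ cN x ≤ 1} :=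
        ⟨hfar x hx i z' hz' he', mem_Cu_iff_cN.1 hz'⟩
      rw [he]
      show F (H₁ (x, 1), s) ∈ _
      rw [he', hFχ i z' h7 s hs]
      exact ⟨_, hD.maps ⟨h7, hs⟩, rfl⟩

end

/-- (L4) for a layer: the tracks stay in a closed cell containing the point, or are constant -/
theorem Layer.push {α β : Type*} [MetricSpace α] [MetricSpace β] {d : ℕ} {K V : Set α}
    (h : Layer d K V) (hK : IsCompact K) {X : Set β} (hX : IsCompact X) (hdim : DimLT d X)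
    {a : β → α} (ha : IsMap a X V) :
    ∃ H : β × ℝ → α, IsMap H (X ×ˢ Icc (0 : ℝ) 1) V ∧ (∀ x ∈ X, H (x, 0) = a x) ∧
      (∀ x ∈ X, H (x, 1) ∈ K) ∧ ∀ x ∈ X, a x ∈ K → ∀ t ∈ Icc (0 : ℝ) 1, H (x, t) = a x := by
  obtain ⟨m, χ, h⟩ := h
  obtain ⟨H, h1, h2, h3, h4, -⟩ := h.push hK hX hdim ha
  exact ⟨H, h1, h2, h3, h4⟩

/-- (L4) with control: if all cells have size `< e` measured by `c`, the tracks have size `< e` -/
theorem Fam.push_ctrl {α β γ ι : Type*} [MetricSpace α] [MetricSpace β] [MetricSpace γ]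
    [Finite ι] {d : ℕ} {K V : Set α} {χ : ι → (Fin d → ℝ) → α}
    (h : Fam (Cu d) (dCu d) K V χ) (hK : IsCompact K) {X : Set β} (hX : IsCompact X)
    (hdim : DimLT d X) {a : β → α} (ha : IsMap a X V) {c : α → γ} {e : ℝ} (he : 0 < e)
    (hc : ∀ i, ∀ z ∈ Cu d, ∀ z' ∈ Cu d, dist (c (χ i z)) (c (χ i z')) < e) :
    ∃ H : β × ℝ → α, IsMap H (X ×ˢ Icc (0 : ℝ) 1) V ∧ (∀ x ∈ X, H (x, 0) = a x) ∧
      (∀ x ∈ X, H (x, 1) ∈ K) ∧ (∀ x ∈ X, a x ∈ K → ∀ t ∈ Icc (0 : ℝ) 1, H (x, t) = a x) ∧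
      ∀ x ∈ X, ∀ t ∈ Icc (0 : ℝ) 1, dist (c (H (x, t))) (c (a x)) < e := by
  obtain ⟨H, h1, h2, h3, h4, h5⟩ := h.push hK hX hdim ha
  refine ⟨H, h1, h2, h3, h4, fun x hx t ht => ?_⟩
  by_cases hxK : a x ∈ K
  · rw [h4 x hx hxK t ht, dist_self]; exact he
  · obtain ⟨i, z, hz, hzd, hzx⟩ := h.exists_rep (ha.maps hx) hxK
    obtain ⟨z', hz', he'⟩ := h5 x hx i z hz hzd hzx.symm t ht
    rw [← he', ← hzx]
    exact hc i z' hz' z hz

/-- maps of `(Cu j, dCu j)`, `j < d`, to `(V, K)` are pushed to `K` rel boundary -/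
theorem Layer.compress {α : Type*} [MetricSpace α] {j d : ℕ} (hj : j < d) {K V : Set α}
    (h : Layer d K V) (hK : IsCompact K) {a : (Fin j → ℝ) → α} (ha : IsMap a (Cu j) V)
    (hb : ∀ x ∈ dCu j, a x ∈ K) :
    ∃ a' : (Fin j → ℝ) → α, IsMap a' (Cu j) K ∧ EqOn a' a (dCu j) := by
  obtain ⟨H, h1, -, h3, h4⟩ := h.push hK (isCompact_Cu j) (dimLT_Cu hj) ha
  have h1I : (1 : ℝ) ∈ Icc (0 : ℝ) 1 := ⟨zero_le_one, le_rfl⟩
  exact ⟨fun x => H (x, 1), ⟨h1.cont.comp (by fun_prop) fun x hx => ⟨hx, h1I⟩,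
    fun x hx => h3 x hx⟩, fun x hx => h4 x (dCu_subset j hx) (hb x hx) 1 h1I⟩

end MG
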