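import Pool.Agent.Work.MP_017613_gt.Kit.CollarSet

/-!
# MENGER toolkit: the softness criterion (SLIDE)

`L.of_slide`: `p : V' → V` with a (near-)section `s` and a homotopy `D` of `V'` from the identity to
`s ∘ p` along the (near-)fibres of `p` has the lifting property `L k p V' V r` for all `k` and all
`r > η`, `η` the size of the tracks of `p ∘ D`.
-/

open Set Metric Topology

namespace MG

variable {α β : Type*} [MetricSpace α] [MetricSpace β]

/-- lifting over a single cell of any dimension, from a slide -/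
theorem slide_cell {p : α → β} {s : β → α} {D : α × ℝ → α} {V' : Set α} {V : Set β} {η : ℝ}
    (_hp : IsMap p V' V) (hs : IsMap s V V') (hD : IsMap D (V' ×ˢ Icc (0 : ℝ) 1) V')
    (hD0 : ∀ x ∈ V', D (x, 0) = x) (hD1 : ∀ x ∈ V', D (x, 1) = s (p x))
    (hps : ∀ y ∈ V, dist (p (s y)) y ≤ η)
    (htr : ∀ x ∈ V', ∀ t ∈ Icc (0 : ℝ) 1, dist (p (D (x, t))) (p x) ≤ η)
    {r : ℝ} (hr : η < r) {j : ℕ} {f : (Fin j → ℝ) → β} {f0 : (Fin j → ℝ) → α}
    (hf : IsMap f (Cu j) V) (hf0 : IsMap f0 (dCu j) V') (hc : ∀ x ∈ dCu j, p (f0 x) = f x) :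
    ∃ F : (Fin j → ℝ) → α, IsMap F (Cu j) V' ∧ EqOn F f0 (dCu j) ∧
      ∀ x ∈ Cu j, dist (p (F x)) (f x) < r := by
  have huc : UniformContinuousOn f (Cu j) :=
    (isCompact_Cu j).uniformContinuousOn_of_continuous hf.cont
  obtain ⟨w, hw, hw'⟩ := Metric.uniformContinuousOn_iff.1 huc (r - η) (by linarith)
  have hH : IsMap (fun q : (Fin j → ℝ) × ℝ => D (f0 q.1, q.2)) (dCu j ×ˢ Icc (0 : ℝ) 1) V' := by
    refine ⟨hD.cont.comp ?_ fun q hq => ⟨hf0.maps hq.1, hq.2⟩,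
      fun q hq => hD.maps ⟨hf0.maps hq.1, hq.2⟩⟩
    exact (hf0.cont.comp continuousOn_fst fun q hq => hq.1).prodMk continuousOn_snd
  obtain ⟨F, hF, hF0, hF1⟩ := collar (hs.comp hf) hH
    (fun x hx => by simp only [hD1 _ (hf0.maps hx), hc x hx]) hw
  refine ⟨F, hF, fun x hx => ?_, fun x hx => ?_⟩
  · rw [hF0 x hx]; exact hD0 _ (hf0.maps hx)
  · rcases hF1 x hx with ⟨x', hx', t, ht, he, hd⟩ | ⟨x', hx', he, hd⟩
    · rw [he]
      have h1 := htr _ (hf0.maps hx') t ht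
      rw [hc x' hx'] at h1
      have h2 := hw' _ (dCu_subset j hx') _ hx (by rwa [dist_comm])
      have h3 := dist_triangle (p (D (f0 x', t))) (f x') (f x)
      linarith
    · rw [he]
      have h1 := hps _ (hf.maps hx')
      have h2 := hw' _ hx' _ hx (by rwa [dist_comm])
      have h3 := dist_triangle (p (s (f x'))) (f x') (f x)
      linarith

/-- SLIDE, approximate form -/
theorem L.of_slide' (k : ℕ) {p : α → β} {s : β → α} {D : α × ℝ → α} {V' : Set α} {V : Set β}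
    {η : ℝ} (hp : IsMap p V' V) (hs : IsMap s V V') (hD : IsMap D (V' ×ˢ Icc (0 : ℝ) 1) V')
    (hD0 : ∀ x ∈ V', D (x, 0) = x) (hD1 : ∀ x ∈ V', D (x, 1) = s (p x))
    (hps : ∀ y ∈ V, dist (p (s y)) y ≤ η)
    (htr : ∀ x ∈ V', ∀ t ∈ Icc (0 : ℝ) 1, dist (p (D (x, t))) (p x) ≤ η)
    {r : ℝ} (hr : η < r) : L k p V' V r :=
  fun _ _ _ _ hf hf0 hc => slide_cell hp hs hD hD0 hD1 hps htr hr hf hf0 hc

/-- SLIDE: `p D = p`, `p s = id` -/
theorem L.of_slide (k : ℕ) {p : α → β} {s : β → α} {D : α × ℝ → α} {V' : Set α} {V : Set β}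
    (hp : IsMap p V' V) (hs : IsMap s V V') (hD : IsMap D (V' ×ˢ Icc (0 : ℝ) 1) V')
    (hD0 : ∀ x ∈ V', D (x, 0) = x) (hD1 : ∀ x ∈ V', D (x, 1) = s (p x))
    (hps : ∀ y ∈ V, p (s y) = y)
    (htr : ∀ x ∈ V', ∀ t ∈ Icc (0 : ℝ) 1, p (D (x, t)) = p x)
    {r : ℝ} (hr : 0 < r) : L k p V' V r :=
  L.of_slide' k hp hs hD hD0 hD1 (fun y hy => by rw [hps y hy, dist_self])
    (fun x hx t ht => by rw [htr x hx t ht, dist_self]) hr

/-- ULC passes down along a retraction with control: if `V'` is `ULC k`, `p : V' → V`, `s : V → V'`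
are uniformly continuous and `p s = id`, then `V` is `ULC k` -/
theorem ULC.of_retract {k : ℕ} {p : α → β} {s : β → α} {V' : Set α} {V : Set β}
    (h : ULC k V') (hp : IsMap p V' V) (hs : IsMap s V V') (hps : ∀ y ∈ V, p (s y) = y)
    (hpu : UniformContinuousOn p V') (hsu : UniformContinuousOn s V) : ULC k V := by
  intro ε hε
  obtain ⟨ε', hε', hp'⟩ := Metric.uniformContinuousOn_iff.1 hpu ε hε
  obtain ⟨δ', hδ', hU⟩ := h (ε') hε'
  obtain ⟨δ, hδ, hs'⟩ := Metric.uniformContinuousOn_iff.1 hsu δ' hδ'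
  refine ⟨δ, hδ, fun j hj y hy a ha hay => ?_⟩
  obtain ⟨F, h1, h2, h3⟩ := hU j hj (s y) (hs.maps hy) (fun x => s (a x)) (hs.comp ha)
    (fun x hx => hs' _ (ha.maps hx) _ hy (hay x hx))
  refine ⟨fun x => p (F x), hp.comp h1, fun x hx => ?_, fun x hx => ?_⟩
  · show p (F x) = a x
    rw [h2 hx]
    exact hps _ (ha.maps hx)
  · have := hp' _ (h1.maps hx) _ (hs.maps hy) (h3 x hx)
    rwa [hps y hy] at this

end MG
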