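import Pool.Agent.Work.MP_017613_gt.Kit.CubExt

/-!
# SUBDIV: subdivision of attached cells

* `Fam.transport`: a filtration step inside the model gives a filtration step of `V`.
* `IsCub.fam`: the step from `A` to `B` (cubical sets, all new cubes of dimension `d`) is a family of
  attached `d`-cells, each cell contained in a cube of the grid.
* `Fam.subdiv`: one layer of `d`-cells = `d + 1` layers of small cells of dimensions `0, ..., d`.
-/

open Set Topology Metric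

namespace MG

section

variable {ε ε' α ι κ : Type*} [TopologicalSpace ε] [TopologicalSpace ε'] [TopologicalSpace α]

/-- a filtration step inside the model gives a filtration step of the space -/
theorem Fam.transport {B A S S' : Set ε} {K V : Set α} {χ : ι → ε → α} (h : Fam B A K V χ)
    (hAS : A ⊆ S) (hS' : S' ⊆ B) {C C0 : Set ε'} {ψ : κ → ε' → ε} (hψ : Fam C C0 S S' ψ)
    (_hC : C0 ⊆ C) :
    Fam C C0 (K ∪ ⋃ i, χ i '' S) (K ∪ ⋃ i, χ i '' S') (fun (p : ι × κ) x => χ p.1 (ψ p.2 x)) := by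
  have hSS' : S ⊆ S' := by rw [hψ.union]; exact subset_union_left
  have hmS' : ∀ b, MapsTo (ψ b) C S' := fun b x hx => by
    rw [hψ.union]; exact Or.inr (mem_iUnion.2 ⟨b, x, hx, rfl⟩)
  refine ⟨fun p => ?_, fun p x hx => ?_, fun p x hx hx0 => ?_, fun p p' x x' hx hx0 hx' hx0' he => ?_,
    ?_⟩
  · exact (h.cont p.1).comp (hψ.cont p.2) fun x hx => hS' (hmS' _ hx)
  · exact Or.inr (mem_iUnion.2 ⟨p.1, _, hψ.bdry p.2 hx, rfl⟩)
  · rintro (hK | hU)
    · exact h.off p.1 _ (hS' (hmS' p.2 hx)) (fun hA => hψ.off p.2 x hx hx0 (hAS hA)) hK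
    · obtain ⟨i, s, hs, he⟩ := mem_iUnion.1 hU
      have h1 : ψ p.2 x ∉ A := fun hA => hψ.off p.2 x hx hx0 (hAS hA)
      by_cases hsA : s ∈ A
      · apply h.off p.1 _ (hS' (hmS' p.2 hx)) h1
        rw [← he]
        exact h.bdry i hsA
      · obtain ⟨-, h2⟩ := h.inj _ _ _ _ (hS' (hSS' hs)) hsA (hS' (hmS' p.2 hx)) h1 he
        exact hψ.off p.2 x hx hx0 (h2 ▸ hs)
  · have h1 : ψ p.2 x ∉ A := fun hA => hψ.off p.2 x hx hx0 (hAS hA)
    have h1' : ψ p'.2 x' ∉ A := fun hA => hψ.off p'.2 x' hx' hx0' (hAS hA)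
    obtain ⟨h2, h3⟩ := h.inj _ _ _ _ (hS' (hmS' p.2 hx)) h1 (hS' (hmS' p'.2 hx')) h1' he
    obtain ⟨h4, h5⟩ := hψ.inj _ _ _ _ hx hx0 hx' hx0' h3
    exact ⟨Prod.ext h2 h4, h5⟩
  · apply Subset.antisymm
    · rintro y (hy | hy)
      · exact Or.inl (Or.inl hy)
      · obtain ⟨i, s, hs, rfl⟩ := mem_iUnion.1 hy
        rw [hψ.union] at hs
        rcases hs with hs | hs
        · exact Or.inl (Or.inr (mem_iUnion.2 ⟨i, s, hs, rfl⟩))
        · obtain ⟨b, x, hx, rfl⟩ := mem_iUnion.1 hs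
          exact Or.inr (mem_iUnion.2 ⟨(i, b), x, hx, rfl⟩)
    · rintro y (hy | hy)
      · exact union_subset_union_right _ (iUnion_mono fun i => image_mono hSS') hy
      · obtain ⟨p, x, hx, rfl⟩ := mem_iUnion.1 hy
        exact Or.inr (mem_iUnion.2 ⟨p.1, _, hmS' p.2 hx, rfl⟩)

/-- the members of the filtration -/
theorem Fam.filt_zero {B A : Set ε} {K V : Set α} {χ : ι → ε → α} (h : Fam B A K V χ) :
    K ∪ ⋃ i, χ i '' A = K := by
  apply union_eq_left.2
  exact iUnion_subset fun i => image_subset_iff.2 (h.bdry i)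

end

variable {N : ℕ}

/-- the step between cubical sets is a family of attached cells, each inside a cube -/
theorem IsCub.fam {m : ℕ} (hm : 0 < m) {A B : Set (Fin N → ℝ)} (hA : IsCub m A) (hB : IsCub m B)
    (hAB : A ⊆ B) {d : ℕ} (hd : ∀ x ∈ B, x ∉ A → dm (car m x) = d) :
    ∃ (W : Set (Fin N → ℤ)) (χ : W → (Fin d → ℝ) → (Fin N → ℝ)), W.Finite ∧
      Fam (Cu d) (dCu d) A B χ ∧ ∀ w : W, χ w '' Cu d ⊆ cube m (w : Fin N → ℤ) := by
  classical
  set W : Set (Fin N → ℤ) := car m '' (B \ A) with hW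
  have hWf : W.Finite := hB.finite_car.subset (image_mono sdiff_subset)
  have hWd : ∀ w ∈ W, dm w = d := by
    rintro _ ⟨x, hx, rfl⟩
    exact hd x hx.1 hx.2
  have hWB : ∀ w ∈ W, cube m w ⊆ B := by
    rintro _ ⟨x, hx, rfl⟩
    exact hB.sat x hx.1
  have hWA : ∀ w ∈ W, ∀ x ∈ A, car m x ≠ w := by
    rintro _ ⟨x, hx, rfl⟩ y hy h
    exact hx.2 (hA.sat y hy (h ▸ mem_cube_car m x))
  have hWb : ∀ w ∈ W, bdry m w ⊆ A := by
    intro w hw x hx
    by_contra hxA
    have h1 := hd x (hWB w hw hx.1) hxA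
    have h2 := dm_car_lt hx
    rw [hWd w hw] at h2
    omega
  have key : ∀ w : W, ∃ χ : (Fin d → ℝ) → (Fin N → ℝ), Continuous χ ∧
      (∀ t ∈ dCu d, χ t ∈ bdry m (w : Fin N → ℤ)) ∧ χ '' Cu d = cube m (w : Fin N → ℤ) ∧
      (∀ t ∈ Cu d, t ∉ dCu d → car m (χ t) = w) ∧ ∀ s t, χ s = χ t → s = t := by
    rintro ⟨w, hw⟩
    obtain rfl := hWd w hw
    refine ⟨emb m w, continuous_emb m w, fun t ht => emb_mem_bdry hm ht, ?_, ?_, ?_⟩
    · apply Subset.antisymm
      · rintro _ ⟨t, ht, rfl⟩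
        exact emb_mem hm ht
      · intro x hx
        exact ⟨prj m w x, prj_mem hx, emb_prj hm hx⟩
    · intro t ht htb
      by_contra hne
      apply htb
      have h1 : emb m w t ∈ bdry m w := ⟨emb_mem hm ht, hne⟩
      rw [mem_bdry_iff (emb_mem hm ht), prj_emb hm] at h1
      exact h1
    · intro s t hst
      rw [← prj_emb hm w s, hst, prj_emb hm]
  choose χ h1 h2 h3 h4 h5 using key
  refine ⟨W, χ, hWf, ⟨fun i => (h1 i).continuousOn, ?_, ?_, ?_, ?_⟩, fun w => (h3 w).subset⟩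
  · intro i t ht
    exact hWb i i.2 (h2 i t ht)
  · intro i t ht htb hA'
    exact hWA i i.2 _ hA' (h4 i t ht htb)
  · intro i i' s t hs hsb ht htb hst
    have h6 : (i : Fin N → ℤ) = i' := by rw [← h4 i s hs hsb, hst, h4 i' t ht htb]
    have h7 : i = i' := Subtype.ext h6
    subst h7
    exact ⟨rfl, h5 i s t hst⟩
  · apply Subset.antisymm
    · intro x hx
      by_cases hxA : x ∈ A
      · exact Or.inl hxA
      · right
        have hw : car m x ∈ W := ⟨x, ⟨hx, hxA⟩, rfl⟩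
        refine mem_iUnion.2 ⟨⟨car m x, hw⟩, ?_⟩
        rw [h3]
        exact mem_cube_car m x
    · refine union_subset hAB (iUnion_subset fun i => ?_)
      rw [h3]
      exact hWB i i.2

/-- reindexing of a family by `Fin n` -/
theorem Fam.reindex {ε α ι : Type*} [TopologicalSpace ε] [TopologicalSpace α] [Finite ι]
    {B A : Set ε} {K V : Set α} {χ : ι → ε → α} (h : Fam B A K V χ) :
    ∃ (n : ℕ) (e : Fin n ≃ ι), Fam B A K V (fun b => χ (e b)) := by
  obtain ⟨n, ⟨e⟩⟩ := Finite.exists_equiv_fin ι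
  refine ⟨n, e.symm, fun i => h.cont _, fun i => h.bdry _, fun i => h.off _, ?_, ?_⟩
  · intro i i' x x' hx hxA hx' hx'A heq
    obtain ⟨h1, h2⟩ := h.inj _ _ _ _ hx hxA hx' hx'A heq
    exact ⟨e.symm.injective h1, h2⟩
  · rw [h.union]
    congr 1
    exact (e.symm.surjective.iUnion_comp (fun i => χ i '' B)).symm

variable {α X ι : Type*} [MetricSpace α] [MetricSpace X]

/-- SUBDIV: one layer of `d`-cells is `d + 1` layers of small cells of dimensions `0, ..., d`. -/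
theorem Fam.subdiv [Finite ι] {d : ℕ} {K V : Set α} {χ : ι → (Fin d → ℝ) → α}
    (h : Fam (Cu d) (dCu d) K V χ) {c : α → X} (hc : ContinuousOn c V) {η : ℝ} (hη : 0 < η) :
    ∃ S : ℕ → Set α, S 0 = K ∧ S (d + 1) = V ∧ ∀ i ≤ d, ∃ (n : ℕ) (χ' : Fin n → (Fin i → ℝ) → α),
      Fam (Cu i) (dCu i) (S i) (S (i + 1)) χ' ∧
      ∀ b, ∀ x ∈ Cu i, ∀ y ∈ Cu i, dist (c (χ' b x)) (c (χ' b y)) < η := by
  -- the mesh
  obtain ⟨δ, hδ, hδ'⟩ : ∃ δ > 0, ∀ a, ∀ x ∈ Cu d, ∀ y ∈ Cu d, dist x y < δ →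
      dist (c (χ a x)) (c (χ a y)) < η := by
    have h1 : ∀ a, ∃ δ > 0, ∀ x ∈ Cu d, ∀ y ∈ Cu d, dist x y < δ →
        dist (c (χ a x)) (c (χ a y)) < η := fun a =>
      Metric.uniformContinuousOn_iff.1 ((isCompact_Cu d).uniformContinuousOn_of_continuous
        (hc.comp (h.cont a) (h.maps a))) η hη
    choose δ hδ hδ' using h1
    rcases isEmpty_or_nonempty ι with hι | hι
    · exact ⟨1, one_pos, fun a => hι.elim a⟩
    · obtain ⟨a₀, ha₀⟩ := Finite.exists_min δ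
      exact ⟨δ a₀, hδ a₀, fun a x hx y hy hxy => hδ' a x hx y hy (hxy.trans_le (ha₀ a))⟩
  obtain ⟨m', hm'⟩ := exists_nat_one_div_lt hδ
  set m := m' + 1 with hm
  have hm0 : 0 < m := Nat.succ_pos m'
  -- the filtration of the model
  set S : ℕ → Set (Fin d → ℝ) := fun i => dCu d ∪ {x | x ∈ Cu d ∧ dm (car m x) < i} with hS
  have hScub : ∀ i, IsCub m (S i) := fun i =>
    (isCub_dCu hm0 d).union ((isCub_Cu hm0 d).skel_lt i)
  have hS0 : S 0 = dCu d := by simp [hS]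
  have hS1 : S (d + 1) = Cu d := by
    apply Subset.antisymm (union_subset (dCu_subset d) fun x hx => hx.1)
    intro x hx
    exact Or.inr ⟨hx, Nat.lt_succ_of_le (dm_le _)⟩
  have hSB : ∀ i, S i ⊆ Cu d := fun i => union_subset (dCu_subset d) fun x hx => hx.1
  refine ⟨fun i => K ∪ ⋃ a, χ a '' S i, ?_, ?_, fun i _ => ?_⟩
  · show K ∪ ⋃ a, χ a '' S 0 = K
    rw [hS0]; exact h.filt_zero
  · show K ∪ ⋃ a, χ a '' S (d + 1) = V
    rw [hS1]; exact h.union.symm
  · obtain ⟨W, ψ, hW, hψ, hψc⟩ := IsCub.fam hm0 (hScub i) (hScub (i + 1))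
      (union_subset_union_right _ fun x hx => ⟨hx.1, hx.2.trans (Nat.lt_succ_self i)⟩) (d := i) (by
        rintro x (hx | hx) hx'
        · exact absurd (Or.inl hx) hx'
        · have h1 : ¬ dm (car m x) < i := fun h => hx' (Or.inr ⟨hx.1, h⟩)
          have h2 := hx.2
          omega)
    have : Finite W := hW
    have h1 := h.transport (S := S i) (S' := S (i + 1)) subset_union_left (hSB _) hψ (dCu_subset i)
    obtain ⟨n, e, h2⟩ := h1.reindex
    refine ⟨n, _, h2, fun b x hx y hy => ?_⟩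
    have hm1 : ∀ z ∈ Cu i, ψ (e b).2 z ∈ Cu d := fun z hz => hSB _ (hψ.maps _ hz)
    refine hδ' _ _ (hm1 x hx) _ (hm1 y hy) ?_
    have h3 := dist_le_of_mem_cube hm0 (hψc (e b).2 (mem_image_of_mem _ hx))
      (hψc (e b).2 (mem_image_of_mem _ hy))
    refine h3.trans_lt ?_
    rw [hm]
    push_cast
    exact hm'

end MG
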